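import Pool.Agent.Helper61.HL.Next

/-!
# Asymptotic inequalities and the contraction of the weights
-/

namespace Pool.Agent.Helper61.HL

noncomputable section

open MeasureTheory AddCircle Complex Finset

lemma exp_growth {q : ℝ} (hq : 1 < q) (C : ℝ) : ∃ n0 : ℕ, 1 ≤ n0 ∧ ∀ n : ℕ, n0 ≤ n →
    C * (n : ℝ) ^ 4 ≤ q ^ n := by
  have h := tendsto_pow_const_div_const_pow_of_one_lt 4 hq
  have h1 : ∀ᶠ n : ℕ in Filter.atTop, (n : ℝ) ^ 4 / q ^ n ≤ 1 / (|C| + 1) :=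
    h.eventually_le_const (by positivity)
  obtain ⟨n0, hn0⟩ := Filter.eventually_atTop.mp h1
  refine ⟨max n0 1, le_max_right _ _, fun n hn => ?_⟩
  have h2 := hn0 n ((le_max_left _ _).trans hn)
  have hqn : 0 < q ^ n := by positivity
  rw [div_le_div_iff₀ hqn (by positivity)] at h2
  have h3 : (0 : ℝ) ≤ (n : ℝ) ^ 4 := by positivity
  have h4 := le_abs_self C
  nlinarith

/-- The level from which all asymptotic inequalities hold. -/
lemma asym {q : ℝ} (hq : 1 < q) : ∃ b0 : ℝ, 16 ≤ b0 ∧ ∀ b, b0 ≤ b → ∀ n : ℕ, b ≤ (n : ℝ) ^ 2 →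
    Aq q * (2 * b ^ 2 + 3) ≤ q ^ n ∧ 2 * (1 + 48 * b) ≤ q ^ n := by
  have hA := Aq_gt hq
  obtain ⟨n0, hn01, hn0⟩ := exp_growth hq (5 * Aq q + 98)
  refine ⟨max 16 ((n0 : ℝ) ^ 2), le_max_left _ _, fun b hb n hn => ?_⟩
  have hb16 : 16 ≤ b := (le_max_left _ _).trans hb
  have h1 : (n0 : ℝ) ^ 2 ≤ (n : ℝ) ^ 2 := ((le_max_right _ _).trans hb).trans hn
  have h2 : n0 ≤ n := by
    by_contra h3
    push Not at h3
    have h4 : (n : ℝ) < n0 := by exact_mod_cast h3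
    have h5 : (0 : ℝ) ≤ n := Nat.cast_nonneg n
    nlinarith
  have h3 := hn0 n h2
  have h4 : b ^ 2 ≤ (n : ℝ) ^ 4 := by
    calc b ^ 2 ≤ ((n : ℝ) ^ 2) ^ 2 := pow_le_pow_left₀ (by linarith) hn 2
      _ = (n : ℝ) ^ 4 := by ring
  have h5 : 1 ≤ b ^ 2 := by nlinarith
  have h6 : b ≤ b ^ 2 := by nlinarith
  constructor
  · nlinarith
  · nlinarith

lemma CE_small {q : ℝ} (hq : 1 < q) : ∃ b0 : ℝ, 16 ≤ b0 ∧ ∀ b, b0 ≤ b → ∀ κ : ℕ,
    (κ : ℝ) ^ 2 ≤ b → (CE q κ b + 1) / b ≤ b ^ (-(1 / 3) : ℝ) := by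
  have hA := Aq_gt hq
  set C := 2 * Aq q + 34 + Real.log (1 + Real.exp (2 * Aq q)) + (Real.log 4 + Aq q) with hC
  have hlA := logA_nonneg q
  have hlog4 : 0 ≤ Real.log 4 := Real.log_nonneg (by norm_num)
  have hC0 : 0 < C := by positivity
  refine ⟨max 16 ((C + 24) ^ 12), le_max_left _ _, fun b hb κ hκ => ?_⟩
  have hb16 : 16 ≤ b := (le_max_left _ _).trans hb
  have hb0 : 0 < b := by linarith
  have hb1 : 1 ≤ b := by linarith
  -- powers of `b`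
  set t := b ^ (1 / 12 : ℝ) with ht
  have ht0 : 0 < t := by positivity
  have ht12 : t ^ 12 = b := by
    rw [ht, ← Real.rpow_natCast, ← Real.rpow_mul hb0.le]
    norm_num
  have ht1 : 1 ≤ t := Real.one_le_rpow hb1 (by norm_num)
  have htC : C + 24 ≤ t := by
    have h1 : (C + 24) ^ 12 ≤ t ^ 12 := by
      rw [ht12]
      exact (le_max_right _ _).trans hb
    exact le_of_pow_le_pow_left₀ (by norm_num) ht0.le h1
  have hκt : (κ : ℝ) ≤ t ^ 6 := by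
    refine le_of_sq_le_sq ?_ (by positivity)
    rw [← pow_mul]
    exact hκ.trans (le_of_eq ht12.symm)
  have hlogb : Real.log b ≤ 12 * t := by
    have := Real.log_le_rpow_div hb0.le (show (0 : ℝ) < 1 / 12 by norm_num)
    rw [← ht] at this
    linarith
  have hlogb0 : 0 ≤ Real.log b := Real.log_nonneg hb1
  have hCE : CE q κ b + 1 ≤ (C + 24) * t ^ 7 := by
    unfold CE Ck
    have h1 : (κ : ℝ) * (Real.log 4 + Aq q + 2 * Real.log b)
        ≤ t ^ 6 * (Real.log 4 + Aq q + 24 * t) :=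
      mul_le_mul hκt (by linarith) (by positivity) (by positivity)
    have h2 : (1 : ℝ) ≤ t ^ 7 := one_le_pow₀ ht1
    have h3 : t ^ 6 ≤ t ^ 7 := pow_le_pow_right₀ ht1 (by norm_num)
    have h4 : t ^ 6 * (Real.log 4 + Aq q + 24 * t) ≤ (Real.log 4 + Aq q) * t ^ 7 + 24 * t ^ 7 := by
      have : t ^ 6 * (Real.log 4 + Aq q) ≤ t ^ 7 * (Real.log 4 + Aq q) :=
        mul_le_mul_of_nonneg_right h3 (by positivity)
      nlinarith
    have h5 : 2 * Aq q + 34 + Real.log (1 + Real.exp (2 * Aq q))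
        ≤ (2 * Aq q + 34 + Real.log (1 + Real.exp (2 * Aq q))) * t ^ 7 :=
      le_mul_of_one_le_right (by positivity) h2
    have h6 : (C + 24) * t ^ 7 = (2 * Aq q + 34 + Real.log (1 + Real.exp (2 * Aq q))) * t ^ 7
        + (Real.log 4 + Aq q) * t ^ 7 + 24 * t ^ 7 := by
      rw [hC]
      ring
    rw [h6]
    linarith
  have hpow : b ^ (-(1 / 3) : ℝ) = t ^ 8 / b := by
    rw [ht, ← Real.rpow_natCast (b ^ (1 / 12 : ℝ)) 8, ← Real.rpow_mul hb0.le,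
      eq_div_iff hb0.ne', ← Real.rpow_add_one hb0.ne']
    norm_num
  rw [hpow]
  refine div_le_div_of_nonneg_right (hCE.trans ?_) hb0.le
  have h7 : (0 : ℝ) ≤ t ^ 7 := by positivity
  nlinarith

/-- All parameters. -/
structure Par (q : ℝ) (L : ℕ) (lam Lam K0 p b0 : ℝ) : Prop where
  hL : 0 < L
  hlam : 2 ≤ lam
  hLam : 2 * lam + Aq q ^ 2 ≤ Lam
  hK0 : 1 ≤ K0
  hp : 0 < p
  hp12 : p ≤ 1 / 12
  hb0 : 16 ≤ b0
  hb0' : Lam + Aq q ^ 2 + 1 + Real.log L ≤ b0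
  h_asym : ∀ b, b0 ≤ b → ∀ n : ℕ, b ≤ (n : ℝ) ^ 2 →
    Aq q * (2 * b ^ 2 + 3) ≤ q ^ n ∧ 2 * (1 + 48 * b) ≤ q ^ n
  h_CE : ∀ b, b0 ≤ b → ∀ κ : ℕ, (κ : ℝ) ^ 2 ≤ b → (CE q κ b + 1) / b ≤ b ^ (-(1 / 3) : ℝ)
  h_rot : ∃ g1 : ℝ, Real.sqrt (1 / lam) + Real.sqrt ((L + 1 / lam) / (L + 1)) ≤ g1 ∧
    (Real.sqrt (1 / lam) + Real.sqrt ((L + 1 / lam) / (L + 1)) + Real.sqrt (C2 q L))
      + K0 * lam ^ (-(1 / 6) : ℝ) ≤ g1 * K0 ∧ g1 ≤ Lam ^ (-p)
  h_jump : (1 + Real.sqrt (2 * lam) + Real.sqrt (C2 q L)) ^ 4 ≤ Lam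
  h_jump2 : (2 : ℝ) ^ 12 ≤ Lam

lemma exists_Par {q : ℝ} (hq : 1 < q) {L : ℕ} (hL : 0 < L) :
    ∃ lam Lam K0 p b0 : ℝ, Par q L lam Lam K0 p b0 := by
  have hA := Aq_gt hq
  have hL1 : (1 : ℝ) ≤ L := by exact_mod_cast hL
  have hlogL : 0 ≤ Real.log L := Real.log_nonneg hL1
  have hlA := logA_nonneg q
  have hC2 : 0 ≤ C2 q L := by
    unfold C2
    positivity
  set ρ := ((L : ℝ) + 1 / 2) / (L + 1) with hρ
  have hρ0 : 0 < ρ := by positivity
  have hρ1 : ρ < 1 := by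
    rw [hρ, div_lt_one (by positivity)]
    linarith
  have hsρ : Real.sqrt ρ < 1 := by
    rw [Real.sqrt_lt' one_pos]
    simpa using hρ1
  set δ := (1 - Real.sqrt ρ) / 2 with hδ
  have hδ0 : 0 < δ := by
    rw [hδ]
    linarith
  set lam := max 2 (1 / δ ^ 2) with hlam
  have hlam2 : 2 ≤ lam := le_max_left _ _
  have hlam0 : 0 < lam := by linarith
  have hsl : Real.sqrt (1 / lam) ≤ δ := by
    rw [Real.sqrt_le_left hδ0.le, div_le_iff₀ hlam0]
    have h1 : 1 / δ ^ 2 ≤ lam := le_max_right _ _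
    rw [div_le_iff₀ (by positivity)] at h1
    linarith
  have hsr : Real.sqrt ((L + 1 / lam) / (L + 1)) ≤ Real.sqrt ρ := by
    refine Real.sqrt_le_sqrt ?_
    rw [hρ]
    refine div_le_div_of_nonneg_right ?_ (by positivity)
    have : 1 / lam ≤ 1 / 2 := one_div_le_one_div_of_le two_pos hlam2
    linarith
  set g0 := Real.sqrt (1 / lam) + Real.sqrt ((L + 1 / lam) / (L + 1)) with hg0
  have hg00 : 0 ≤ g0 := by positivity
  have hg01 : g0 < 1 := by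
    have : g0 ≤ δ + Real.sqrt ρ := add_le_add hsl hsr
    rw [hδ] at this
    linarith
  set s := lam ^ (-(1 / 6) : ℝ) with hs
  have hs0 : 0 < s := by positivity
  have hs1 : s < 1 := by
    rw [hs]
    exact Real.rpow_lt_one_of_one_lt_of_neg (by linarith) (by norm_num)
  set g1 := max g0 ((1 + s) / 2) with hg1
  have hg11 : g1 < 1 := max_lt hg01 (by linarith)
  have hg1pos : 0 < g1 := lt_max_of_lt_right (by linarith)
  set K0 := max 1 (2 * (1 + Real.sqrt (C2 q L)) / (1 - s)) with hK0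
  have hK0pos : 0 < K0 := lt_max_of_lt_left one_pos
  set Lam := max (2 * lam + Aq q ^ 2)
    (max ((1 + Real.sqrt (2 * lam) + Real.sqrt (C2 q L)) ^ 4) ((2 : ℝ) ^ 12)) with hLam
  have hLam1 : 2 * lam + Aq q ^ 2 ≤ Lam := le_max_left _ _
  have hLam2 : (1 + Real.sqrt (2 * lam) + Real.sqrt (C2 q L)) ^ 4 ≤ Lam :=
    (le_max_left _ _).trans (le_max_right _ _)
  have hLam3 : (2 : ℝ) ^ 12 ≤ Lam := (le_max_right _ _).trans (le_max_right _ _)
  have hLamgt : 1 < Lam := by linarith [show (1 : ℝ) < 2 ^ 12 by norm_num]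
  have hlogLam : 0 < Real.log Lam := Real.log_pos hLamgt
  have hlogg : 0 < -Real.log g1 := by
    have := Real.log_neg hg1pos hg11
    linarith
  set p := min (1 / 12) (-Real.log g1 / Real.log Lam) with hp
  have hp0 : 0 < p := lt_min (by norm_num) (div_pos hlogg hlogLam)
  obtain ⟨b1, hb1, hb1'⟩ := asym hq
  obtain ⟨b2, hb2, hb2'⟩ := CE_small hq
  refine ⟨lam, Lam, K0, p, max (max b1 b2) (Lam + Aq q ^ 2 + 1 + Real.log L), hL, hlam2, hLam1,
    le_max_left _ _, hp0, min_le_left _ _, hb1.trans ((le_max_left _ _).trans (le_max_left _ _)),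
    le_max_right _ _, fun b hb => hb1' b ((le_max_left _ _).trans ((le_max_left _ _).trans hb)),
    fun b hb => hb2' b ((le_max_right _ _).trans ((le_max_left _ _).trans hb)),
    ⟨g1, le_max_left _ _, ?_, ?_⟩, hLam2, hLam3⟩
  · have h1 : (1 + s) / 2 ≤ g1 := le_max_right _ _
    have h2 : 2 * (1 + Real.sqrt (C2 q L)) / (1 - s) ≤ K0 := le_max_right _ _
    rw [div_le_iff₀ (by linarith)] at h2
    have h3 : (1 + s) / 2 * K0 ≤ g1 * K0 := mul_le_mul_of_nonneg_right h1 hK0pos.le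
    have h4 : g0 + Real.sqrt (C2 q L) ≤ 1 + Real.sqrt (C2 q L) := by linarith
    nlinarith
  · rw [Real.rpow_def_of_pos (by linarith)]
    rw [← Real.log_le_iff_le_exp hg1pos]
    have h1 : p ≤ -Real.log g1 / Real.log Lam := min_le_right _ _
    rw [le_div_iff₀ hlogLam] at h1
    linarith

end

end Pool.Agent.Helper61.HL
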