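import Pool.Agent.Helper61.HL.Gap

/-!
# Averages over circles
-/

namespace Pool.Agent.Helper61.HL

noncomputable section

open MeasureTheory AddCircle Complex Finset

lemma P_zero (θ : Ci) : P 0 θ = 1 := by
  unfold P
  simp [norm_ze]

lemma int_ze_pos {n : ℕ} (hn : 0 < n) : ∫ θ, ze θ ^ n ∂mu = 0 := by
  have h := poisson (f := fun z => z ^ n) (differentiable_id.pow n) (w := 0) (by simp)
  simp only [P_zero, ofReal_one, one_mul] at h
  rw [h, zero_pow hn.ne']

lemma int_ze (n : ℤ) : ∫ θ, ze θ ^ n ∂mu = if n = 0 then 1 else 0 := by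
  split_ifs with h
  · rw [h]
    simp
  · obtain ⟨k, rfl | rfl⟩ := n.eq_nat_or_neg
    · simp only [zpow_natCast]
      exact int_ze_pos (by omega)
    · have hk : 0 < k := by omega
      have h1 : ∀ θ : Ci, ze θ ^ (-(k : ℤ)) = (starRingEnd ℂ) (ze θ ^ k) := by
        intro θ
        rw [map_pow, conj_ze, zpow_neg, zpow_natCast, inv_pow]
      simp only [h1]
      rw [integral_conj, int_ze_pos hk, map_zero]

lemma continuous_zpow_ze (n : ℤ) : Continuous fun θ : Ci => ze θ ^ n := by
  have : (fun θ : Ci => ze θ ^ n) = fun θ => (fourier n θ : ℂ) := by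
    ext θ
    rw [fourier_eq]
  rw [this]
  exact (fourier n).continuous

/-- Parseval for Laurent polynomials. -/
lemma parseval (S : Finset ℤ) (d : ℤ → ℂ) :
    ∫ θ, ‖E S d (ze θ)‖ ^ 2 ∂mu = ∑ n ∈ S, ‖d n‖ ^ 2 := by
  have h1 : ∀ θ : Ci, ((‖E S d (ze θ)‖ ^ 2 : ℝ) : ℂ)
      = ∑ n ∈ S, ∑ k ∈ S, d n * (starRingEnd ℂ) (d k) * ze θ ^ (n - k) := by
    intro θ
    have h2 : ((‖E S d (ze θ)‖ ^ 2 : ℝ) : ℂ) = E S d (ze θ) * (starRingEnd ℂ) (E S d (ze θ)) := by
      rw [Complex.mul_conj, Complex.normSq_eq_norm_sq]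
    rw [h2]
    unfold E
    rw [map_sum, Finset.sum_mul_sum]
    refine Finset.sum_congr rfl fun n _ => Finset.sum_congr rfl fun k _ => ?_
    rw [map_mul, map_zpow₀, conj_ze, zpow_sub₀ (ze_ne θ), inv_zpow, div_eq_mul_inv]
    ring
  have h3 : ((∫ θ, ‖E S d (ze θ)‖ ^ 2 ∂mu : ℝ) : ℂ) = ((∑ n ∈ S, ‖d n‖ ^ 2 : ℝ) : ℂ) := by
    rw [← integral_complex_ofReal]
    simp only [h1]
    have hi : ∀ n k : ℤ, Integrable (fun θ => d n * (starRingEnd ℂ) (d k) * ze θ ^ (n - k)) mu :=
      fun n k => integrable_of_cont (continuous_const.mul (continuous_zpow_ze _))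
    rw [integral_finsetSum _ fun n _ => integrable_finsetSum _ fun k _ => hi n k]
    push_cast
    refine Finset.sum_congr rfl fun n hn => ?_
    rw [integral_finsetSum _ fun k _ => hi n k, Finset.sum_eq_single n]
    · rw [integral_const_mul, int_ze, if_pos (sub_self n), mul_one, Complex.mul_conj,
        Complex.normSq_eq_norm_sq]
      push_cast
      rfl
    · intro k _ hk
      rw [integral_const_mul, int_ze, if_neg (by omega), mul_zero]
    · exact fun h => absurd hn h
  exact_mod_cast h3

lemma int_const (a : ℝ) : ∫ _θ : Ci, a ∂mu = a := by simp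

/-- Jensen's inequality for the logarithm. -/
lemma int_log_le {X : Ci → ℝ} (hX : Continuous X) (hX0 : ∀ θ, 0 ≤ X θ) {a : ℝ} (ha : 0 ≤ a)
    (h : ∫ θ, X θ ∂mu ≤ a) : ∫ θ, Real.log (1 + X θ) ∂mu ≤ Real.log (1 + a) := by
  have hc : Continuous fun θ => Real.log (1 + X θ) :=
    Continuous.log (by fun_prop) fun θ => by linarith [hX0 θ]
  calc ∫ θ, Real.log (1 + X θ) ∂mu ≤ ∫ θ, (Real.log (1 + a) - a / (1 + a)) + X θ * (1 / (1 + a)) ∂mu := by
        refine integral_mono (integrable_of_cont hc) (integrable_of_cont (by fun_prop)) fun θ => ?_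
        have h1 : 0 < 1 + a := by linarith
        have h2 : 0 < 1 + X θ := by linarith [hX0 θ]
        have h3 := Real.log_le_sub_one_of_pos (div_pos h2 h1)
        rw [Real.log_div h2.ne' h1.ne'] at h3
        have h4 : (1 + X θ) / (1 + a) - 1 = X θ * (1 / (1 + a)) - a / (1 + a) := by
          field_simp
          ring
        simp only
        linarith
    _ = (Real.log (1 + a) - a / (1 + a)) + (∫ θ, X θ ∂mu) * (1 / (1 + a)) := by
        rw [integral_add (integrable_const _) ((integrable_of_cont hX).mul_const _),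
          integral_mul_const, int_const]
    _ ≤ Real.log (1 + a) := by
        have h1 : 0 < 1 + a := by linarith
        have h2 : (∫ θ, X θ ∂mu) * (1 / (1 + a)) ≤ a * (1 / (1 + a)) :=
          mul_le_mul_of_nonneg_right h (by positivity)
        have h3 : a * (1 / (1 + a)) = a / (1 + a) := by ring
        linarith

/-- Jensen's inequality for the square root. -/
lemma int_sqrt_le {X : Ci → ℝ} (hX : Continuous X) (hX0 : ∀ θ, 0 ≤ X θ) {a : ℝ} (ha : 0 < a)
    (h : ∫ θ, X θ ∂mu ≤ a) : ∫ θ, Real.sqrt (X θ) ∂mu ≤ Real.sqrt a := by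
  have hs : 0 < Real.sqrt a := Real.sqrt_pos.mpr ha
  have hsa : Real.sqrt a * Real.sqrt a = a := Real.mul_self_sqrt ha.le
  calc ∫ θ, Real.sqrt (X θ) ∂mu ≤ ∫ θ, Real.sqrt a / 2 + X θ * (1 / (2 * Real.sqrt a)) ∂mu := by
        refine integral_mono (integrable_of_cont hX.sqrt) (integrable_of_cont (by fun_prop))
          fun θ => ?_
        simp only
        have h1 := Real.mul_self_sqrt (hX0 θ)
        have h2 : Real.sqrt a / 2 + X θ * (1 / (2 * Real.sqrt a))
            = (Real.sqrt a * Real.sqrt a + X θ) / (2 * Real.sqrt a) := by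
          field_simp
        rw [h2, le_div_iff₀ (by positivity)]
        nlinarith [sq_nonneg (Real.sqrt (X θ) - Real.sqrt a)]
    _ = Real.sqrt a / 2 + (∫ θ, X θ ∂mu) * (1 / (2 * Real.sqrt a)) := by
        rw [integral_add (integrable_const _) ((integrable_of_cont hX).mul_const _),
          integral_mul_const, int_const]
    _ ≤ Real.sqrt a := by
        have h1 : (∫ θ, X θ ∂mu) * (1 / (2 * Real.sqrt a)) ≤ a * (1 / (2 * Real.sqrt a)) :=
          mul_le_mul_of_nonneg_right h (by positivity)
        have h2 : a * (1 / (2 * Real.sqrt a)) = Real.sqrt a / 2 := by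
          field_simp
          nlinarith
        linarith

/-- The pointwise contraction estimate. -/
lemma contr_pt {w : ℂ} (hw : ‖w‖ < 1) {v : Ci → ℝ} (hv : Continuous v) (hv0 : ∀ θ, 0 ≤ v θ)
    {b b' A B : ℝ} (hb : 0 < b) (hb' : 0 < b') (hA : 0 < A) (hB : 0 < B)
    (h1 : PI w (fun θ => min (v θ) b) ≤ A * b) (h2 : PI w v ≤ B * b') :
    PI w (fun θ => Real.sqrt (v θ / b')) ≤ Real.sqrt A * (Real.sqrt (b / b') + Real.sqrt B) := by
  have hsA : 0 < Real.sqrt A := Real.sqrt_pos.mpr hA
  have hsB : 0 < Real.sqrt B := Real.sqrt_pos.mpr hB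
  have hAA : Real.sqrt A * Real.sqrt A = A := Real.mul_self_sqrt hA.le
  have hBB : Real.sqrt B * Real.sqrt B = B := Real.mul_self_sqrt hB.le
  set sb := Real.sqrt (b / b') with hsb
  have hsb0 : 0 ≤ sb := Real.sqrt_nonneg _
  set sA := Real.sqrt A
  set sB := Real.sqrt B
  -- coefficients of the linear majorant
  have hmc : Continuous fun θ => min (v θ) b := hv.min continuous_const
  have hpt : ∀ θ, Real.sqrt (v θ / b')
      ≤ (sb * sA / 2 + (sb / (2 * sA * b) + sB / (2 * sA * b)) * min (v θ) b)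
        + sA / (2 * sB * b') * v θ := by
    intro θ
    have hm0 : 0 ≤ min (v θ) b := le_min (hv0 θ) hb.le
    set p := Real.sqrt (min (v θ) b / b) with hp
    have hp0 : 0 ≤ p := Real.sqrt_nonneg _
    have hpp : p * p = min (v θ) b / b := Real.mul_self_sqrt (by positivity)
    set r := Real.sqrt (v θ / b') with hr
    have hr0 : 0 ≤ r := Real.sqrt_nonneg _
    have hrr : r * r = v θ / b' := Real.mul_self_sqrt (div_nonneg (hv0 θ) hb'.le)
    -- `r ≤ sb * p + p * r`
    have key : r ≤ sb * p + p * r := by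
      rcases le_total (v θ) b with h | h
      · have h3 : r = sb * p := by
          rw [hr, hsb, hp, ← Real.sqrt_mul (by positivity), min_eq_left h]
          congr 1
          field_simp
        have h4 : 0 ≤ p * r := by positivity
        linarith
      · have h3 : p = 1 := by
          rw [hp, min_eq_right h, div_self hb.ne', Real.sqrt_one]
        rw [h3]
        linarith
    have k1 : p ≤ sA / 2 + p * p / (2 * sA) := by
      have : sA / 2 + p * p / (2 * sA) = (sA * sA + p * p) / (2 * sA) := by field_simp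
      rw [this, le_div_iff₀ (by positivity)]
      nlinarith [sq_nonneg (p - sA)]
    have k2 : p * r ≤ sB / (2 * sA) * (p * p) + sA / (2 * sB) * (r * r) := by
      have : sB / (2 * sA) * (p * p) + sA / (2 * sB) * (r * r)
          = (sB * sB * (p * p) + sA * sA * (r * r)) / (2 * sA * sB) := by field_simp
      rw [this, le_div_iff₀ (by positivity)]
      nlinarith [sq_nonneg (sB * p - sA * r)]
    calc r ≤ sb * p + p * r := key
      _ ≤ sb * (sA / 2 + p * p / (2 * sA))
          + (sB / (2 * sA) * (p * p) + sA / (2 * sB) * (r * r)) :=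
          add_le_add (mul_le_mul_of_nonneg_left k1 hsb0) k2
      _ = _ := by
          rw [hpp, hrr]
          field_simp
          ring
  have hc1 : Continuous fun θ => Real.sqrt (v θ / b') := (hv.div_const _).sqrt
  have hc2 : Continuous fun θ => sb * sA / 2
      + (sb / (2 * sA * b) + sB / (2 * sA * b)) * min (v θ) b := by fun_prop
  have hc3 : Continuous fun θ => sA / (2 * sB * b') * v θ := by fun_prop
  have hmono := PI_mono hw hc1 (hc2.add hc3) hpt
  have e1 := PI_add hw hc2 hc3
  have e2 := PI_add hw (U := fun _ => sb * sA / 2)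
    (V := fun θ => (sb / (2 * sA * b) + sB / (2 * sA * b)) * min (v θ) b) continuous_const
    (by fun_prop)
  rw [PI_const hw, PI_smul] at e2
  rw [e2, PI_smul] at e1
  refine (hmono.trans_eq e1).trans ?_
  have g1 : (sb / (2 * sA * b) + sB / (2 * sA * b)) * PI w (fun θ => min (v θ) b)
      ≤ (sb / (2 * sA * b) + sB / (2 * sA * b)) * (A * b) :=
    mul_le_mul_of_nonneg_left h1 (by positivity)
  have g2 : sA / (2 * sB * b') * PI w v ≤ sA / (2 * sB * b') * (B * b') :=
    mul_le_mul_of_nonneg_left h2 (by positivity)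
  have g3 : sb * sA / 2 + (sb / (2 * sA * b) + sB / (2 * sA * b)) * (A * b)
      + sA / (2 * sB * b') * (B * b') = sA * (sb + sB) := by
    rw [← hAA, ← hBB]
    field_simp
    ring
  linarith

end

end Pool.Agent.Helper61.HL
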