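import Pool.Agent.Helper61.HL.Norms

/-!
# Contraction estimates
-/

namespace Pool.Agent.Helper61.HL

noncomputable section

open MeasureTheory AddCircle Complex Finset

lemma R_norm {R : ℝ} (hR0 : 0 ≤ R) (θ : Ci) : ‖(R : ℂ) * ze θ‖ = R := by
  rw [norm_mul, norm_ze, mul_one, Complex.norm_real, Real.norm_of_nonneg hR0]

lemma sqrt_add_le' {a b : ℝ} (ha : 0 ≤ a) (hb : 0 ≤ b) :
    Real.sqrt (a + b) ≤ Real.sqrt a + Real.sqrt b := by
  rw [Real.sqrt_le_left (by positivity)]
  nlinarith [Real.mul_self_sqrt ha, Real.mul_self_sqrt hb,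
    mul_nonneg (Real.sqrt_nonneg a) (Real.sqrt_nonneg b)]

lemma int_mono {U V : Ci → ℝ} (hU : Continuous U) (hV : Continuous V) (h : ∀ θ, U θ ≤ V θ) :
    ∫ θ, U θ ∂mu ≤ ∫ θ, V θ ∂mu :=
  integral_mono (integrable_of_cont hU) (integrable_of_cont hV) h

lemma int_add {U V : Ci → ℝ} (hU : Continuous U) (hV : Continuous V) :
    ∫ θ, (U θ + V θ) ∂mu = ∫ θ, U θ ∂mu + ∫ θ, V θ ∂mu :=
  integral_add (integrable_of_cont hU) (integrable_of_cont hV)

/-- Contraction, when the mean value of `v` is controlled at every point. -/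
lemma contr2 {R : ℝ} (hR0 : 0 ≤ R) (hR1 : R < 1) {v y e1 e2 : Ci → ℝ} (hv : Continuous v)
    (hy : Continuous y) (he1 : Continuous e1) (he2 : Continuous e2) (hv0 : ∀ θ, 0 ≤ v θ)
    (hy0 : ∀ θ, 0 ≤ y θ) (he10 : ∀ θ, 0 ≤ e1 θ) (he20 : ∀ θ, 0 ≤ e2 θ)
    {b b' ρ CE C2 : ℝ} (hb : 0 < b) (hb' : 0 < b') (hρ : 0 < ρ) (hC2 : 0 < C2)
    (h1 : ∀ θ, PI (R * ze θ) (fun θ => min (v θ) b) ≤ y θ + e1 θ + 1)
    (h2 : ∀ θ, PI (R * ze θ) v ≤ ρ * b' + e2 θ) (hCE : ∫ θ, e1 θ ∂mu ≤ CE)
    (hC2' : ∫ θ, e2 θ ∂mu ≤ C2) :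
    ∫ θ, Real.sqrt (v θ / b') ∂mu ≤ (Real.sqrt (b / b') + Real.sqrt ρ)
      * (∫ θ, Real.sqrt (y θ / b) ∂mu + Real.sqrt ((CE + 1) / b)) + Real.sqrt (C2 / b') := by
  have hCE0 : 0 ≤ CE := le_trans (integral_nonneg he10) hCE
  have hvc : Continuous fun θ => Real.sqrt (v θ / b') := (hv.div_const _).sqrt
  have hyc : Continuous fun θ => Real.sqrt (y θ / b) := (hy.div_const _).sqrt
  have he1c : Continuous fun θ => Real.sqrt ((e1 θ + 1) / b) :=
    ((he1.add continuous_const).div_const _).sqrt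
  have he2c : Continuous fun θ => Real.sqrt (e2 θ / b') := (he2.div_const _).sqrt
  set g := Real.sqrt (b / b') + Real.sqrt ρ with hg
  have hg0 : 0 ≤ g := by positivity
  rw [← avg_PI hR0 hR1 hvc]
  have hpt : ∀ θ, PI (R * ze θ) (fun θ => Real.sqrt (v θ / b'))
      ≤ g * (Real.sqrt (y θ / b) + Real.sqrt ((e1 θ + 1) / b)) + Real.sqrt (e2 θ / b') := by
    intro θ
    have hw : ‖(R : ℂ) * ze θ‖ < 1 := by rw [R_norm hR0]; exact hR1
    set a := (y θ + e1 θ + 1) / b with ha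
    have ha0 : 0 < a := by
      have := hy0 θ
      have := he10 θ
      rw [ha]
      positivity
    set A := min a 1 with hA
    have hA0 : 0 < A := lt_min ha0 one_pos
    set B := ρ + e2 θ / b' with hB
    have hB0 : 0 < B := by
      have := he20 θ
      rw [hB]
      positivity
    have hAb : PI (R * ze θ) (fun θ => min (v θ) b) ≤ A * b := by
      rw [hA, min_mul_of_nonneg _ _ hb.le]
      refine le_min ?_ ?_
      · rw [ha, div_mul_cancel₀ _ hb.ne']
        exact h1 θ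
      · rw [one_mul]
        exact PI_le_of_le hw (hv.min continuous_const) fun θ => min_le_right _ _
    have hBb : PI (R * ze θ) v ≤ B * b' := by
      rw [hB, add_mul, div_mul_cancel₀ _ hb'.ne']
      exact h2 θ
    have h3 := contr_pt hw hv hv0 hb hb' hA0 hB0 hAb hBb
    have hsA1 : Real.sqrt A ≤ 1 :=
      (Real.sqrt_le_sqrt (min_le_right a 1)).trans (le_of_eq Real.sqrt_one)
    have hsAa : Real.sqrt A ≤ Real.sqrt (y θ / b) + Real.sqrt ((e1 θ + 1) / b) := by
      refine (Real.sqrt_le_sqrt (min_le_left a 1)).trans ?_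
      have h4 : a = y θ / b + (e1 θ + 1) / b := by
        rw [ha]
        ring
      rw [h4]
      have := hy0 θ
      have := he10 θ
      exact sqrt_add_le' (by positivity) (by positivity)
    have hsB : Real.sqrt B ≤ Real.sqrt ρ + Real.sqrt (e2 θ / b') :=
      sqrt_add_le' hρ.le (div_nonneg (he20 θ) hb'.le)
    have hsA0 : 0 ≤ Real.sqrt A := Real.sqrt_nonneg _
    have hse : 0 ≤ Real.sqrt (e2 θ / b') := Real.sqrt_nonneg _
    calc PI (R * ze θ) (fun θ => Real.sqrt (v θ / b'))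
        ≤ Real.sqrt A * (Real.sqrt (b / b') + Real.sqrt B) := h3
      _ ≤ Real.sqrt A * (Real.sqrt (b / b') + (Real.sqrt ρ + Real.sqrt (e2 θ / b'))) := by
          refine mul_le_mul_of_nonneg_left ?_ hsA0
          linarith
      _ = Real.sqrt A * g + Real.sqrt A * Real.sqrt (e2 θ / b') := by
          rw [hg]
          ring
      _ ≤ (Real.sqrt (y θ / b) + Real.sqrt ((e1 θ + 1) / b)) * g + 1 * Real.sqrt (e2 θ / b') :=
          add_le_add (mul_le_mul_of_nonneg_right hsAa hg0)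
            (mul_le_mul_of_nonneg_right hsA1 hse)
      _ = _ := by ring
  refine (int_mono (continuous_PI hR0 hR1 hvc) (by fun_prop) hpt).trans ?_
  have e1' : ∫ θ, (g * (Real.sqrt (y θ / b) + Real.sqrt ((e1 θ + 1) / b))
      + Real.sqrt (e2 θ / b')) ∂mu = g * (∫ θ, Real.sqrt (y θ / b) ∂mu
        + ∫ θ, Real.sqrt ((e1 θ + 1) / b) ∂mu) + ∫ θ, Real.sqrt (e2 θ / b') ∂mu := by
    rw [int_add (by fun_prop) he2c, integral_const_mul, int_add hyc he1c]
  rw [e1']
  have i1 : ∫ θ, Real.sqrt ((e1 θ + 1) / b) ∂mu ≤ Real.sqrt ((CE + 1) / b) := by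
    refine int_sqrt_le (by fun_prop) (fun θ => ?_) (by positivity) ?_
    · have := he10 θ
      positivity
    · have h5 : ∫ θ, (e1 θ + 1) / b ∂mu = (∫ θ, e1 θ ∂mu + 1) / b := by
        rw [integral_div, int_add he1 continuous_const, int_const]
      rw [h5]
      exact div_le_div_of_nonneg_right (by linarith) hb.le
  have i2 : ∫ θ, Real.sqrt (e2 θ / b') ∂mu ≤ Real.sqrt (C2 / b') := by
    refine int_sqrt_le (by fun_prop) (fun θ => div_nonneg (he20 θ) hb'.le) (by positivity) ?_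
    rw [integral_div]
    exact div_le_div_of_nonneg_right hC2' hb'.le
  have := mul_le_mul_of_nonneg_left i1 hg0
  nlinarith

/-- Contraction, when only the global mean value of `v` is controlled. -/
lemma contr3 {R : ℝ} (hR0 : 0 ≤ R) (hR1 : R < 1) {v y e1 : Ci → ℝ} (hv : Continuous v)
    (hy : Continuous y) (he1 : Continuous e1) (hv0 : ∀ θ, 0 ≤ v θ)
    (hy0 : ∀ θ, 0 ≤ y θ) (he10 : ∀ θ, 0 ≤ e1 θ)
    {b b' CE G : ℝ} (hb : 0 < b) (hb' : 0 < b') (hyb : ∀ θ, y θ ≤ b)
    (h1 : ∀ θ, PI (R * ze θ) (fun θ => min (v θ) b) ≤ y θ + e1 θ + 1)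
    (hG : ∫ θ, v θ ∂mu ≤ G) (hCE : ∫ θ, e1 θ ∂mu ≤ CE) :
    ∫ θ, Real.sqrt (v θ / b') ∂mu ≤ Real.sqrt (b / b')
      * (∫ θ, Real.sqrt (y θ / b) ∂mu + Real.sqrt ((CE + 1) / b))
      + Real.sqrt (∫ θ, Real.sqrt (y θ / b) ∂mu + (CE + 1) / b) * Real.sqrt ((G + 1) / b') := by
  have hCE0 : 0 ≤ CE := le_trans (integral_nonneg he10) hCE
  have hG0 : 0 ≤ G := le_trans (integral_nonneg hv0) hG
  have hvc : Continuous fun θ => Real.sqrt (v θ / b') := (hv.div_const _).sqrt
  have hyc : Continuous fun θ => Real.sqrt (y θ / b) := (hy.div_const _).sqrt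
  have he1c : Continuous fun θ => Real.sqrt ((e1 θ + 1) / b) :=
    ((he1.add continuous_const).div_const _).sqrt
  set g := Real.sqrt (b / b') with hg
  have hg0 : 0 ≤ g := Real.sqrt_nonneg _
  set Zy := ∫ θ, Real.sqrt (y θ / b) ∂mu with hZy
  have hZy0 : 0 ≤ Zy := integral_nonneg fun θ => Real.sqrt_nonneg _
  set a1 := Zy + (CE + 1) / b with ha1
  set b1 := (G + 1) / b' with hb1
  have ha10 : 0 < a1 := by positivity
  have hb10 : 0 < b1 := by positivity
  set sa := Real.sqrt a1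
  set sb := Real.sqrt b1
  have hsa : 0 < sa := Real.sqrt_pos.mpr ha10
  have hsb : 0 < sb := Real.sqrt_pos.mpr hb10
  have hsaa : sa * sa = a1 := Real.mul_self_sqrt ha10.le
  have hsbb : sb * sb = b1 := Real.mul_self_sqrt hb10.le
  rw [← avg_PI hR0 hR1 hvc]
  have hPIc := continuous_PI hR0 hR1 hv
  have hpt : ∀ θ, PI (R * ze θ) (fun θ => Real.sqrt (v θ / b'))
      ≤ g * (Real.sqrt (y θ / b) + Real.sqrt ((e1 θ + 1) / b))
        + (sb / (2 * sa) * ((y θ + e1 θ + 1) / b)
          + sa / (2 * sb) * ((PI (R * ze θ) v + 1) / b')) := by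
    intro θ
    have hw : ‖(R : ℂ) * ze θ‖ < 1 := by rw [R_norm hR0]; exact hR1
    set a := (y θ + e1 θ + 1) / b with ha
    have ha0 : 0 < a := by
      have := hy0 θ
      have := he10 θ
      rw [ha]
      positivity
    set B := (PI (R * ze θ) v + 1) / b' with hB
    have hPv : 0 ≤ PI (R * ze θ) v := PI_nonneg hw hv0
    have hB0 : 0 < B := by
      rw [hB]
      positivity
    have hAb : PI (R * ze θ) (fun θ => min (v θ) b) ≤ a * b := by
      rw [ha, div_mul_cancel₀ _ hb.ne']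
      exact h1 θ
    have hBb : PI (R * ze θ) v ≤ B * b' := by
      rw [hB, div_mul_cancel₀ _ hb'.ne']
      linarith
    have h3 := contr_pt hw hv hv0 hb hb' ha0 hB0 hAb hBb
    have hsAa : Real.sqrt a ≤ Real.sqrt (y θ / b) + Real.sqrt ((e1 θ + 1) / b) := by
      have h4 : a = y θ / b + (e1 θ + 1) / b := by
        rw [ha]
        ring
      rw [h4]
      have := hy0 θ
      have := he10 θ
      exact sqrt_add_le' (by positivity) (by positivity)
    have hAB : Real.sqrt a * Real.sqrt B ≤ sb / (2 * sa) * a + sa / (2 * sb) * B := by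
      have e1 := Real.mul_self_sqrt ha0.le
      have e2 := Real.mul_self_sqrt hB0.le
      have e3 : sb / (2 * sa) * a + sa / (2 * sb) * B
          = (sb * sb * (Real.sqrt a * Real.sqrt a) + sa * sa * (Real.sqrt B * Real.sqrt B))
            / (2 * sa * sb) := by
        rw [e1, e2]
        field_simp
      rw [e3, le_div_iff₀ (by positivity)]
      nlinarith [sq_nonneg (sb * Real.sqrt a - sa * Real.sqrt B)]
    calc PI (R * ze θ) (fun θ => Real.sqrt (v θ / b'))
        ≤ Real.sqrt a * (g + Real.sqrt B) := h3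
      _ = g * Real.sqrt a + Real.sqrt a * Real.sqrt B := by ring
      _ ≤ _ := add_le_add (mul_le_mul_of_nonneg_left hsAa hg0) hAB
  refine (int_mono (continuous_PI hR0 hR1 hvc) (by fun_prop) hpt).trans ?_
  have e1' : ∫ θ, (g * (Real.sqrt (y θ / b) + Real.sqrt ((e1 θ + 1) / b))
        + (sb / (2 * sa) * ((y θ + e1 θ + 1) / b)
          + sa / (2 * sb) * ((PI (R * ze θ) v + 1) / b'))) ∂mu
      = g * (∫ θ, Real.sqrt (y θ / b) ∂mu + ∫ θ, Real.sqrt ((e1 θ + 1) / b) ∂mu)
        + (sb / (2 * sa) * ((∫ θ, y θ ∂mu + ∫ θ, e1 θ ∂mu + 1) / b)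
          + sa / (2 * sb) * ((∫ θ, v θ ∂mu + 1) / b')) := by
    rw [int_add (by fun_prop) (by fun_prop), integral_const_mul, int_add hyc he1c,
      int_add (by fun_prop) (by fun_prop), integral_const_mul, integral_const_mul, integral_div,
      integral_div, int_add (by fun_prop) continuous_const, int_add hy he1, int_const,
      int_add hPIc continuous_const, int_const, avg_PI hR0 hR1 hv]
  rw [e1']
  have i1 : ∫ θ, Real.sqrt ((e1 θ + 1) / b) ∂mu ≤ Real.sqrt ((CE + 1) / b) := by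
    refine int_sqrt_le (by fun_prop) (fun θ => ?_) (by positivity) ?_
    · have := he10 θ
      positivity
    · have h5 : ∫ θ, (e1 θ + 1) / b ∂mu = (∫ θ, e1 θ ∂mu + 1) / b := by
        rw [integral_div, int_add he1 continuous_const, int_const]
      rw [h5]
      exact div_le_div_of_nonneg_right (by linarith) hb.le
  have i2 : (∫ θ, y θ ∂mu + ∫ θ, e1 θ ∂mu + 1) / b ≤ a1 := by
    have h5 : ∫ θ, y θ ∂mu ≤ b * Zy := by
      rw [hZy, ← integral_const_mul]
      refine int_mono hy (by fun_prop) fun θ => ?_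
      have h6 : 0 ≤ y θ / b := div_nonneg (hy0 θ) hb.le
      have h7 : y θ / b ≤ 1 := by
        rw [div_le_one hb]
        exact hyb θ
      have h8 : y θ / b ≤ Real.sqrt (y θ / b) := by
        refine Real.le_sqrt_of_sq_le ?_
        nlinarith
      calc y θ = b * (y θ / b) := by field_simp
        _ ≤ b * Real.sqrt (y θ / b) := mul_le_mul_of_nonneg_left h8 hb.le
    rw [ha1, div_le_iff₀ hb, add_mul, div_mul_cancel₀ _ hb.ne']
    linarith
  have i3 : (∫ θ, v θ ∂mu + 1) / b' ≤ b1 := div_le_div_of_nonneg_right (by linarith) hb'.le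
  have j1 := mul_le_mul_of_nonneg_left i1 hg0
  have j2 := mul_le_mul_of_nonneg_left i2 (show 0 ≤ sb / (2 * sa) by positivity)
  have j3 := mul_le_mul_of_nonneg_left i3 (show 0 ≤ sa / (2 * sb) by positivity)
  have j4 : sb / (2 * sa) * a1 + sa / (2 * sb) * b1 = sa * sb := by
    rw [← hsaa, ← hsbb]
    field_simp
    ring
  rw [mul_add]
  linarith

end

end Pool.Agent.Helper61.HL
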