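import Pool.Agent.Helper61.HL.Rec

/-!
# Dilation, and a uniform estimate for Laurent polynomials
-/

namespace Pool.Agent.Helper61.HL

noncomputable section

open MeasureTheory AddCircle Complex Finset

/-- The gap sequence preceded by `n` powers of two. -/
def mt (m : ℕ → ℕ) (n : ℕ) (i : ℕ) : ℕ := if i < n then 2 ^ i else 2 ^ n * m (i - n)

lemma mt_add (m : ℕ → ℕ) (n j : ℕ) : mt m n (n + j) = 2 ^ n * m j := by
  unfold mt
  rw [if_neg (by omega), show n + j - n = j by omega]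

lemma Lac_mt {q : ℝ} {m : ℕ → ℕ} (h : Lac q m) (hq2 : q ≤ 2) (n : ℕ) : Lac q (mt m n) := by
  refine ⟨h.one_lt, ?_, fun j => ?_⟩
  · unfold mt
    have := h.pos0
    split_ifs with h1
    · positivity
    · rw [Nat.zero_sub]
      exact Nat.mul_pos (by positivity) this
  · unfold mt
    rcases lt_trichotomy (j + 1) n with h1 | h1 | h1
    · rw [if_pos (by omega), if_pos h1]
      push_cast
      rw [pow_succ]
      have : (0 : ℝ) < 2 ^ j := by positivity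
      nlinarith
    · rw [if_pos (by omega), if_neg (by omega), ← h1]
      have h2 : (1 : ℝ) ≤ m 0 := by exact_mod_cast h.pos0
      rw [show j + 1 - (j + 1) = 0 by omega]
      push_cast
      rw [pow_succ]
      have : (0 : ℝ) < 2 ^ j := by positivity
      nlinarith
    · rw [if_neg (by omega), if_neg (by omega), show j + 1 - n = (j - n) + 1 by omega]
      push_cast
      have h2 := h.step (j - n)
      have : (0 : ℝ) < 2 ^ n := by positivity
      nlinarith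

/-- The dilated coefficients. -/
def ct (c : ℤ → ℂ) (n : ℕ) (σ : ℝ) (ν : ℤ) : ℂ :=
  if (2 ^ n : ℤ) ∣ ν then (σ : ℂ) * c (ν / 2 ^ n) else 0

lemma ct_mul (c : ℤ → ℂ) (n : ℕ) (σ : ℝ) (ν : ℤ) : ct c n σ (2 ^ n * ν) = σ * c ν := by
  unfold ct
  rw [if_pos (Dvd.intro _ rfl), Int.mul_ediv_cancel_left _ (by positivity)]

lemma ct_ne {c : ℤ → ℂ} {n : ℕ} {σ : ℝ} {ν : ℤ} (h : ct c n σ ν ≠ 0) :
    ∃ μ, ν = 2 ^ n * μ ∧ c μ ≠ 0 := by
  unfold ct at h
  split_ifs at h with h1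
  · obtain ⟨μ, rfl⟩ := h1
    rw [Int.mul_ediv_cancel_left _ (by positivity)] at h
    exact ⟨μ, rfl, fun h2 => h (by rw [h2, mul_zero])⟩
  · exact absurd rfl h

lemma Sp_ct {m : ℕ → ℕ} {c : ℤ → ℂ} (hc : Sp m c) (n : ℕ) (σ : ℝ) : Sp (mt m n) (ct c n σ) := by
  intro ν hν
  obtain ⟨μ, rfl, hμ⟩ := ct_ne hν
  rcases hc μ hμ with h | ⟨j, hj⟩
  · left
    positivity
  · right
    refine ⟨n + j, ?_⟩
    rw [mt_add, hj]
    push_cast
    ring

/-- The dilated support. -/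
def St (S : Finset ℤ) (n : ℕ) : Finset ℤ := S.image (fun ν => 2 ^ n * ν)

lemma St_inj (n : ℕ) : Function.Injective fun ν : ℤ => 2 ^ n * ν := by
  intro a b h
  exact mul_left_cancel₀ (by positivity) h

lemma E_St (S : Finset ℤ) (c : ℤ → ℂ) (n : ℕ) (σ : ℝ) (z : ℂ) :
    E (St S n) (ct c n σ) z = σ * E S c (z ^ (2 ^ n)) := by
  unfold E St
  rw [Finset.sum_image fun a _ b _ h => St_inj n h, Finset.mul_sum]
  refine Finset.sum_congr rfl fun ν _ => ?_
  rw [ct_mul, mul_assoc]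
  congr 2
  rw [← zpow_natCast z (2 ^ n), ← zpow_mul]
  push_cast
  rfl

lemma sum_St (S : Finset ℤ) (c : ℤ → ℂ) (n : ℕ) {σ : ℝ} (hσ : 0 ≤ σ) :
    ∑ ν ∈ St S n, ‖ct c n σ ν‖ ^ 2 = σ ^ 2 * ∑ ν ∈ S, ‖c ν‖ ^ 2 := by
  unfold St
  rw [Finset.sum_image fun a _ b _ h => St_inj n h, Finset.mul_sum]
  refine Finset.sum_congr rfl fun ν _ => ?_
  rw [ct_mul, norm_mul, Complex.norm_real, Real.norm_of_nonneg hσ, mul_pow]

lemma tl_le_sum {q : ℝ} {m : ℕ → ℕ} (hL : Lac q m) {S : Finset ℤ} {c : ℤ → ℂ}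
    (hS : ∀ n, c n ≠ 0 → n ∈ S) (K j : ℕ) : tl m c K j ≤ ∑ n ∈ S, ‖c n‖ ^ 2 := by
  unfold tl
  have h1 : ∑ i ∈ Icc j K, ‖c (-(m i : ℤ))‖ ^ 2
      = ∑ n ∈ (Icc j K).image (fun i => -(m i : ℤ)), ‖c n‖ ^ 2 := by
    rw [Finset.sum_image]
    intro a _ b _ hab
    exact hL.mono.injective (by simpa using hab)
  rw [h1]
  calc ∑ n ∈ (Icc j K).image (fun i => -(m i : ℤ)), ‖c n‖ ^ 2
      = ∑ n ∈ ((Icc j K).image (fun i => -(m i : ℤ))).filter (· ∈ S), ‖c n‖ ^ 2 := by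
        symm
        refine Finset.sum_subset (Finset.filter_subset _ _) fun n hn hn' => ?_
        have h2 : c n = 0 := by
          by_contra h3
          exact hn' (Finset.mem_filter.mpr ⟨hn, hS n h3⟩)
        rw [h2, norm_zero, zero_pow two_ne_zero]
    _ ≤ ∑ n ∈ S, ‖c n‖ ^ 2 := by
        refine Finset.sum_le_sum_of_subset_of_nonneg (fun n hn => (Finset.mem_filter.mp hn).2)
          fun n _ _ => sq_nonneg _

lemma ze_zsmul (k : ℤ) (θ : Ci) : ze (k • θ) = ze θ ^ k := by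
  simp only [ze]
  rw [fourier_one, fourier_one, AddCircle.toCircle_zsmul, Circle.coe_zpow]

/-- Dilations preserve the distribution. -/
lemma dist_dil (S : Finset ℤ) (c : ℤ → ℂ) (n : ℕ) (x : ℝ) :
    mu.real {θ : Ci | ‖E S c (ze θ ^ (2 ^ n))‖ ^ 2 ≤ x} = mu.real {θ : Ci | ‖E S c (ze θ)‖ ^ 2 ≤ x} := by
  have h2 : ((2 ^ n : ℕ) : ℤ) ≠ 0 := by positivity
  have hmp := Measure.measurePreserving_zsmul (G := Ci) mu h2
  have hset : {θ : Ci | ‖E S c (ze θ ^ (2 ^ n))‖ ^ 2 ≤ x}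
      = (fun θ : Ci => ((2 ^ n : ℕ) : ℤ) • θ) ⁻¹' {θ : Ci | ‖E S c (ze θ)‖ ^ 2 ≤ x} := by
    ext θ
    simp only [Set.mem_preimage, Set.mem_ofPred_eq, ze_zsmul, zpow_natCast]
  have hmeas : MeasurableSet {θ : Ci | ‖E S c (ze θ)‖ ^ 2 ≤ x} :=
    (isClosed_le ((continuous_E S c).norm.pow 2) continuous_const).measurableSet
  rw [hset, Measure.real, Measure.real, hmp.measure_preimage hmeas.nullMeasurableSet]

lemma exists_K {q : ℝ} {m : ℕ → ℕ} (hL : Lac q m) {S : Finset ℤ} {c : ℤ → ℂ}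
    (hS : ∀ n, c n ≠ 0 → n ∈ S) : ∃ K, ∀ n : ℤ, n < -(m K : ℤ) → c n = 0 := by
  refine ⟨S.sup Int.natAbs, fun n hn => ?_⟩
  by_contra h
  have h1 := Finset.le_sup (f := Int.natAbs) (hS n h)
  have h2 := hL.mono.le_apply (x := S.sup Int.natAbs)
  omega

/-- A uniform distribution estimate. -/
theorem unif {q : ℝ} (hq : 1 < q) : ∃ p : ℝ, 0 < p ∧ p ≤ 1 / 12 ∧ ∀ m : ℕ → ℕ, Lac q m →
    ∀ (j0 : ℕ) (α B : ℝ), 0 < α → ∃ C u0 : ℝ, 0 ≤ C ∧ 1 ≤ u0 ∧ ∀ (S : Finset ℤ) (c : ℤ → ℂ),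
      Sp m c → (∀ n, c n ≠ 0 → n ∈ S) → ∑ n ∈ S, ‖c n‖ ^ 2 ≤ B ^ 2 →
      α ≤ ‖c (-(m j0 : ℤ))‖ → ∀ u : ℝ, u0 ≤ u →
      mu.real {θ : Ci | ‖E S c (ze θ)‖ ^ 2 ≤ Real.exp (-(2 * u))} ≤ C * u ^ (-p) := by
  set q' := min q 2 with hq'
  have hq'1 : 1 < q' := lt_min hq (by norm_num)
  have hq'2 : q' ≤ 2 := min_le_right _ _
  obtain ⟨L, hL, hgap⟩ := exists_L hq'1
  obtain ⟨lam, Lam, K0, p, b0, hP⟩ := exists_Par hq'1 hL
  refine ⟨p, hP.hp, hP.hp12, fun m hm j0 α B hα => ?_⟩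
  have hK0 := hP.hK0
  have hp := hP.hp
  have hLam0 : 0 < Lam := by linarith [hP.h_jump2, show (0 : ℝ) < 2 ^ 12 by norm_num]
  have hm' : Lac q' m := ⟨hq'1, hm.pos0, fun j => (mul_le_mul_of_nonneg_right (min_le_left _ _)
    (Nat.cast_nonneg _)).trans (hm.step j)⟩
  -- the number of additional frequencies
  set B' := max (max |B| α) 1 with hB'
  have hB'α : α ≤ B' := (le_max_right _ _).trans (le_max_left _ _)
  have hB'1 : 1 ≤ B' := le_max_right _ _
  have hB'0 : 0 < B' := hα.trans_le hB'α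
  have hBB' : B ^ 2 ≤ B' ^ 2 := by
    rw [← sq_abs B]
    exact pow_le_pow_left₀ (abs_nonneg _) ((le_max_left _ _).trans (le_max_left _ _)) 2
  obtain ⟨n0, hn0⟩ := exists_nat_gt (max (Real.log (B' / α)) b0)
  set n := n0 + 1 with hn
  have hn1 : (n : ℝ) = n0 + 1 := by rw [hn]; push_cast; ring
  have hn0b : b0 ≤ (n0 : ℝ) := (le_max_right _ _).trans hn0.le
  have hn0l : Real.log (B' / α) ≤ (n0 : ℝ) := (le_max_left _ _).trans hn0.le
  have hb16 := hP.hb0
  have hn0sq : (n0 : ℝ) ≤ (n0 : ℝ) ^ 2 := by nlinarith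
  set σ := Real.exp (-((n0 : ℝ) ^ 2)) / B' with hσ
  have hσ0 : 0 < σ := by positivity
  have hlogB : 0 ≤ Real.log (B' / α) := Real.log_nonneg (by
    rw [le_div_iff₀ hα]
    linarith)
  set Cf := 2 * Lam ^ p * ((n : ℝ) ^ 2) ^ p * (1 + K0) with hCf
  have hCf0 : 0 ≤ Cf := by positivity
  refine ⟨Cf, (n : ℝ) ^ 2, hCf0, ?_, fun S c hc hS hnorm hα' u hu => ?_⟩
  · nlinarith
  obtain ⟨K1, hK1⟩ := exists_K hm hS
  have hmt := Lac_mt hm' hq'2 n
  have hj0K : j0 ≤ K1 := by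
    by_contra h
    push Not at h
    have h1 := hm.mono h
    have h2 := hK1 (-(m j0 : ℤ)) (by omega)
    rw [h2, norm_zero] at hα'
    linarith
  have hD : Dat q' (mt m n) (St S n) (ct c n σ) := by
    refine ⟨hmt, Sp_ct hc n σ, fun ν hν => ?_, ?_⟩
    · obtain ⟨μ, rfl, hμ⟩ := ct_ne hν
      exact Finset.mem_image.mpr ⟨μ, hS μ hμ, rfl⟩
    · rw [sum_St S c n hσ0.le]
      calc σ ^ 2 * ∑ ν ∈ S, ‖c ν‖ ^ 2 ≤ σ ^ 2 * B' ^ 2 :=
            mul_le_mul_of_nonneg_left (hnorm.trans hBB') (by positivity)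
        _ = (σ * B') ^ 2 := by ring
        _ ≤ 1 := by
            have h1 : σ * B' = Real.exp (-((n0 : ℝ) ^ 2)) := by
              rw [hσ]
              field_simp
            rw [h1]
            refine pow_le_one₀ (Real.exp_pos _).le ?_
            rw [Real.exp_le_one_iff]
            have : (0 : ℝ) ≤ (n0 : ℝ) ^ 2 := by positivity
            linarith
  have hcK : ∀ ν : ℤ, ν < -(mt m n (n + K1) : ℤ) → ct c n σ ν = 0 := by
    intro ν hν
    by_contra h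
    obtain ⟨μ, rfl, hμ⟩ := ct_ne h
    rw [mt_add] at hν
    push_cast at hν
    have h1 : (2 ^ n : ℤ) * μ < 2 ^ n * (-(m K1 : ℤ)) := by linarith
    have h2 : μ < -(m K1 : ℤ) := lt_of_mul_lt_mul_left h1 (by positivity)
    exact hμ (hK1 μ h2)
  -- the tail at the starting index
  set T := tl (mt m n) (ct c n σ) (n + K1) (n + j0) with hT
  have hTlow : σ ^ 2 * α ^ 2 ≤ T := by
    have h1 : ‖ct c n σ (-(mt m n (n + j0) : ℤ))‖ ^ 2 ≤ T := by
      rw [hT]
      unfold tl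
      exact Finset.single_le_sum (f := fun i => ‖ct c n σ (-(mt m n i : ℤ))‖ ^ 2)
        (fun _ _ => sq_nonneg _) (Finset.mem_Icc.mpr ⟨le_rfl, by omega⟩)
    refine le_trans ?_ h1
    have h2 : (-(mt m n (n + j0) : ℤ)) = 2 ^ n * (-(m j0 : ℤ)) := by
      rw [mt_add]
      push_cast
      ring
    rw [h2, ct_mul, norm_mul, Complex.norm_real, Real.norm_of_nonneg hσ0.le, mul_pow]
    exact mul_le_mul_of_nonneg_left (pow_le_pow_left₀ hα.le hα' 2) (by positivity)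
  have hThigh : T ≤ σ ^ 2 * B' ^ 2 := by
    refine (tl_le_sum hmt hD.supp _ _).trans ?_
    rw [sum_St S c n hσ0.le]
    exact mul_le_mul_of_nonneg_left (hnorm.trans hBB') (by positivity)
  have hT0 : 0 < T := lt_of_lt_of_le (by positivity) hTlow
  set b := -(1 / 2) * Real.log T with hb
  have hexpb : T = Real.exp (-(2 * b)) := by
    rw [hb, show -(2 * (-(1 / 2) * Real.log T)) = Real.log T by ring, Real.exp_log hT0]
  have hblow : (n0 : ℝ) ^ 2 ≤ b := by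
    have h1 : T ≤ Real.exp (-(2 * (n0 : ℝ) ^ 2)) := by
      refine hThigh.trans (le_of_eq ?_)
      have h2 : σ * B' = Real.exp (-((n0 : ℝ) ^ 2)) := by
        rw [hσ]
        field_simp
      rw [← mul_pow, h2, ← Real.exp_nat_mul]
      congr 1
      push_cast
      ring
    rw [hexpb, Real.exp_le_exp] at h1
    linarith
  have hbhigh : b ≤ (n : ℝ) ^ 2 := by
    have h1 : Real.exp (-(2 * ((n0 : ℝ) ^ 2 + Real.log (B' / α)))) ≤ T := by
      refine le_trans (le_of_eq ?_) hTlow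
      have h2 : σ * α = Real.exp (-((n0 : ℝ) ^ 2 + Real.log (B' / α))) := by
        rw [neg_add, Real.exp_add, Real.exp_neg (Real.log _), Real.exp_log (by positivity), hσ]
        field_simp
      rw [← mul_pow, h2, ← Real.exp_nat_mul]
      congr 1
      push_cast
      ring
    rw [hexpb, Real.exp_le_exp] at h1
    rw [hn1]
    nlinarith
  have hbb0 : b0 ≤ b := by linarith
  have hb0' : 0 < b := by linarith
  have hVS : VS (mt m n) (ct c n σ) (n + K1) j0 (n + j0 - 1) b := by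
    refine ⟨by omega, ?_, ?_, ?_⟩
    · rw [show n + j0 - 1 - j0 = n0 by omega]
      exact hblow
    · rw [show n + j0 - 1 + 1 - j0 = n by omega]
      exact hbhigh
    · rw [show n + j0 - 1 + 1 = n + j0 by omega]
      exact hexpb
  have hσ1 : σ ≤ 1 := by
    rw [hσ, div_le_one hB'0]
    refine le_trans ?_ hB'1
    rw [Real.exp_le_one_iff]
    have : (0 : ℝ) ≤ (n0 : ℝ) ^ 2 := by positivity
    linarith
  have hlogσ : Real.log σ ≤ 0 := Real.log_nonpos hσ0.le hσ1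
  have hu0 : 0 < u := by nlinarith
  set u' := u - Real.log σ with hu'
  have huu' : u ≤ u' := by linarith
  have hdist := dist_poly hP (hgap (mt m n) hmt) hD hcK _ j0 (n + j0 - 1) b rfl hVS hbb0 u'
    (by linarith)
  -- the two sets agree
  have hset : mu.real {θ : Ci | ‖E (St S n) (ct c n σ) (ze θ)‖ ^ 2 ≤ Real.exp (-(2 * u'))}
      = mu.real {θ : Ci | ‖E S c (ze θ)‖ ^ 2 ≤ Real.exp (-(2 * u))} := by
    rw [← dist_dil S c n]
    congr 1
    ext θ
    simp only [Set.mem_ofPred_eq]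
    rw [E_St, norm_mul, Complex.norm_real, Real.norm_of_nonneg hσ0.le, mul_pow]
    have h1 : Real.exp (-(2 * u')) = σ ^ 2 * Real.exp (-(2 * u)) := by
      have h2 : σ ^ 2 = Real.exp (2 * Real.log σ) := by
        rw [mul_comm, Real.exp_mul, Real.exp_log hσ0]
        norm_num
      rw [h2, ← Real.exp_add, hu']
      congr 1
      ring
    rw [h1]
    exact mul_le_mul_iff_right₀ (by positivity)
  rw [hset] at hdist
  refine hdist.trans ?_
  have hu'0 : 0 < u' := by linarith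
  have hW : Wt q' (mt m n) (St S n) (ct c n σ) K0 j0 (n + j0 - 1) b ≤ 1 + K0 := by
    unfold Wt
    have h1 := Zs_le_one q' (mt m n) (St S n) (ct c n σ) j0 (n + j0 - 1) hb0'
    have h2 : b ^ (-(1 / 6) : ℝ) ≤ 1 :=
      Real.rpow_le_one_of_one_le_of_nonpos (by linarith) (by norm_num)
    have h3 := mul_le_mul_of_nonneg_left h2 (show 0 ≤ K0 by linarith)
    linarith
  have hub : (u' / b) ^ (-p) ≤ ((n : ℝ) ^ 2) ^ p * u ^ (-p) := by
    rw [Real.rpow_neg (by positivity), Real.rpow_neg hu0.le, Real.div_rpow hu'0.le hb0'.le,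
      inv_div, div_eq_mul_inv]
    refine mul_le_mul (Real.rpow_le_rpow hb0'.le hbhigh hp.le) ?_ (by positivity) (by positivity)
    exact inv_anti₀ (by positivity) (Real.rpow_le_rpow hu0.le huu' hp.le)
  calc 2 * Lam ^ p * (u' / b) ^ (-p) * Wt q' (mt m n) (St S n) (ct c n σ) K0 j0 (n + j0 - 1) b
      ≤ 2 * Lam ^ p * (((n : ℝ) ^ 2) ^ p * u ^ (-p)) * (1 + K0) := by
        refine mul_le_mul (mul_le_mul_of_nonneg_left hub (by positivity)) hW ?_ (by positivity)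
        unfold Wt
        have := Zs_nonneg q' (mt m n) (St S n) (ct c n σ) j0 (n + j0 - 1) b
        positivity
    _ = Cf * u ^ (-p) := by
        rw [hCf]
        ring

end

end Pool.Agent.Helper61.HL
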