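import Pool.Agent.Helper61.HL.Dil

/-!
# Passage to the limit and integrability of the logarithm
-/

namespace Pool.Agent.Helper61.HL

noncomputable section

open MeasureTheory AddCircle Complex Set Filter Topology

lemma inner_fourier (g : Lp ℂ 2 mu) (j : ℤ) :
    innerSL ℂ (fourierLp 2 j : Lp ℂ 2 mu) g = fourierCoeff g j := by
  rw [innerSL_apply_apply, ← fourierBasis_repr, ← coe_fourierBasis, HilbertBasis.repr_apply_apply]

/-- Fourier coefficients outside of the spectrum of a series vanish. -/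
lemma coeff_eq_zero {ι : Type*} {n : ι → ℤ} {b : ι → ℂ} {g : Lp ℂ 2 mu}
    (h : HasSum (fun k => b k • (fourierLp 2 (n k) : Lp ℂ 2 mu)) g) {j : ℤ} (hj : ∀ k, n k ≠ j) :
    fourierCoeff g j = 0 := by
  have h1 := h.mapL (innerSL ℂ (fourierLp 2 j : Lp ℂ 2 mu))
  rw [inner_fourier] at h1
  have h2 : ∀ k, (innerSL ℂ (fourierLp 2 j : Lp ℂ 2 mu))
      (b k • (fourierLp 2 (n k) : Lp ℂ 2 mu)) = 0 := by
    intro k
    rw [map_smul, innerSL_apply_apply]
    have := orthonormal_iff_ite.mp (orthonormal_fourier (T := 1)) j (n k)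
    rw [if_neg (Ne.symm (hj k))] at this
    rw [this, smul_zero]
  simp only [h2] at h1
  exact h1.unique hasSum_zero

lemma tendsto_Icc {a b : ℕ → ℤ} (ha : Tendsto a atTop atBot) (hb : Tendsto b atTop atTop) :
    Tendsto (fun N => Finset.Icc (a N) (b N)) atTop atTop := by
  rw [tendsto_atTop]
  intro s
  obtain ⟨l, hl⟩ := s.bddBelow
  obtain ⟨u, hu⟩ := s.bddAbove
  filter_upwards [ha.eventually_le_atBot l, hb.eventually_ge_atTop u] with N h1 h2
  intro x hx
  exact Finset.mem_Icc.mpr ⟨h1.trans (hl hx), (hu hx).trans h2⟩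

lemma trunc_tendsto (g : Lp ℂ 2 mu) :
    Tendsto (fun N : ℕ => ∫ θ, ‖E (Finset.Icc (-(N : ℤ)) N) (fourierCoeff g) (ze θ) - g θ‖ ∂mu)
      atTop (𝓝 0) := by
  have h := hasSum_fourier_series_L2 g
  have hb : Tendsto (fun N : ℕ => (N : ℤ)) atTop atTop := tendsto_natCast_atTop_atTop
  have h2 := h.comp (tendsto_Icc (tendsto_neg_atTop_atBot.comp hb) hb)
  rw [tendsto_iff_norm_sub_tendsto_zero] at h2
  refine squeeze_zero (fun _ => integral_nonneg fun _ => norm_nonneg _) (fun N => ?_) h2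
  set F : Lp ℂ 2 mu := ∑ i ∈ Finset.Icc (-(N : ℤ)) N, fourierCoeff g i • fourierLp 2 i with hF
  have hcoe : (F : Ci → ℂ) =ᵐ[mu]
      fun θ => E (Finset.Icc (-(N : ℤ)) N) (fourierCoeff g) (ze θ) := by
    have h3 : F = ContinuousMap.toLp (E := ℂ) 2 mu ℂ
        (∑ i ∈ Finset.Icc (-(N : ℤ)) N, fourierCoeff g i • fourier i) := by
      rw [hF, map_sum]
      refine Finset.sum_congr rfl fun i _ => ?_
      rw [map_smul]
    rw [h3]
    refine (ContinuousMap.coeFn_toLp mu _).trans (Filter.Eventually.of_forall fun θ => ?_)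
    simp only [ContinuousMap.coe_sum, Finset.sum_apply, ContinuousMap.smul_apply, smul_eq_mul,
      fourier_eq, E]
  have hsub : (fun θ => E (Finset.Icc (-(N : ℤ)) N) (fourierCoeff g) (ze θ) - g θ)
      =ᵐ[mu] (F - g : Lp ℂ 2 mu) := by
    filter_upwards [hcoe, Lp.coeFn_sub F g] with θ h4 h5
    rw [h5, Pi.sub_apply, h4]
  calc ∫ θ, ‖E (Finset.Icc (-(N : ℤ)) N) (fourierCoeff g) (ze θ) - g θ‖ ∂mu
      = ∫ θ, ‖(F - g : Lp ℂ 2 mu) θ‖ ∂mu := by
        refine integral_congr_ae ?_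
        filter_upwards [hsub] with θ h4
        rw [h4]
    _ = (eLpNorm (F - g : Lp ℂ 2 mu) 1 mu).toReal := by
        rw [integral_norm_eq_lintegral_enorm (Lp.aestronglyMeasurable _), eLpNorm_one_eq_lintegral_enorm]
    _ ≤ (eLpNorm (F - g : Lp ℂ 2 mu) 2 mu).toReal := by
        refine ENNReal.toReal_mono (Lp.eLpNorm_ne_top _) ?_
        exact eLpNorm_le_eLpNorm_of_exponent_le (by norm_num) (Lp.aestronglyMeasurable _)
    _ = ‖F - g‖ := (Lp.norm_def _).symm

lemma sum_coeff_le (g : Lp ℂ 2 mu) (s : Finset ℤ) :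
    ∑ i ∈ s, ‖fourierCoeff g i‖ ^ 2 ≤ ∫ θ, ‖g θ‖ ^ 2 ∂mu :=
  sum_le_hasSum s (fun _ _ => sq_nonneg _) (hasSum_sq_fourierCoeff g)

/-- Distribution estimate for an `L²` function. -/
theorem dist_lp {q : ℝ} (hq : 1 < q) : ∃ p : ℝ, 0 < p ∧ p ≤ 1 / 12 ∧ ∀ m : ℕ → ℕ, Lac q m →
    ∀ (g : Lp ℂ 2 mu) (t : ℤ) (j0 : ℕ), Sp m (fun ν => fourierCoeff g (ν + t)) →
      fourierCoeff g (-(m j0 : ℤ) + t) ≠ 0 → ∃ C u0 : ℝ, 0 ≤ C ∧ 1 ≤ u0 ∧ ∀ u : ℝ, u0 ≤ u →
      mu.real {θ : Ci | ‖g θ‖ ≤ Real.exp (-u) / 2} ≤ C * u ^ (-p) := by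
  obtain ⟨p, hp, hp12, hmain⟩ := unif hq
  refine ⟨p, hp, hp12, fun m hm g t j0 hSp hne => ?_⟩
  set α := ‖fourierCoeff g (-(m j0 : ℤ) + t)‖ with hα
  have hα0 : 0 < α := norm_pos_iff.mpr hne
  set B := Real.sqrt (∫ θ, ‖g θ‖ ^ 2 ∂mu) with hB
  have hI0 : 0 ≤ ∫ θ, ‖g θ‖ ^ 2 ∂mu := integral_nonneg fun _ => sq_nonneg _
  have hB2 : B ^ 2 = ∫ θ, ‖g θ‖ ^ 2 ∂mu := Real.sq_sqrt hI0
  obtain ⟨C, u0, hC, hu0, hunif⟩ := hmain m hm j0 α B hα0
  refine ⟨C, u0, hC, hu0, fun u hu => ?_⟩
  have hexp := Real.exp_pos (-u)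
  -- estimates for the partial sums
  set G : ℕ → Ci → ℂ := fun N θ => E (Finset.Icc (-(N : ℤ)) N) (fourierCoeff g) (ze θ) with hG
  have hGc : ∀ N, Continuous (G N) := fun N => continuous_E _ _
  have hpart : ∀ᶠ N : ℕ in atTop, mu.real {θ : Ci | ‖G N θ‖ ≤ Real.exp (-u)} ≤ C * u ^ (-p) := by
    filter_upwards [eventually_ge_atTop (m j0 + t.natAbs)] with N hN
    set S := Finset.Icc (-(N : ℤ) - t) (N - t) with hS
    set c : ℤ → ℂ := fun ν => if ν ∈ S then fourierCoeff g (ν + t) else 0 with hc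
    have hcS : ∀ n, c n ≠ 0 → n ∈ S := by
      intro n hn
      by_contra h
      exact hn (by simp only [hc]; rw [if_neg h])
    have hcSp : Sp m c := by
      intro n hn
      refine hSp n ?_
      intro h
      refine hn ?_
      simp only [hc]
      split_ifs
      · exact h
      · rfl
    have hcn : ∑ n ∈ S, ‖c n‖ ^ 2 ≤ B ^ 2 := by
      rw [hB2]
      have h1 : ∑ n ∈ S, ‖c n‖ ^ 2 = ∑ n ∈ S.image (fun ν => ν + t), ‖fourierCoeff g n‖ ^ 2 := by
        rw [Finset.sum_image fun a _ b _ hab => add_right_cancel hab]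
        refine Finset.sum_congr rfl fun n hn => ?_
        simp only [hc]
        rw [if_pos hn]
      rw [h1]
      exact sum_coeff_le g _
    have hcα : α ≤ ‖c (-(m j0 : ℤ))‖ := by
      have : -(m j0 : ℤ) ∈ S := by
        rw [hS, Finset.mem_Icc]
        constructor <;> omega
      simp only [hc]
      rw [if_pos this]
    have h1 := hunif S c hcSp hcS hcn hcα u hu
    have hset : {θ : Ci | ‖G N θ‖ ≤ Real.exp (-u)}
        = {θ : Ci | ‖E S c (ze θ)‖ ^ 2 ≤ Real.exp (-(2 * u))} := by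
      ext θ
      simp only [Set.mem_ofPred_eq]
      have h2 : ‖E S c (ze θ)‖ = ‖G N θ‖ := by
        have h3 : G N θ = ze θ ^ t * E S c (ze θ) := by
          simp only [hG, E]
          rw [Finset.mul_sum]
          refine Finset.sum_bij' (fun n _ => n - t) (fun n _ => n + t) ?_ ?_ ?_ ?_ ?_
          · intro n hn
            rw [Finset.mem_Icc] at hn
            rw [hS, Finset.mem_Icc]
            omega
          · intro n hn
            rw [hS, Finset.mem_Icc] at hn
            rw [Finset.mem_Icc]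
            omega
          · intro n _
            omega
          · intro n _
            omega
          · intro n hn
            have h4 : n - t ∈ S := by
              rw [Finset.mem_Icc] at hn
              rw [hS, Finset.mem_Icc]
              omega
            simp only [hc]
            rw [if_pos h4, sub_add_cancel, mul_left_comm, ← zpow_add₀ (ze_ne θ)]
            congr 2
            omega
        rw [h3, norm_mul, norm_zpow, norm_ze, one_zpow, one_mul]
      rw [h2]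
      have h3 : Real.exp (-(2 * u)) = Real.exp (-u) ^ 2 := by
        rw [← Real.exp_nat_mul]
        congr 1
        push_cast
        ring
      rw [h3]
      exact (pow_le_pow_iff_left₀ (norm_nonneg _) hexp.le two_ne_zero).symm
    rw [hset]
    exact h1
  have hgi : Integrable (g : Ci → ℂ) mu := (Lp.memLp g).integrable (by norm_num)
  have hlim := (trunc_tendsto g).mul_const (2 / Real.exp (-u))
  rw [zero_mul] at hlim
  have hlim2 : Tendsto (fun N : ℕ => C * u ^ (-p)
      + (∫ θ, ‖G N θ - g θ‖ ∂mu) * (2 / Real.exp (-u))) atTop (𝓝 (C * u ^ (-p) + 0)) :=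
    hlim.const_add _
  rw [add_zero] at hlim2
  refine ge_of_tendsto hlim2 ?_
  filter_upwards [hpart] with N hN
  have hsub : {θ : Ci | ‖g θ‖ ≤ Real.exp (-u) / 2}
      ⊆ {θ : Ci | ‖G N θ‖ ≤ Real.exp (-u)} ∪ {θ : Ci | Real.exp (-u) / 2 ≤ ‖G N θ - g θ‖} := by
    intro θ hθ
    simp only [Set.mem_ofPred_eq, Set.mem_union] at hθ ⊢
    by_contra h
    push Not at h
    have h1 := norm_add_le (g θ) (G N θ - g θ)
    rw [add_sub_cancel] at h1
    linarith [h.1, h.2]
  have hmark := mul_meas_ge_le_integral_of_nonneg (μ := mu) (f := fun θ => ‖G N θ - g θ‖)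
    (Filter.Eventually.of_forall fun θ => norm_nonneg _)
    ((integrable_of_cont (hGc N)).sub hgi).norm (Real.exp (-u) / 2)
  calc mu.real {θ : Ci | ‖g θ‖ ≤ Real.exp (-u) / 2}
      ≤ mu.real ({θ : Ci | ‖G N θ‖ ≤ Real.exp (-u)}
          ∪ {θ : Ci | Real.exp (-u) / 2 ≤ ‖G N θ - g θ‖}) := measureReal_mono hsub
    _ ≤ mu.real {θ : Ci | ‖G N θ‖ ≤ Real.exp (-u)}
          + mu.real {θ : Ci | Real.exp (-u) / 2 ≤ ‖G N θ - g θ‖} := measureReal_union_le _ _
    _ ≤ C * u ^ (-p) + (∫ θ, ‖G N θ - g θ‖ ∂mu) * (2 / Real.exp (-u)) := by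
        refine add_le_add hN ?_
        rw [mul_div_assoc', le_div_iff₀ hexp]
        linarith

/-- Reduction to a lacunary spectrum with a nonvanishing negative coefficient. -/
lemma reduction {q : ℝ} (hq : 1 < q) (n : ℕ → ℤ) (hneg : ∀ k, n k < 0)
    (hlac : ∀ᶠ k in atTop, q ≤ (n (k + 1) : ℝ) / (n k : ℝ)) (g : Lp ℂ 2 mu)
    (hc : ∀ j : ℤ, j < 0 → (∀ k, n k ≠ j) → fourierCoeff g j = 0) (hg : g ≠ 0) :
    ∃ (m : ℕ → ℕ) (t : ℤ) (j0 : ℕ), Lac q m ∧ Sp m (fun ν => fourierCoeff g (ν + t)) ∧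
      fourierCoeff g (-(m j0 : ℤ) + t) ≠ 0 := by
  classical
  obtain ⟨K1, hK1⟩ := eventually_atTop.mp hlac
  set p : ℕ → ℕ := fun k => (n k).natAbs with hp
  have hpn : ∀ k, n k = -(p k : ℤ) := fun k => by
    have := hneg k
    simp only [hp]
    omega
  have hp0 : ∀ k, 0 < p k := fun k => by
    have := hneg k
    simp only [hp]
    omega
  have hpq : ∀ k, K1 ≤ k → q * p k ≤ p (k + 1) := by
    intro k hk
    have h1 := hK1 k hk
    rw [hpn, hpn] at h1
    push_cast at h1
    rw [neg_div_neg_eq, le_div_iff₀ (by exact_mod_cast hp0 k)] at h1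
    exact h1
  have hplt : ∀ k, K1 ≤ k → p k < p (k + 1) := by
    intro k hk
    have h1 := hpq k hk
    have h2 : (0 : ℝ) < p k := by exact_mod_cast hp0 k
    have h3 : (p k : ℝ) < p (k + 1) := by nlinarith
    exact_mod_cast h3
  have hps : StrictMono fun i => p (K1 + i) :=
    strictMono_nat_of_lt_succ fun i => hplt (K1 + i) (by omega)
  obtain ⟨b, hb⟩ : ∃ b, ∀ i, i < K1 → p i < b := by
    refine ⟨(Finset.range K1).sup p + 1, fun i hi => ?_⟩
    exact Nat.lt_succ_of_le (Finset.le_sup (f := p) (Finset.mem_range.mpr hi))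
  set k1 := K1 + b with hk1
  have hb1 : b ≤ p k1 := hps.le_apply
  set m : ℕ → ℕ := fun j => p (k1 + j) with hm
  have hms : StrictMono m := strictMono_nat_of_lt_succ fun i => hplt (k1 + i) (by omega)
  have hmq : ∀ j, q * m j ≤ m (j + 1) := fun j => hpq (k1 + j) (by omega)
  have hbefore : ∀ i, i < k1 → p i < m 0 := by
    intro i hi
    by_cases h : i < K1
    · exact (hb i h).trans_le hb1
    · have := hps (show i - K1 < b by omega)
      simp only at this
      rwa [show K1 + (i - K1) = i by omega] at this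
  -- the shifted sequence
  set m' : ℕ → ℕ := fun j => m (j + 1) - m 0 with hm'
  have hm0lt : ∀ j, m 0 < m (j + 1) := fun j => hms (Nat.succ_pos j)
  have hL' : Lac q m' := by
    refine ⟨hq, ?_, fun j => ?_⟩
    · have := hm0lt 0
      simp only [hm']
      omega
    · have h1 := hm0lt j
      have h2 := hm0lt (j + 1)
      have h3 := hmq (j + 1)
      simp only [hm']
      rw [Nat.cast_sub h1.le, Nat.cast_sub h2.le]
      have h4 : (0 : ℝ) ≤ m 0 := Nat.cast_nonneg _
      nlinarith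
  have hSp' : Sp m' (fun ν => fourierCoeff g (ν + -(m 0 : ℤ))) := by
    intro ν hν
    simp only at hν
    by_cases h : 0 ≤ ν + -(m 0 : ℤ)
    · left
      omega
    · push Not at h
      have h1 : ∃ k, n k = ν + -(m 0 : ℤ) := by
        by_contra h2
        push Not at h2
        exact hν (hc _ h h2)
      obtain ⟨k, hk⟩ := h1
      rw [hpn] at hk
      rcases Nat.lt_or_ge k k1 with h2 | h2
      · left
        have := hbefore k h2
        omega
      · have h3 : p k = m (k - k1) := by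
          simp only [hm]
          rw [show k1 + (k - k1) = k by omega]
        rcases Nat.eq_zero_or_pos (k - k1) with h4 | h4
        · left
          rw [h4] at h3
          omega
        · right
          refine ⟨k - k1 - 1, ?_⟩
          have h5 := hm0lt (k - k1 - 1)
          simp only [hm']
          rw [show k - k1 - 1 + 1 = k - k1 by omega] at h5 ⊢
          omega
  by_cases hA : ∃ j0, fourierCoeff g (-(m' j0 : ℤ) + -(m 0 : ℤ)) ≠ 0
  · obtain ⟨j0, hj0⟩ := hA
    exact ⟨m', -(m 0 : ℤ), j0, hL', hSp', hj0⟩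
  push Not at hA
  -- no negative frequency remains: shift to the lowest one
  have hex : ∃ ν : ℕ, fourierCoeff g ((ν : ℤ) + -(m 0 : ℤ)) ≠ 0 := by
    by_contra h
    push Not at h
    refine hg ?_
    have hz : ∀ i, fourierCoeff g i = 0 := by
      intro i
      by_contra hi
      have h1 : fourierCoeff g ((i + m 0) + -(m 0 : ℤ)) ≠ 0 := by
        rwa [add_neg_cancel_right]
      rcases hSp' (i + m 0) h1 with h2 | ⟨j, hj⟩
      · have h3 := h (i + m 0).toNat
        rw [Int.toNat_of_nonneg h2] at h3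
        exact h1 h3
      · rw [hj] at h1
        exact h1 (hA j)
    have h1 := hasSum_fourier_series_L2 g
    simp only [hz, zero_smul] at h1
    exact h1.unique hasSum_zero
  set ν0 := Nat.find hex with hν0
  have hν0' := Nat.find_spec hex
  rw [← hν0] at hν0'
  have hmin : ∀ ν : ℕ, ν < ν0 → fourierCoeff g ((ν : ℤ) + -(m 0 : ℤ)) = 0 := by
    intro ν hν
    by_contra h
    exact Nat.find_min hex hν h
  have hceil : (q : ℝ) ≤ ⌈q⌉₊ := Nat.le_ceil q
  have hceil0 : 0 < ⌈q⌉₊ := Nat.ceil_pos.mpr (by linarith)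
  refine ⟨fun j => ⌈q⌉₊ ^ j, (ν0 : ℤ) + 1 + -(m 0 : ℤ), 0, ⟨hq, by simp, fun j => ?_⟩, ?_, ?_⟩
  · push_cast
    rw [pow_succ, mul_comm]
    exact mul_le_mul_of_nonneg_left hceil (by positivity)
  · intro ν hν
    simp only at hν
    by_cases h : 0 ≤ ν
    · exact Or.inl h
    · push Not at h
      right
      refine ⟨0, ?_⟩
      simp only [pow_zero, Nat.cast_one]
      by_contra hne
      have h1 : ν ≤ -2 := by omega
      refine hν ?_
      have h2 : ν + ((ν0 : ℤ) + 1 + -(m 0 : ℤ)) = (ν + ν0 + 1) + -(m 0 : ℤ) := by ring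
      rw [h2]
      by_contra h3
      rcases hSp' (ν + ν0 + 1) h3 with h4 | ⟨j, hj⟩
      · have h5 := hmin (ν + ν0 + 1).toNat (by omega)
        rw [Int.toNat_of_nonneg h4] at h5
        exact h3 h5
      · rw [hj] at h3
        exact h3 (hA j)
  · simp only [pow_zero, Nat.cast_one]
    have h2 : (-1 : ℤ) + ((ν0 : ℤ) + 1 + -(m 0 : ℤ)) = (ν0 : ℤ) + -(m 0 : ℤ) := by ring
    rw [h2]
    exact hν0'

end

end Pool.Agent.Helper61.HL
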