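import Pool.Agent.Helper61.HL.StepA
import Pool.Agent.Helper61.HL.Alg

/-!
# Lower bounds for averages of the truncated logarithm coming from spectral gaps
-/

namespace Pool.Agent.Helper61.HL

noncomputable section

open MeasureTheory AddCircle Complex Finset

lemma continuous_ev_ze (f : ℤ →₀ ℂ) : Continuous fun θ : Ci => ev f (ze θ) := by
  simp only [ev_eq_sum, Finsupp.sum]
  refine continuous_finsetSum _ fun n _ => continuous_const.mul ?_
  have : (fun θ => ze θ ^ n) = fun θ => (fourier n θ : ℂ) := by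
    ext θ
    rw [fourier_eq]
  rw [this]
  exact (fourier n).continuous

lemma differentiable_ev {f : ℤ →₀ ℂ} (hf : ∀ n : ℤ, n < 0 → f n = 0) :
    Differentiable ℂ (ev f) := by
  have : ev f = fun z => ∑ n ∈ f.support, f n * z ^ n := by
    ext z
    rw [ev_eq_sum, Finsupp.sum]
  rw [this]
  refine Differentiable.fun_sum fun n hn => (Differentiable.const_mul ?_ _)
  have hn0 : 0 ≤ n := by
    by_contra h
    exact (Finsupp.mem_support_iff.mp hn) (hf n (by omega))
  lift n to ℕ using hn0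
  simp only [zpow_natCast]
  exact differentiable_id.pow n

/-- The value at `w` of a polynomial with a spectral gap is close to its constant term. -/
lemma gap_bound {f : ℤ →₀ ℂ} {t : ℂ} {M : ℕ} (hf : ∀ n : ℤ, n < 0 → f n = 0) (hf0 : f 0 = t)
    (hfM : ∀ n : ℤ, 0 < n → n < M → f n = 0) {w : ℂ} (hw : ‖w‖ < 1) (hw0 : w ≠ 0)
    {b : Ci → ℝ} (hb : Continuous b) (hfb : ∀ θ, ‖ev f (ze θ)‖ ≤ b θ) :
    ‖ev f w - t‖ ≤ ‖w‖ ^ M * (PI w b + ‖t‖) := by
  set h : ℤ →₀ ℂ := sh (-(M : ℤ)) (f - Finsupp.single 0 (t : ℂ)) with hh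
  have hneg : ∀ n : ℤ, n < 0 → h n = 0 := by
    intro n hn
    rw [hh, sh_apply, Finsupp.sub_apply, sub_neg_eq_add, Finsupp.single_apply]
    split_ifs with h1
    · rw [← h1, hf0, sub_self]
    · rw [sub_zero]
      rcases lt_trichotomy (n + M) 0 with h2 | h2 | h2
      · exact hf _ h2
      · exact absurd h2.symm h1
      · exact hfM _ h2 (by omega)
  have hev : ∀ z : ℂ, z ≠ 0 → ev f z - t = z ^ M * ev h z := by
    intro z hz
    rw [hh, ev_sh _ _ hz, ev_sub, ev_single, zpow_zero, mul_one, ← mul_assoc, ← zpow_natCast,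
      ← zpow_add₀ hz, add_neg_cancel, zpow_zero, one_mul]
  rw [hev w hw0, norm_mul, norm_pow]
  refine mul_le_mul_of_nonneg_left ?_ (by positivity)
  refine (norm_poisson_le (differentiable_ev hneg) hw).trans ?_
  have h1 : PI w (fun θ => ‖ev h (ze θ)‖) ≤ PI w (fun θ => b θ + ‖t‖) := by
    refine PI_mono hw (continuous_ev_ze h).norm (hb.add continuous_const) fun θ => ?_
    have h1 : ‖ev h (ze θ)‖ = ‖ev f (ze θ) - t‖ := by
      rw [hev _ (ze_ne θ), norm_mul, norm_pow, norm_ze, one_pow, one_mul]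
    rw [h1]
    exact (norm_sub_le _ _).trans (add_le_add (hfb θ) le_rfl)
  rw [PI_add hw hb continuous_const, PI_const hw] at h1
  exact h1

/-- The consequence of a spectral gap for the averages of the truncated logarithm. -/
lemma gapJ {f : ℤ →₀ ℂ} {t : ℂ} {M : ℕ} (hf : ∀ n : ℤ, n < 0 → f n = 0) (hf0 : f 0 = t)
    (hfM : ∀ n : ℤ, 0 < n → n < M → f n = 0) {x : ℝ} (hx : 0 < x) {w : ℂ}
    (hw : ‖w‖ = Real.exp (-x)) {X : Ci → ℝ} (hXc : Continuous X) (hX0 : ∀ θ, 0 ≤ X θ)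
    {L u γ : ℝ} (hL : 1 ≤ L) (hu : 0 ≤ u)
    (hfX : ∀ θ, ‖ev f (ze θ)‖ ^ 2 ≤ L * (Real.exp (-(2 * u)) + X θ)) (hγ0 : 0 ≤ γ) (hγu : γ ≤ u)
    (ht : Real.exp (-γ) ≤ ‖t‖) (hM : 2 * u + 2 ≤ M * x) :
    PI w (fun θ => yb u (X θ)) ≤ γ + 1 + Real.log L + PI w (fun θ => 1 / 2 * Real.log (1 + X θ))
      + Real.log (1 + PI w X) := by
  have hw1 : ‖w‖ < 1 := by
    rw [hw, Real.exp_lt_one_iff]
    linarith
  have hw0 : w ≠ 0 := by
    rw [← norm_pos_iff, hw]
    exact Real.exp_pos _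
  have hLdc := continuous_Ld (b := u) hXc hX0
  have hlXc := continuous_log1 hXc hX0
  have hyc := continuous_yb (b := u) hXc hX0
  have hIX0 : 0 ≤ PI w (fun θ => 1 / 2 * Real.log (1 + X θ)) := PI_nonneg hw1 fun θ => by
    have := hX0 θ
    have := Real.log_nonneg (show 1 ≤ 1 + X θ by linarith)
    linarith
  have hN0 : 0 ≤ PI w X := PI_nonneg hw1 hX0
  have hlogL : 0 ≤ Real.log L := Real.log_nonneg hL
  have hlogN : 0 ≤ Real.log (1 + PI w X) := Real.log_nonneg (by linarith)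
  have hL0 : 0 < L := by linarith
  by_cases hbig : L * (1 + PI w X) ≤ Real.exp u
  · have hgb := gap_bound hf hf0 hfM hw1 hw0 (b := fun θ => L * (1 + X θ))
      (by fun_prop) (fun θ => by
        have h1 := hfX θ
        have h2 : Real.exp (-(2 * u)) ≤ 1 := by
          rw [Real.exp_le_one_iff]
          linarith
        have h3 : ‖ev f (ze θ)‖ ^ 2 ≤ L * (1 + X θ) :=
          h1.trans (mul_le_mul_of_nonneg_left (by linarith) hL0.le)
        have h4 : 1 ≤ L * (1 + X θ) := by nlinarith [hX0 θ]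
        nlinarith [sq_nonneg (‖ev f (ze θ)‖ - 1), norm_nonneg (ev f (ze θ))])
    have hPI : PI w (fun θ => L * (1 + X θ)) = L * (1 + PI w X) := by
      rw [PI_smul, PI_add hw1 continuous_const hXc, PI_const hw1]
    rw [hPI] at hgb
    have hwM : ‖w‖ ^ M ≤ Real.exp (-u) * Real.exp (-u) * Real.exp (-2) := by
      rw [hw, ← Real.exp_nat_mul, ← Real.exp_add, ← Real.exp_add, Real.exp_le_exp]
      linarith
    have he2 : Real.exp (-2) ≤ 1 / 4 := by
      have h1 := Real.add_one_le_exp (1 : ℝ)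
      have h2 : Real.exp 2 = Real.exp 1 * Real.exp 1 := by rw [← Real.exp_add]; norm_num
      have h3 : 4 ≤ Real.exp 2 := by nlinarith
      rw [Real.exp_neg, inv_le_comm₀ (Real.exp_pos _) (by norm_num)]
      linarith
    have hut : Real.exp (-u) ≤ ‖t‖ := by
      refine le_trans ?_ ht
      rw [Real.exp_le_exp]
      linarith
    have heu : Real.exp (-u) * Real.exp u = 1 := by
      rw [← Real.exp_add, neg_add_cancel, Real.exp_zero]
    have heu1 : Real.exp (-u) ≤ 1 := by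
      rw [Real.exp_le_one_iff]
      linarith
    have hclose : ‖ev f w - t‖ ≤ ‖t‖ / 2 := by
      have h0 := Real.exp_pos (-u)
      have h0' := norm_nonneg t
      calc ‖ev f w - t‖ ≤ ‖w‖ ^ M * (L * (1 + PI w X) + ‖t‖) := hgb
        _ ≤ (Real.exp (-u) * Real.exp (-u) * (1 / 4)) * (Real.exp u + ‖t‖) := by
            refine mul_le_mul (hwM.trans ?_) (by linarith) (by positivity) (by positivity)
            exact mul_le_mul_of_nonneg_left he2 (by positivity)
        _ = (Real.exp (-u) * (Real.exp (-u) * Real.exp u)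
            + Real.exp (-u) * Real.exp (-u) * ‖t‖) / 4 := by ring
        _ ≤ (‖t‖ + 1 * 1 * ‖t‖) / 4 := by
            rw [heu, mul_one]
            have h1 : Real.exp (-u) * Real.exp (-u) * ‖t‖ ≤ 1 * 1 * ‖t‖ := by
              refine mul_le_mul_of_nonneg_right ?_ h0'
              exact mul_le_mul heu1 heu1 h0.le zero_le_one
            linarith
        _ = ‖t‖ / 2 := by ring
    have hlow : ‖t‖ / 2 ≤ ‖ev f w‖ := by
      have h1 := norm_sub_norm_le t (t - ev f w)
      rw [sub_sub_cancel, norm_sub_rev] at h1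
      linarith
    have hj := jensen (differentiable_ev hf) (v := fun θ => L * (Real.exp (-(2 * u)) + X θ))
      (by fun_prop) (fun θ => by
        have := hX0 θ
        positivity) hfX hw1
    have hint : ∫ θ, P w θ * Real.log (L * (Real.exp (-(2 * u)) + X θ)) ∂mu
        = Real.log L + 2 * PI w (fun θ => Ld u (X θ)) := by
      have h1 : ∀ θ, Real.log (L * (Real.exp (-(2 * u)) + X θ)) = Real.log L + 2 * Ld u (X θ) := by
        intro θ
        have := hX0 θ
        have := Real.exp_pos (-(2 * u))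
        rw [Real.log_mul hL0.ne' (by linarith)]
        unfold Ld
        ring
      simp only [h1]
      have h2 := PI_add hw1 (U := fun _ => Real.log L) (V := fun θ => 2 * Ld u (X θ))
        continuous_const (continuous_const.mul hLdc)
      rw [PI_const hw1, PI_smul] at h2
      exact h2
    rw [hint] at hj
    have hpos : 0 < ‖t‖ := (Real.exp_pos _).trans_le ht
    have h2 : (‖t‖ / 2) ^ 2 ≤ Real.exp (Real.log L + 2 * PI w (fun θ => Ld u (X θ))) :=
      (pow_le_pow_left₀ (by positivity) hlow 2).trans hj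
    have h3 : 2 * Real.log (‖t‖ / 2) ≤ Real.log L + 2 * PI w (fun θ => Ld u (X θ)) := by
      have := Real.log_le_log (by positivity) h2
      rw [Real.log_exp, Real.log_pow] at this
      exact_mod_cast this
    rw [Real.log_div hpos.ne' two_ne_zero] at h3
    have h4 : -γ ≤ Real.log ‖t‖ := by
      have := Real.log_le_log (Real.exp_pos _) ht
      rwa [Real.log_exp] at this
    have hyle : PI w (fun θ => yb u (X θ)) ≤ PI w (fun θ => -1 * Ld u (X θ)
        + 1 / 2 * Real.log (1 + X θ)) :=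
      PI_mono hw1 hyc ((continuous_const.mul hLdc).add hlXc) fun θ => by
        have := yb_le' hu (hX0 θ)
        linarith
    have hadd := PI_add hw1 (U := fun θ => -1 * Ld u (X θ))
      (V := fun θ => 1 / 2 * Real.log (1 + X θ)) (continuous_const.mul hLdc) hlXc
    rw [hadd, PI_smul] at hyle
    have hl2 := log_two_le
    linarith
  · push Not at hbig
    have h1 : PI w (fun θ => yb u (X θ)) ≤ u :=
      PI_le_of_le hw1 hyc fun θ => yb_le hu (hX0 θ)
    have h2 : u ≤ Real.log L + Real.log (1 + PI w X) := by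
      rw [← Real.log_mul hL0.ne' (by linarith)]
      have := Real.log_le_log (Real.exp_pos u) hbig.le
      rwa [Real.log_exp] at this
    linarith

/-- The finitely supported function with values `d` on `S`. -/
def toF (S : Finset ℤ) (d : ℤ → ℂ) : ℤ →₀ ℂ := ∑ n ∈ S, Finsupp.single n (d n)

lemma toF_apply {S : Finset ℤ} {d : ℤ → ℂ} (hS : ∀ n, d n ≠ 0 → n ∈ S) (n : ℤ) :
    toF S d n = d n := by
  unfold toF
  rw [Finsupp.finsetSum_apply]
  by_cases h : n ∈ S
  · rw [Finset.sum_eq_single n]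
    · simp
    · intro k _ hk
      rw [Finsupp.single_apply, if_neg hk]
    · intro h'
      exact absurd h h'
  · have h1 : d n = 0 := by
      by_contra h2
      exact h (hS n h2)
    rw [h1]
    refine Finset.sum_eq_zero fun k hk => ?_
    rw [Finsupp.single_apply, if_neg]
    rintro rfl
    exact h hk

lemma ev_toF (S : Finset ℤ) (d : ℤ → ℂ) (z : ℂ) : ev (toF S d) z = E S d z := by
  unfold toF ev E
  rw [map_sum]
  simp

/-- The number of auxiliary coordinates. -/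
lemma exists_L {q : ℝ} (hq : 1 < q) : ∃ L : ℕ, 0 < L ∧ ∀ m : ℕ → ℕ, Lac q m →
    ∀ j, L ≤ j → m (j - L) + m (j - 1) ≤ m j := by
  have hq0 : 0 < q := by linarith
  have hη : 0 < 1 - 1 / q := by
    rw [sub_pos, div_lt_one hq0]
    exact hq
  obtain ⟨L, hL⟩ : ∃ L : ℕ, 1 / (1 - 1 / q) < q ^ L := pow_unbounded_of_one_lt _ hq
  have hL' : 1 / (1 - 1 / q) ≤ q ^ (L + 1) :=
    hL.le.trans (pow_le_pow_right₀ hq.le (Nat.le_succ L))
  refine ⟨L + 1, Nat.succ_pos L, fun m hm j hj => ?_⟩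
  have h1 := hm.pow (L + 1) (j - (L + 1))
  rw [Nat.sub_add_cancel hj] at h1
  have h2 : (m (j - 1) : ℝ) ≤ 1 / q * m j := by
    have h3 := hm.step (j - 1)
    rw [Nat.sub_add_cancel (by omega)] at h3
    rw [div_mul_eq_mul_div, one_mul, le_div_iff₀ hq0]
    linarith
  have h3 : (m (j - (L + 1)) : ℝ) ≤ (1 - 1 / q) * m j := by
    rw [div_le_iff₀ hη] at hL'
    have h4 : (0 : ℝ) < m (j - (L + 1)) := hm.posR _
    nlinarith
  have h5 : (m (j - (L + 1)) : ℝ) + m (j - 1) ≤ m j := by linarith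
  exact_mod_cast h5

lemma gap_M {q : ℝ} {m : ℕ → ℕ} (hm : Lac q m) (j0 : ℕ) :
    ∀ j, j0 < j → ⌊m (j0 + 1) / Aq q⌋₊ + m (j - 1) ≤ m j := by
  intro j hj
  have hA := Aq_gt hm.one_lt
  have hq0 : 0 < q := by linarith [hm.one_lt]
  have h1 : (⌊(m (j0 + 1) : ℝ) / Aq q⌋₊ : ℝ) ≤ m (j0 + 1) / Aq q :=
    Nat.floor_le (div_nonneg (hm.posR _).le (by linarith))
  have h2 : (m (j0 + 1) : ℝ) ≤ m j := by exact_mod_cast hm.mono.monotone (show j0 + 1 ≤ j from hj)
  have h3 : (m (j - 1) : ℝ) ≤ 1 / q * m j := by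
    have h3 := hm.step (j - 1)
    rw [Nat.sub_add_cancel (by omega)] at h3
    rw [div_mul_eq_mul_div, one_mul, le_div_iff₀ hq0]
    linarith
  have h4 : (m (j0 + 1) : ℝ) / Aq q ≤ (1 - 1 / q) * m j := by
    rw [div_le_iff₀ (by linarith)]
    have h5 := Aq_mul hm.one_lt
    calc (m (j0 + 1) : ℝ) ≤ (Aq q * (1 - 1 / q)) * m j := by
          rw [h5]
          linarith
      _ = (1 - 1 / q) * m j * Aq q := by ring
  have h6 : (⌊(m (j0 + 1) : ℝ) / Aq q⌋₊ : ℝ) + m (j - 1) ≤ m j := by linarith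
  exact_mod_cast h6

/-- Averages of a state, from the rotation argument. -/
lemma rotW {q : ℝ} {m : ℕ → ℕ} (hm : Lac q m) {L : ℕ} (hL : 0 < L)
    (hgap : ∀ j, L ≤ j → m (j - L) + m (j - 1) ≤ m j) {S : Finset ℤ} {d : ℤ → ℂ}
    (hS : ∀ n, d n ≠ 0 → n ∈ S) (hd : Sp m d) {j0 K : ℕ} (hK : j0 ≤ K)
    (hdK : ∀ n : ℤ, n < -(m K : ℤ) → d n = 0) {x : ℝ} (hx : 0 < x) {w : ℂ}
    (hw : ‖w‖ = Real.exp (-x)) {u β : ℝ} (hβ0 : 0 ≤ β)
    (hβ : Real.exp (-(2 * β)) ≤ ∑ i ∈ Ioc j0 K, ‖d (-(m i : ℤ))‖ ^ 2)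
    (hβu : β + Real.log L ≤ u) (hu : 2 * u + 2 ≤ ⌊m (j0 + 1) / Aq q⌋₊ * x) :
    PI w (fun θ => yb u (‖E S d (ze θ)‖ ^ 2)) ≤ (L * u + β + Real.log L) / (L + 1)
      + 1 + Real.log L + PI w (fun θ => 1 / 2 * Real.log (1 + ‖E S d (ze θ)‖ ^ 2))
      + Real.log (1 + PI w (fun θ => ‖E S d (ze θ)‖ ^ 2)) := by
  have hL1 : (1 : ℝ) ≤ L := by exact_mod_cast hL
  have hlogL : 0 ≤ Real.log L := Real.log_nonneg hL1
  have hu0 : 0 ≤ u := by linarith
  obtain ⟨f, t, hst, hneg, hf0, hfM, hle, hgrow⟩ := alg (G := toF S d) (s := Real.exp (-u))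
    (M := ⌊m (j0 + 1) / Aq q⌋₊) (K := K) (j0 := j0) hL (Real.exp_pos _) hm.mono hgap hK
    (gap_M hm j0) (fun n hn => by rw [toF_apply hS, hdK n hn]) (fun j hj n h1 h2 => by
      rw [toF_apply hS]
      by_contra h3
      rcases hd n h3 with h4 | ⟨i, hi⟩
      · omega
      · have h5 : m (j - 1) < m i := by omega
        have h6 : m i < m j := by omega
        have h7 := hm.mono.lt_iff_lt.mp h5
        have h8 := hm.mono.lt_iff_lt.mp h6
        omega)
  have ht0 : 0 < t := (Real.exp_pos _).trans_le hst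
  set γ := (L * u + β + Real.log L) / (L + 1) with hγ
  have hLp : (0 : ℝ) < L + 1 := by positivity
  have hγ0 : 0 ≤ γ := by rw [hγ]; positivity
  have hγu : γ ≤ u := by
    rw [hγ, div_le_iff₀ hLp]
    nlinarith
  have htγ : Real.exp (-γ) ≤ t := by
    have h1 : Real.exp (-(2 * (L * u + β))) ≤ L * t ^ (2 * L + 2) := by
      calc Real.exp (-(2 * (L * u + β))) = Real.exp (-u) ^ (2 * L) * Real.exp (-(2 * β)) := by
            rw [← Real.exp_nat_mul, ← Real.exp_add]
            congr 1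
            push_cast
            ring
        _ ≤ Real.exp (-u) ^ (2 * L) * ∑ i ∈ Ioc j0 K, ‖d (-(m i : ℤ))‖ ^ 2 :=
            mul_le_mul_of_nonneg_left hβ (by positivity)
        _ ≤ L * t ^ (2 * L + 2) := by
            refine le_trans (le_of_eq ?_) hgrow
            congr 1
            refine Finset.sum_congr rfl fun i _ => ?_
            rw [toF_apply hS]
    have h2 := Real.log_le_log (Real.exp_pos _) h1
    rw [Real.log_exp, Real.log_mul (by positivity) (by positivity), Real.log_pow] at h2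
    push_cast at h2
    have h3 : -γ ≤ Real.log t := by
      rw [hγ, ← neg_div, div_le_iff₀ hLp]
      nlinarith
    calc Real.exp (-γ) ≤ Real.exp (Real.log t) := Real.exp_le_exp.mpr h3
      _ = t := Real.exp_log ht0
  have hX0 : ∀ θ : Ci, 0 ≤ ‖E S d (ze θ)‖ ^ 2 := fun θ => sq_nonneg _
  refine gapJ hneg hf0 hfM hx hw (X := fun θ => ‖E S d (ze θ)‖ ^ 2)
    ((continuous_E S d).norm.pow 2) hX0 hL1 hu0 (fun θ => ?_) hγ0 hγu ?_ hu
  · refine (hle _ (norm_ze θ)).trans ?_
    rw [ev_toF, ← Real.exp_nat_mul]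
    push_cast
    have h1 : (2 : ℝ) * -u = -(2 * u) := by ring
    rw [h1, mul_add]
    have := hX0 θ
    nlinarith
  · rw [Complex.norm_real, Real.norm_of_nonneg ht0.le]
    exact htγ

/-- Averages of a state, from the size of its lowest coefficient. -/
lemma capW {q : ℝ} {m : ℕ → ℕ} (hm : Lac q m) {S : Finset ℤ} {d : ℤ → ℂ}
    (hS : ∀ n, d n ≠ 0 → n ∈ S) (hd : Sp m d) {K : ℕ} (hK : 0 < K)
    (hdK : ∀ n : ℤ, n < -(m K : ℤ) → d n = 0) {x : ℝ} (hx : 0 < x) {w : ℂ}
    (hw : ‖w‖ = Real.exp (-x)) {u β : ℝ} (hβ0 : 0 ≤ β) (hβ : Real.exp (-β) ≤ ‖d (-(m K : ℤ))‖)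
    (hβu : β ≤ u) (hu : 2 * u + 2 ≤ ⌊m K / Aq q⌋₊ * x) :
    PI w (fun θ => yb u (‖E S d (ze θ)‖ ^ 2)) ≤ β + 1
      + PI w (fun θ => 1 / 2 * Real.log (1 + ‖E S d (ze θ)‖ ^ 2))
      + Real.log (1 + PI w (fun θ => ‖E S d (ze θ)‖ ^ 2)) := by
  have hu0 : 0 ≤ u := by linarith
  have hX0 : ∀ θ : Ci, 0 ≤ ‖E S d (ze θ)‖ ^ 2 := fun θ => sq_nonneg _
  set f := sh (m K : ℤ) (toF S d) with hf
  have hfapp : ∀ n, f n = d (n - m K) := fun n => by rw [hf, sh_apply, toF_apply hS]
  have h := gapJ (f := f) (t := d (-(m K : ℤ))) (M := ⌊m K / Aq q⌋₊) (fun n hn => by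
      rw [hfapp]
      exact hdK _ (by omega)) (by rw [hfapp, zero_sub]) (fun n hn1 hn2 => by
      rw [hfapp]
      by_contra h3
      have hg := gap_M hm (K - 1) K (by omega)
      rw [Nat.sub_add_cancel hK] at hg
      rcases hd _ h3 with h4 | ⟨i, hi⟩
      · omega
      · have h5 : m i < m K := by omega
        have h6 := hm.mono.lt_iff_lt.mp h5
        have h7 := hm.mono.monotone (show i ≤ K - 1 by omega)
        omega) hx hw (X := fun θ => ‖E S d (ze θ)‖ ^ 2)
    ((continuous_E S d).norm.pow 2) hX0 (L := 1) le_rfl hu0 (fun θ => by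
      rw [hf, ev_sh _ _ (ze_ne θ), ev_toF, norm_mul, norm_zpow, norm_ze, one_zpow, one_mul,
        one_mul]
      have := Real.exp_pos (-(2 * u))
      linarith) hβ0 hβu hβ hu
  rw [Real.log_one, add_zero] at h
  exact h

/-- Global version of the previous bound. -/
lemma capG {m : ℕ → ℕ} {S : Finset ℤ} {d : ℤ → ℂ}
    (hS : ∀ n, d n ≠ 0 → n ∈ S) {K : ℕ}
    (hdK : ∀ n : ℤ, n < -(m K : ℤ) → d n = 0) {u β : ℝ} (hu0 : 0 ≤ u)
    (hβ : Real.exp (-β) ≤ ‖d (-(m K : ℤ))‖) :
    ∫ θ, yb u (‖E S d (ze θ)‖ ^ 2) ∂mu ≤ β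
      + ∫ θ, 1 / 2 * Real.log (1 + ‖E S d (ze θ)‖ ^ 2) ∂mu := by
  set X : Ci → ℝ := fun θ => ‖E S d (ze θ)‖ ^ 2 with hX
  have hXc : Continuous X := (continuous_E S d).norm.pow 2
  have hX0 : ∀ θ : Ci, 0 ≤ X θ := fun θ => sq_nonneg _
  have hw1 : ‖(0 : ℂ)‖ < 1 := by simp
  have hP0 : ∀ θ, P 0 θ = 1 := fun θ => by
    unfold P
    simp [norm_ze]
  have hPI : ∀ U : Ci → ℝ, PI 0 U = ∫ θ, U θ ∂mu := fun U => by
    unfold PI
    simp only [hP0, one_mul]
  set f := sh (m K : ℤ) (toF S d) with hf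
  have hfapp : ∀ n, f n = d (n - m K) := fun n => by rw [hf, sh_apply, toF_apply hS]
  have hneg : ∀ n : ℤ, n < 0 → f n = 0 := fun n hn => by
    rw [hfapp]
    exact hdK _ (by omega)
  have hLdc := continuous_Ld (b := u) hXc hX0
  have hlXc := continuous_log1 hXc hX0
  have hyc := continuous_yb (b := u) hXc hX0
  have hj := jensen (differentiable_ev hneg) (v := fun θ => Real.exp (-(2 * u)) + X θ)
    (by fun_prop) (fun θ => by
      have := hX0 θ
      positivity) (fun θ => by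
      rw [hf, ev_sh _ _ (ze_ne θ), ev_toF, norm_mul, norm_zpow, norm_ze, one_zpow, one_mul]
      have := Real.exp_pos (-(2 * u))
      simp only [hX]
      linarith) hw1
  have hev0 : ev f 0 = d (-(m K : ℤ)) := by
    rw [ev_eq_sum, Finsupp.sum]
    have h0' : f 0 = d (-(m K : ℤ)) := by rw [hfapp, zero_sub]
    rw [← h0']
    by_cases h0 : (0 : ℤ) ∈ f.support
    · rw [Finset.sum_eq_single 0]
      · simp
      · intro n _ hn
        rw [zero_zpow n hn, mul_zero]
      · exact fun h => absurd h0 h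
    · rw [Finset.sum_eq_zero]
      · exact (Finsupp.notMem_support_iff.mp h0).symm
      · intro n hn
        have : n ≠ 0 := fun h => h0 (h ▸ hn)
        rw [zero_zpow n this, mul_zero]
  rw [hev0] at hj
  have hint : ∫ θ, P 0 θ * Real.log (Real.exp (-(2 * u)) + X θ) ∂mu
      = 2 * PI 0 (fun θ => Ld u (X θ)) := by
    rw [← PI_smul]
    unfold PI Ld
    refine integral_congr_ae (Filter.Eventually.of_forall fun θ => ?_)
    ring
  rw [hint] at hj
  have h1 : -β ≤ PI 0 (fun θ => Ld u (X θ)) := by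
    have h2 : Real.exp (-β) ^ 2 ≤ Real.exp (2 * PI 0 (fun θ => Ld u (X θ))) :=
      (pow_le_pow_left₀ (Real.exp_pos _).le hβ 2).trans hj
    rw [← Real.exp_nat_mul, Real.exp_le_exp] at h2
    push_cast at h2
    linarith
  have hyle : PI 0 (fun θ => yb u (X θ)) ≤ PI 0 (fun θ => -1 * Ld u (X θ)
      + 1 / 2 * Real.log (1 + X θ)) :=
    PI_mono hw1 hyc ((continuous_const.mul hLdc).add hlXc) fun θ => by
      have := yb_le' hu0 (hX0 θ)
      linarith
  have hadd := PI_add hw1 (U := fun θ => -1 * Ld u (X θ))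
    (V := fun θ => 1 / 2 * Real.log (1 + X θ)) (continuous_const.mul hLdc) hlXc
  rw [hadd, PI_smul] at hyle
  have e1 := hPI (fun θ => yb u (X θ))
  have e2 := hPI (fun θ => 1 / 2 * Real.log (1 + X θ))
  rw [← e1, ← e2]
  linarith

end

end Pool.Agent.Helper61.HL
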