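import Pool.Agent.Helper61.HL.Poi

/-!
# Poisson integrals: monotonicity, a maximum principle, a Harnack inequality, averages
-/

namespace Pool.Agent.Helper61.HL

noncomputable section

open MeasureTheory AddCircle Complex

/-- The Poisson integral of `U` at `w`. -/
def PI (w : ℂ) (U : Ci → ℝ) : ℝ := ∫ θ, P w θ * U θ ∂mu

lemma PI_int {w : ℂ} (hw : ‖w‖ < 1) {U : Ci → ℝ} (hU : Continuous U) :
    Integrable (fun θ => P w θ * U θ) mu :=
  integrable_of_cont ((continuous_P hw).mul hU)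

lemma PI_mono {w : ℂ} (hw : ‖w‖ < 1) {U V : Ci → ℝ} (hU : Continuous U) (hV : Continuous V)
    (h : ∀ θ, U θ ≤ V θ) : PI w U ≤ PI w V :=
  integral_mono (PI_int hw hU) (PI_int hw hV) fun θ =>
    mul_le_mul_of_nonneg_left (h θ) (P_pos hw θ).le

lemma PI_const {w : ℂ} (hw : ‖w‖ < 1) (a : ℝ) : PI w (fun _ => a) = a := by
  unfold PI
  rw [integral_mul_const, integral_P hw, one_mul]

lemma PI_add {w : ℂ} (hw : ‖w‖ < 1) {U V : Ci → ℝ} (hU : Continuous U) (hV : Continuous V) :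
    PI w (fun θ => U θ + V θ) = PI w U + PI w V := by
  unfold PI
  rw [← integral_add (PI_int hw hU) (PI_int hw hV)]
  simp only [mul_add]

lemma PI_smul (w : ℂ) (a : ℝ) (U : Ci → ℝ) : PI w (fun θ => a * U θ) = a * PI w U := by
  unfold PI
  rw [← integral_const_mul]
  refine integral_congr_ae (Filter.Eventually.of_forall fun θ => ?_)
  ring

lemma PI_nonneg {w : ℂ} (hw : ‖w‖ < 1) {U : Ci → ℝ} (h : ∀ θ, 0 ≤ U θ) : 0 ≤ PI w U :=
  integral_nonneg fun θ => mul_nonneg (P_pos hw θ).le (h θ)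

lemma PI_le_of_le {w : ℂ} (hw : ‖w‖ < 1) {U : Ci → ℝ} (hU : Continuous U) {a : ℝ}
    (h : ∀ θ, U θ ≤ a) : PI w U ≤ a :=
  (PI_mono hw hU continuous_const h).trans_eq (PI_const hw a)

/-- Uniform approximation of a continuous function on the circle by the real part of an entire
function. -/
lemma exists_entire {U : Ci → ℝ} (hU : Continuous U) {ε : ℝ} (hε : 0 < ε) :
    ∃ H : ℂ → ℂ, Differentiable ℂ H ∧ ∀ θ, |(H (ze θ)).re - U θ| ≤ ε := by
  let u : C(Ci, ℂ) := ⟨fun θ => ((U θ : ℝ) : ℂ), Complex.continuous_ofReal.comp hU⟩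
  have hu : u ∈ (Submodule.span ℂ (Set.range
      (fun n : ℤ => (fourier n : C(Ci, ℂ))))).topologicalClosure := by
    rw [span_fourier_closure_eq_top]
    trivial
  rw [← SetLike.mem_coe, Submodule.topologicalClosure_coe, Metric.mem_closure_iff] at hu
  obtain ⟨q, hq, hqu⟩ := hu ε hε
  obtain ⟨H₁, H₂, h1, h2, h12⟩ := trig_split hq
  refine ⟨fun z => H₁ z + H₂ z, h1.add h2, fun θ => ?_⟩
  have h3 : (H₁ (ze θ) + H₂ (ze θ)).re = (q θ).re := by
    rw [h12]
    simp
  have h4 : ‖u θ - q θ‖ ≤ ε := by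
    have := ContinuousMap.dist_apply_le_dist (f := u) (g := q) θ
    rw [dist_eq_norm] at this
    linarith
  have h5 := (Complex.abs_re_le_norm (u θ - q θ)).trans h4
  rw [h3, abs_sub_comm]
  simpa [u] using h5

lemma PI_approx {U : Ci → ℝ} (hU : Continuous U) {ε : ℝ} {H : ℂ → ℂ} (hH : Differentiable ℂ H)
    (h : ∀ θ, |(H (ze θ)).re - U θ| ≤ ε) {w : ℂ} (hw : ‖w‖ < 1) : |(H w).re - PI w U| ≤ ε := by
  have hc : Continuous fun θ => (H (ze θ)).re :=
    Complex.continuous_re.comp (hH.continuous.comp continuous_ze)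
  have h1 : (H w).re = PI w (fun θ => (H (ze θ)).re) := (poisson_re hH hw).symm
  rw [h1, abs_le]
  constructor
  · have h2 : PI w U ≤ PI w (fun θ => (H (ze θ)).re + ε) :=
      PI_mono hw hU (hc.add continuous_const) fun θ => by
        have := (abs_le.mp (h θ)).1
        linarith
    rw [PI_add hw hc continuous_const, PI_const hw] at h2
    linarith
  · have h2 : PI w (fun θ => (H (ze θ)).re) ≤ PI w (fun θ => U θ + ε) :=
      PI_mono hw hc (hU.add continuous_const) fun θ => by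
        have := (abs_le.mp (h θ)).2
        linarith
    rw [PI_add hw hU continuous_const, PI_const hw] at h2
    linarith

/-- Maximum principle for `log |f| - a * PI U`. -/
lemma maxp {f : ℂ → ℂ} (hf : Differentiable ℂ f) {U : Ci → ℝ} (hU : Continuous U) {a d R : ℝ}
    (ha : 0 ≤ a) (hR : 0 < R) (hR1 : R < 1)
    (h : ∀ ζ : ℂ, ‖ζ‖ = R → ‖f ζ‖ ≤ Real.exp (a * PI ζ U + d)) :
    ∀ ζ : ℂ, ‖ζ‖ ≤ R → ‖f ζ‖ ≤ Real.exp (a * PI ζ U + d) := by
  intro ζ hζ
  have hζ1 : ‖ζ‖ < 1 := hζ.trans_lt hR1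
  have key : ∀ ε : ℝ, 0 < ε → ‖f ζ‖ ≤ Real.exp (a * PI ζ U + d + 2 * a * ε) := by
    intro ε hε
    obtain ⟨H, hH, hHU⟩ := exists_entire hU hε
    set F : ℂ → ℂ := fun z => f z * Complex.exp (-(a * H z)) with hF
    have hFd : Differentiable ℂ F := hf.mul ((hH.const_mul _).neg.cexp)
    have hnF : ∀ z, ‖F z‖ = ‖f z‖ * Real.exp (-(a * (H z).re)) := by
      intro z
      rw [hF]
      simp only [norm_mul, Complex.norm_exp, neg_re, re_ofReal_mul]
    have hFs : ∀ z ∈ frontier (Metric.ball (0 : ℂ) R), ‖F z‖ ≤ Real.exp (a * ε + d) := by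
      intro z hz
      rw [frontier_ball _ hR.ne', mem_sphere_zero_iff_norm] at hz
      have hz1 : ‖z‖ < 1 := by rw [hz]; exact hR1
      rw [hnF]
      calc ‖f z‖ * Real.exp (-(a * (H z).re))
          ≤ Real.exp (a * PI z U + d) * Real.exp (-(a * (H z).re)) :=
            mul_le_mul_of_nonneg_right (h z hz) (Real.exp_pos _).le
        _ = Real.exp (a * (PI z U - (H z).re) + d) := by
            rw [← Real.exp_add]
            congr 1
            ring
        _ ≤ Real.exp (a * ε + d) := by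
            rw [Real.exp_le_exp]
            have h3 := (abs_le.mp (PI_approx hU hH hHU hz1)).1
            have h4 : PI z U - (H z).re ≤ ε := by linarith
            have := mul_le_mul_of_nonneg_left h4 ha
            linarith
    have hmem : ζ ∈ closure (Metric.ball (0 : ℂ) R) := by
      rw [closure_ball _ hR.ne', mem_closedBall_zero_iff]
      exact hζ
    have h5 := Complex.norm_le_of_forall_mem_frontier_norm_le Metric.isBounded_ball
      hFd.diffContOnCl hFs hmem
    rw [hnF] at h5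
    have h6 : ‖f ζ‖ = ‖f ζ‖ * Real.exp (-(a * (H ζ).re)) * Real.exp (a * (H ζ).re) := by
      rw [mul_assoc, ← Real.exp_add, neg_add_cancel, Real.exp_zero, mul_one]
    rw [h6]
    calc ‖f ζ‖ * Real.exp (-(a * (H ζ).re)) * Real.exp (a * (H ζ).re)
        ≤ Real.exp (a * ε + d) * Real.exp (a * (H ζ).re) :=
          mul_le_mul_of_nonneg_right h5 (Real.exp_pos _).le
      _ = Real.exp (a * ε + d + a * (H ζ).re) := by rw [← Real.exp_add]
      _ ≤ Real.exp (a * PI ζ U + d + 2 * a * ε) := by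
          rw [Real.exp_le_exp]
          have h3 := (abs_le.mp (PI_approx hU hH hHU hζ1)).2
          have h4 : (H ζ).re ≤ PI ζ U + ε := by linarith
          have := mul_le_mul_of_nonneg_left h4 ha
          linarith
  refine ge_of_tendsto (x := nhdsWithin 0 (Set.Ioi (0 : ℝ)))
    (f := fun ε => Real.exp (a * PI ζ U + d + 2 * a * ε))
    ?_ (Filter.eventually_of_mem self_mem_nhdsWithin key)
  have : Continuous fun ε : ℝ => Real.exp (a * PI ζ U + d + 2 * a * ε) := by fun_prop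
  have h := this.tendsto 0
  simp only [mul_zero, add_zero] at h
  exact h.mono_left nhdsWithin_le_nhds

/-- Harnack inequality for the Poisson kernel, along a radius. -/
lemma P_harnack {w : ℂ} (hw : ‖w‖ < 1) {t : ℝ} (ht0 : 0 ≤ t) (ht1 : t ≤ 1) (θ : Ci) :
    P (t * w) θ ≤ (1 + 8 * ((1 - t) * ‖w‖ / (1 - ‖w‖))) * P w θ := by
  set R := ‖w‖ with hR
  have hR0 : 0 ≤ R := norm_nonneg w
  have h1R : 0 < 1 - R := by linarith
  have htw : ‖(t : ℂ) * w‖ = t * R := by
    rw [norm_mul, Complex.norm_real, Real.norm_of_nonneg ht0]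
  set D := ‖ze θ - w‖ with hD
  set Dt := ‖ze θ - t * w‖ with hDt
  have hDpos : 0 < D := by
    have := dist_pos w θ
    linarith
  have hDt1 : 1 - t * R ≤ Dt := by
    have := dist_pos ((t : ℂ) * w) θ
    rwa [htw] at this
  have htR : t * R ≤ R := mul_le_of_le_one_left hR0 ht1
  have hDtpos : 0 < Dt := by linarith
  have hDDt : D ≤ Dt + (1 - t) * R := by
    have h1 : ze θ - w = (ze θ - t * w) + ((t - 1 : ℝ) : ℂ) * w := by
      push_cast
      ring
    have h2 : ‖((t - 1 : ℝ) : ℂ) * w‖ = (1 - t) * R := by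
      rw [norm_mul, Complex.norm_real, Real.norm_eq_abs, abs_of_nonpos (by linarith)]
      ring
    rw [hD, h1]
    refine (norm_add_le _ _).trans ?_
    rw [h2]
  set y := (1 - t) * R / (1 - R) with hy
  have hy0 : 0 ≤ y := by
    rw [hy]
    exact div_nonneg (mul_nonneg (by linarith) hR0) h1R.le
  have hyR : y * (1 - R) = (1 - t) * R := by
    rw [hy]
    field_simp
  -- first factor
  have hf1 : D ≤ (1 + y) * Dt := by nlinarith
  have hf2 : D ≤ 2 * Dt := by nlinarith
  -- second factor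
  have hg : 1 - (t * R) ^ 2 ≤ (1 + y) * (1 - R ^ 2) := by
    have h1 : y * (1 - R ^ 2) = (1 - t) * R * (1 + R) := by
      have : (1 - R ^ 2) = (1 - R) * (1 + R) := by ring
      rw [this, ← mul_assoc, hyR]
    have h2 : 1 - (t * R) ^ 2 = (1 - R ^ 2) + (1 - t) * R * (R + t * R) := by ring
    rw [h2, add_mul, one_mul, h1]
    have h3 : R + t * R ≤ 1 + R := by linarith
    have h4 : 0 ≤ (1 - t) * R := mul_nonneg (by linarith) hR0
    nlinarith [mul_le_mul_of_nonneg_left h3 h4]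
  have hP1 : P (t * w) θ = (1 - (t * R) ^ 2) / Dt ^ 2 := by
    unfold P
    rw [htw]
  have hP2 : P w θ = (1 - R ^ 2) / D ^ 2 := rfl
  rw [hP1, hP2, ← mul_div_assoc, div_le_div_iff₀ (by positivity) (by positivity)]
  have hRR : 0 ≤ 1 - R ^ 2 := by nlinarith
  -- `D ^ 2 ≤ c * Dt ^ 2` with `(1 + y) * c ≤ 1 + 8 * y`
  have hc : (1 + y) * D ^ 2 ≤ (1 + 8 * y) * Dt ^ 2 := by
    rcases le_total y 1 with h | h
    · have h5 : D ^ 2 ≤ ((1 + y) * Dt) ^ 2 := pow_le_pow_left₀ hDpos.le hf1 2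
      have h6 : (1 + y) * (1 + y) ^ 2 ≤ 1 + 8 * y := by nlinarith [mul_nonneg hy0 hy0]
      calc (1 + y) * D ^ 2 ≤ (1 + y) * ((1 + y) * Dt) ^ 2 :=
            mul_le_mul_of_nonneg_left h5 (by linarith)
        _ = ((1 + y) * (1 + y) ^ 2) * Dt ^ 2 := by ring
        _ ≤ (1 + 8 * y) * Dt ^ 2 := mul_le_mul_of_nonneg_right h6 (by positivity)
    · have h5 : D ^ 2 ≤ (2 * Dt) ^ 2 := pow_le_pow_left₀ hDpos.le hf2 2
      calc (1 + y) * D ^ 2 ≤ (1 + y) * (2 * Dt) ^ 2 :=
            mul_le_mul_of_nonneg_left h5 (by linarith)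
        _ = ((1 + y) * 4) * Dt ^ 2 := by ring
        _ ≤ (1 + 8 * y) * Dt ^ 2 := by
            refine mul_le_mul_of_nonneg_right ?_ (by positivity)
            linarith
  calc (1 - (t * R) ^ 2) * D ^ 2 ≤ ((1 + y) * (1 - R ^ 2)) * D ^ 2 :=
        mul_le_mul_of_nonneg_right hg (by positivity)
    _ = (1 - R ^ 2) * ((1 + y) * D ^ 2) := by ring
    _ ≤ (1 - R ^ 2) * ((1 + 8 * y) * Dt ^ 2) := mul_le_mul_of_nonneg_left hc hRR
    _ = (1 + 8 * y) * (1 - R ^ 2) * Dt ^ 2 := by ring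

/-- Harnack inequality in terms of heights. -/
lemma PI_harnack {w : ℂ} {x s : ℝ} (hx : 0 < x) (hs : 0 ≤ s) (hw : ‖w‖ = Real.exp (-x))
    {U : Ci → ℝ} (hU : Continuous U) (hU0 : ∀ θ, 0 ≤ U θ) :
    PI ((Real.exp (-s) : ℝ) * w) U ≤ (1 + 8 * (s / x)) * PI w U := by
  have hw1 : ‖w‖ < 1 := by
    rw [hw, Real.exp_lt_one_iff]
    linarith
  have ht0 : 0 ≤ Real.exp (-s) := (Real.exp_pos _).le
  have ht1 : Real.exp (-s) ≤ 1 := by
    rw [Real.exp_le_one_iff]
    linarith
  have hn : ‖((Real.exp (-s) : ℝ) : ℂ) * w‖ < 1 := by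
    rw [norm_mul, Complex.norm_real, Real.norm_of_nonneg ht0]
    nlinarith [norm_nonneg w]
  have hy : (1 - Real.exp (-s)) * ‖w‖ / (1 - ‖w‖) ≤ s / x := by
    have h1 : 1 - Real.exp (-s) ≤ s := by
      have := Real.add_one_le_exp (-s)
      linarith
    have h2 : x * ‖w‖ ≤ 1 - ‖w‖ := by
      rw [hw]
      have h3 := Real.add_one_le_exp x
      have h4 : Real.exp x * Real.exp (-x) = 1 := by
        rw [← Real.exp_add, add_neg_cancel, Real.exp_zero]
      have h5 := Real.exp_pos (-x)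
      nlinarith
    rw [div_le_div_iff₀ (by linarith) hx]
    have h6 : 0 ≤ 1 - Real.exp (-s) := by linarith
    calc (1 - Real.exp (-s)) * ‖w‖ * x = (1 - Real.exp (-s)) * (x * ‖w‖) := by ring
      _ ≤ (1 - Real.exp (-s)) * (1 - ‖w‖) := mul_le_mul_of_nonneg_left h2 h6
      _ ≤ s * (1 - ‖w‖) := mul_le_mul_of_nonneg_right h1 (by linarith)
  unfold PI
  rw [← integral_const_mul]
  refine integral_mono (PI_int hn hU) ((PI_int hw1 hU).const_mul _) fun θ => ?_
  simp only
  rw [← mul_assoc]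
  refine mul_le_mul_of_nonneg_right ((P_harnack hw1 ht0 ht1 θ).trans ?_) (hU0 θ)
  refine mul_le_mul_of_nonneg_right ?_ (P_pos hw1 θ).le
  linarith

lemma ze_add (a b : Ci) : ze (a + b) = ze a * ze b := by
  simp only [ze]
  rw [fourier_one, fourier_one, fourier_one, AddCircle.toCircle_add, Circle.coe_mul]

lemma ze_neg (a : Ci) : ze (-a) = (ze a)⁻¹ := by
  have h : ze (-a) * ze a = 1 := by
    rw [← ze_add, neg_add_cancel]
    simp [ze]
  exact eq_inv_of_mul_eq_one_left h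

lemma P_rot (R : ℝ) (θ₀ θ : Ci) : P (R * ze θ₀) θ = P R (θ - θ₀) := by
  unfold P
  have h1 : ‖(R : ℂ) * ze θ₀‖ = ‖(R : ℂ)‖ := by rw [norm_mul, norm_ze, mul_one]
  have h2 : ‖ze θ - R * ze θ₀‖ = ‖ze (θ - θ₀) - R‖ := by
    have : ze θ - R * ze θ₀ = ze θ₀ * (ze (θ - θ₀) - R) := by
      have h3 : ze (θ - θ₀) = ze θ * (ze θ₀)⁻¹ := by rw [sub_eq_add_neg, ze_add, ze_neg]
      rw [h3]
      have := ze_ne θ₀
      field_simp
    rw [this, norm_mul, norm_ze, one_mul]
  rw [h1, h2]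

lemma continuous_PI {R : ℝ} (hR0 : 0 ≤ R) (hR : R < 1) {U : Ci → ℝ} (hU : Continuous U) :
    Continuous fun θ₀ : Ci => PI (R * ze θ₀) U := by
  have hc : Continuous fun p : Ci × Ci => P (R * ze p.1) p.2 * U p.2 := by
    have h1 : (fun p : Ci × Ci => P (R * ze p.1) p.2 * U p.2)
        = fun p => P R (p.2 - p.1) * U p.2 := by
      ext p
      rw [P_rot]
    rw [h1]
    have hRn : ‖(R : ℂ)‖ < 1 := by rwa [Complex.norm_real, Real.norm_of_nonneg hR0]
    exact ((continuous_P hRn).comp (continuous_snd.sub continuous_fst)).mul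
      (hU.comp continuous_snd)
  have h := continuous_parametric_integral_of_continuous (μ := mu)
    (f := fun θ₀ θ => P (R * ze θ₀) θ * U θ) (s := Set.univ) hc isCompact_univ
  simpa [PI] using h

/-- The average over a circle of a Poisson integral. -/
lemma avg_PI {R : ℝ} (hR0 : 0 ≤ R) (hR : R < 1) {U : Ci → ℝ} (hU : Continuous U) :
    ∫ θ₀, PI (R * ze θ₀) U ∂mu = ∫ θ, U θ ∂mu := by
  have hRn : ‖(R : ℂ)‖ < 1 := by rwa [Complex.norm_real, Real.norm_of_nonneg hR0]
  have hc : Continuous fun p : Ci × Ci => P R (p.2 - p.1) * U p.2 :=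
    ((continuous_P hRn).comp (continuous_snd.sub continuous_fst)).mul (hU.comp continuous_snd)
  have hi : Integrable (fun p : Ci × Ci => P R (p.2 - p.1) * U p.2) (mu.prod mu) :=
    hc.integrable_of_hasCompactSupport (HasCompactSupport.of_compactSpace _)
  have h1 : ∀ θ₀ : Ci, PI (R * ze θ₀) U = ∫ θ, P R (θ - θ₀) * U θ ∂mu := by
    intro θ₀
    unfold PI
    simp only [P_rot]
  simp only [h1]
  rw [integral_integral_swap hi]
  refine integral_congr_ae (Filter.Eventually.of_forall fun θ => ?_)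
  simp only
  rw [integral_mul_const, integral_sub_left_eq_self (fun x => P (R : ℂ) x) mu θ, integral_P hRn,
    one_mul]

end

end Pool.Agent.Helper61.HL
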