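import Pool.Agent.Helper61.HL.Harm

/-!
# Removing single negative frequencies by two point differences
-/

namespace Pool.Agent.Helper61.HL

noncomputable section

open MeasureTheory AddCircle Complex Finset

/-- The value at `z` of the Laurent polynomial with coefficients `d` on `S`. -/
def E (S : Finset ℤ) (d : ℤ → ℂ) (z : ℂ) : ℂ := ∑ n ∈ S, d n * z ^ n

/-- The polynomial `z ^ ν * E S d z`. -/
def En (S : Finset ℤ) (d : ℤ → ℂ) (ν : ℕ) (z : ℂ) : ℂ := ∑ n ∈ S, d n * z ^ (n + ν).toNat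

lemma differentiable_En (S : Finset ℤ) (d : ℤ → ℂ) (ν : ℕ) : Differentiable ℂ (En S d ν) := by
  unfold En
  fun_prop

lemma En_eq {S : Finset ℤ} {d : ℤ → ℂ} {ν : ℕ} (hd : ∀ n ∈ S, n < -(ν : ℤ) → d n = 0) {z : ℂ}
    (hz : z ≠ 0) : En S d ν z = z ^ ν * E S d z := by
  unfold En E
  rw [Finset.mul_sum]
  refine Finset.sum_congr rfl fun n hn => ?_
  by_cases h : n < -(ν : ℤ)
  · rw [hd n hn h]
    simp
  · have h1 : z ^ (n + ν).toNat = z ^ ν * z ^ n := by
      rw [← zpow_natCast, Int.toNat_of_nonneg (by omega), zpow_add₀ hz, zpow_natCast]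
      ring
    rw [h1]
    ring

lemma norm_En {S : Finset ℤ} {d : ℤ → ℂ} {ν : ℕ} (hd : ∀ n ∈ S, n < -(ν : ℤ) → d n = 0) {z : ℂ}
    (hz : z ≠ 0) : ‖En S d ν z‖ = ‖z‖ ^ ν * ‖E S d z‖ := by
  rw [En_eq hd hz, norm_mul, norm_pow]

lemma continuous_E (S : Finset ℤ) (d : ℤ → ℂ) : Continuous fun θ : Ci => E S d (ze θ) := by
  unfold E
  refine continuous_finsetSum _ fun n _ => continuous_const.mul ?_
  have : (fun θ => ze θ ^ n) = fun θ => (fourier n θ : ℂ) := by
    ext θ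
    rw [fourier_eq]
  rw [this]
  exact (fourier n).continuous

lemma jensenE {S : Finset ℤ} {d : ℤ → ℂ} {ν : ℕ} (hd : ∀ n ∈ S, n < -(ν : ℤ) → d n = 0)
    {U : Ci → ℝ} (hU : Continuous U) {b : ℝ}
    (h : ∀ θ, ‖E S d (ze θ)‖ ^ 2 ≤ Real.exp (2 * (U θ - b))) {w : ℂ} (hw : ‖w‖ < 1) (hw0 : w ≠ 0) :
    ‖w‖ ^ ν * ‖E S d w‖ ≤ Real.exp (PI w U - b) := by
  rw [← norm_En hd hw0]
  have h1 := jensen (differentiable_En S d ν) (v := fun θ => Real.exp (2 * (U θ - b)))
    (by fun_prop) (fun θ => Real.exp_pos _) (fun θ => by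
      rw [norm_En hd (ze_ne θ), norm_ze, one_pow, one_mul]
      exact h θ) hw
  have h2 : ∫ θ, P w θ * Real.log (Real.exp (2 * (U θ - b))) ∂mu = 2 * (PI w U - b) := by
    simp only [Real.log_exp]
    have h3 : PI w (fun θ => 2 * (U θ + (-b))) = 2 * (PI w U + (-b)) := by
      rw [PI_smul, PI_add hw hU continuous_const, PI_const hw]
    have h4 : (fun θ => P w θ * (2 * (U θ - b))) = fun θ => P w θ * (2 * (U θ + (-b))) := by
      ext θ
      ring
    rw [h4]
    unfold PI at h3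
    unfold PI
    rw [h3]
    ring
  rw [h2] at h1
  refine le_of_sq_le_sq (h1.trans (le_of_eq ?_)) (Real.exp_pos _).le
  rw [← Real.exp_nat_mul]
  push_cast
  rfl

/-- The multiplier of the two point difference. -/
def kap (ε x : ℝ) : ℝ := (1 - Real.exp (-(ε * x))) / (1 - Real.exp (-ε))

/-- Product of multipliers. -/
def Mu (m : ℕ → ℕ) (ε : ℝ) (J : Finset ℕ) (n : ℤ) : ℝ := ∏ j ∈ J, kap ε (1 + n / m j)

lemma one_sub_exp_pos {ε : ℝ} (hε : 0 < ε) : 0 < 1 - Real.exp (-ε) := by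
  have : Real.exp (-ε) < 1 := by
    rw [Real.exp_lt_one_iff]
    linarith
  linarith

lemma kap_zero (ε : ℝ) : kap ε 0 = 0 := by simp [kap]

/-- The basic identity behind the removal of a frequency. -/
lemma undo_id (S : Finset ℤ) (d : ℤ → ℂ) {ε μ : ℝ} (hε : 0 < ε) (z : ℂ) :
    E S d z = ((1 - Real.exp (-ε) : ℝ) : ℂ) * E S (fun n => (kap ε (1 + n / μ) : ℂ) * d n) z
      + (Real.exp (-ε) : ℂ) * E S d ((Real.exp (-(ε / μ)) : ℝ) * z) := by
  unfold E
  rw [Finset.mul_sum, Finset.mul_sum, ← Finset.sum_add_distrib]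
  refine Finset.sum_congr rfl fun n _ => ?_
  have h1 : ((Real.exp (-(ε / μ)) : ℝ) * z) ^ n = ((Real.exp (-(ε * (n / μ))) : ℝ) : ℂ) * z ^ n := by
    rw [mul_zpow]
    congr 1
    have : Real.exp (-(ε * (n / μ))) = Real.exp (-(ε / μ)) ^ n := by
      rw [← Real.rpow_intCast, ← Real.exp_mul]
      congr 1
      ring
    rw [this]
    push_cast
    rfl
  have h2 : ((1 - Real.exp (-ε) : ℝ) : ℂ) * (kap ε (1 + n / μ) : ℂ)
      = ((1 - Real.exp (-ε) * Real.exp (-(ε * (n / μ))) : ℝ) : ℂ) := by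
    rw [← Complex.ofReal_mul]
    congr 1
    unfold kap
    rw [mul_div_cancel₀ _ (one_sub_exp_pos hε).ne', ← Real.exp_add]
    congr 2
    ring
  rw [h1, ← mul_assoc, ← mul_assoc, h2]
  push_cast
  ring

lemma kill_step {S : Finset ℤ} {d : ℤ → ℂ} {M M' : ℕ} (hM : 0 < M) {x A ε B a b : ℝ} (hx : 0 < x)
    (hxA : M * x ≤ A) (hx1 : 1 ≤ M * x) (hε : 0 < ε) (hε1 : ε ≤ 1) (hB : 0 < B) (ha : 0 ≤ a)
    {U : Ci → ℝ} (hU : Continuous U) (hU0 : ∀ θ, 0 ≤ U θ)
    (hd' : ∀ n ∈ S, n < -(M' : ℤ) → (kap ε (1 + n / M) : ℂ) * d n = 0)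
    (h : ∀ ζ : ℂ, ζ ≠ 0 → ‖ζ‖ ≤ Real.exp (-x) →
      ‖ζ‖ ^ M * ‖E S d ζ‖ ≤ B * Real.exp (a * PI ζ U - b)) :
    ∀ ζ : ℂ, ζ ≠ 0 → ‖ζ‖ ≤ Real.exp (-x) →
      ‖ζ‖ ^ M' * ‖E S (fun n => (kap ε (1 + n / M) : ℂ) * d n) ζ‖
        ≤ (4 * Real.exp A / ε * B) * Real.exp (a * (1 + 8 * ε) * PI ζ U - b) := by
  have hM0 : (0 : ℝ) < M := by exact_mod_cast hM
  have hex1 : Real.exp (-x) < 1 := by
    rw [Real.exp_lt_one_iff]
    linarith
  have h1e := one_sub_exp_pos hε
  have h2e : ε / 2 ≤ 1 - Real.exp (-ε) := by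
    have h3 := Real.add_one_le_exp ε
    have h4 : Real.exp ε * Real.exp (-ε) = 1 := by
      rw [← Real.exp_add, add_neg_cancel, Real.exp_zero]
    have h5 := Real.exp_pos (-ε)
    have h6 : (1 + ε) * Real.exp (-ε) ≤ 1 := by nlinarith
    nlinarith
  set D : ℤ → ℂ := fun n => (kap ε (1 + n / M) : ℂ) * d n with hD
  set K := 4 * Real.exp A / ε * B with hK
  have hKpos : 0 < K := by positivity
  set a' := a * (1 + 8 * ε) with ha'
  have ha'0 : 0 ≤ a' := by positivity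
  -- bound on the circle
  have hcirc : ∀ ζ : ℂ, ‖ζ‖ = Real.exp (-x) → ‖E S D ζ‖ ≤ K * Real.exp (a' * PI ζ U - b) := by
    intro ζ hζ
    have hζ1 : ‖ζ‖ < 1 := by rw [hζ]; exact hex1
    have hζ0 : ζ ≠ 0 := by
      rw [← norm_pos_iff, hζ]
      exact Real.exp_pos _
    have hPI0 : 0 ≤ PI ζ U := PI_nonneg hζ1 hU0
    set ρ := Real.exp (-(ε / M)) with hρ
    have hρ0 : 0 < ρ := Real.exp_pos _
    have hρ1 : ρ ≤ 1 := by
      rw [hρ, Real.exp_le_one_iff, neg_nonpos]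
      positivity
    have hρζ : ‖(ρ : ℂ) * ζ‖ = Real.exp (-(x + ε / M)) := by
      rw [norm_mul, Complex.norm_real, Real.norm_of_nonneg hρ0.le, hζ, hρ, ← Real.exp_add]
      congr 1
      ring
    have hρζ0 : (ρ : ℂ) * ζ ≠ 0 := by
      rw [← norm_pos_iff, hρζ]
      exact Real.exp_pos _
    have hρζle : ‖(ρ : ℂ) * ζ‖ ≤ Real.exp (-x) := by
      rw [hρζ, Real.exp_le_exp]
      have : 0 < ε / M := by positivity
      linarith
    have hharn : PI ((ρ : ℂ) * ζ) U ≤ (1 + 8 * ε) * PI ζ U := by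
      have h7 := PI_harnack hx (s := ε / M) (by positivity) hζ hU hU0
      refine h7.trans (mul_le_mul_of_nonneg_right ?_ hPI0)
      have h8 : ε / M / x ≤ ε := by
        rw [div_div, div_le_iff₀ (by positivity)]
        nlinarith
      linarith
    have hb1 : ‖E S d ζ‖ ≤ Real.exp A * B * Real.exp (a' * PI ζ U - b) := by
      have h9 := h ζ hζ0 hζ.le
      have h10 : Real.exp (-A) ≤ ‖ζ‖ ^ M := by
        rw [hζ, ← Real.exp_nat_mul, Real.exp_le_exp]
        linarith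
      have h11 : Real.exp (a * PI ζ U - b) ≤ Real.exp (a' * PI ζ U - b) := by
        rw [Real.exp_le_exp]
        have : a ≤ a' := by rw [ha']; nlinarith
        have := mul_le_mul_of_nonneg_right this hPI0
        linarith
      have h12 : Real.exp (-A) * ‖E S d ζ‖ ≤ B * Real.exp (a' * PI ζ U - b) :=
        (mul_le_mul_of_nonneg_right h10 (norm_nonneg _)).trans
          (h9.trans (mul_le_mul_of_nonneg_left h11 hB.le))
      calc ‖E S d ζ‖ = Real.exp A * (Real.exp (-A) * ‖E S d ζ‖) := by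
            rw [← mul_assoc, ← Real.exp_add, add_neg_cancel, Real.exp_zero, one_mul]
        _ ≤ Real.exp A * (B * Real.exp (a' * PI ζ U - b)) :=
            mul_le_mul_of_nonneg_left h12 (Real.exp_pos _).le
        _ = _ := by ring
    have hb2 : Real.exp (-ε) * ‖E S d ((ρ : ℂ) * ζ)‖
        ≤ Real.exp A * B * Real.exp (a' * PI ζ U - b) := by
      have h9 := h _ hρζ0 hρζle
      have h10 : Real.exp (-A) * Real.exp (-ε) ≤ ‖(ρ : ℂ) * ζ‖ ^ M := by
        rw [hρζ, ← Real.exp_nat_mul, ← Real.exp_add, Real.exp_le_exp]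
        have : (M : ℝ) * (ε / M) = ε := by field_simp
        nlinarith
      have h11 : Real.exp (a * PI ((ρ : ℂ) * ζ) U - b) ≤ Real.exp (a' * PI ζ U - b) := by
        rw [Real.exp_le_exp, ha', mul_assoc]
        have := mul_le_mul_of_nonneg_left hharn ha
        linarith
      have h12 : Real.exp (-A) * Real.exp (-ε) * ‖E S d ((ρ : ℂ) * ζ)‖
          ≤ B * Real.exp (a' * PI ζ U - b) :=
        (mul_le_mul_of_nonneg_right h10 (norm_nonneg _)).trans
          (h9.trans (mul_le_mul_of_nonneg_left h11 hB.le))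
      calc Real.exp (-ε) * ‖E S d ((ρ : ℂ) * ζ)‖
          = Real.exp A * (Real.exp (-A) * Real.exp (-ε) * ‖E S d ((ρ : ℂ) * ζ)‖) := by
            rw [← mul_assoc, ← mul_assoc, ← Real.exp_add, add_neg_cancel, Real.exp_zero, one_mul]
        _ ≤ Real.exp A * (B * Real.exp (a' * PI ζ U - b)) :=
            mul_le_mul_of_nonneg_left h12 (Real.exp_pos _).le
        _ = _ := by ring
    have hid := undo_id S d (μ := M) hε ζ
    have h13 : (1 - Real.exp (-ε)) * ‖E S D ζ‖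
        ≤ 2 * (Real.exp A * B * Real.exp (a' * PI ζ U - b)) := by
      have h14 : ((1 - Real.exp (-ε) : ℝ) : ℂ) * E S D ζ
          = E S d ζ - (Real.exp (-ε) : ℂ) * E S d ((ρ : ℂ) * ζ) := by
        rw [hid]
        ring
      have h15 : (1 - Real.exp (-ε)) * ‖E S D ζ‖ = ‖((1 - Real.exp (-ε) : ℝ) : ℂ) * E S D ζ‖ := by
        rw [norm_mul, Complex.norm_real, Real.norm_of_nonneg h1e.le]
      rw [h15, h14]
      refine (norm_sub_le _ _).trans ?_
      rw [norm_mul, Complex.norm_real, Real.norm_of_nonneg (Real.exp_pos _).le]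
      linarith
    have h16 : ε / 2 * ‖E S D ζ‖ ≤ 2 * (Real.exp A * B * Real.exp (a' * PI ζ U - b)) :=
      (mul_le_mul_of_nonneg_right h2e (norm_nonneg _)).trans h13
    have h17 : K * Real.exp (a' * PI ζ U - b)
        = 2 / ε * (2 * (Real.exp A * B * Real.exp (a' * PI ζ U - b))) := by
      rw [hK]
      field_simp
      ring
    rw [h17]
    calc ‖E S D ζ‖ = 2 / ε * (ε / 2 * ‖E S D ζ‖) := by field_simp
      _ ≤ _ := mul_le_mul_of_nonneg_left h16 (by positivity)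
  -- the maximum principle
  have hexp : ∀ ζ : ℂ, K * Real.exp (a' * PI ζ U - b)
      = Real.exp (a' * PI ζ U + (Real.log K - b)) := by
    intro ζ
    rw [← Real.exp_log hKpos, ← Real.exp_add, Real.exp_log hKpos]
    congr 1
    ring
  intro ζ hζ0 hζ
  rw [← norm_En hd' hζ0, hexp]
  refine maxp (differentiable_En S D M') hU ha'0 (Real.exp_pos _) hex1 (fun z hz => ?_) ζ hζ
  have hz0 : z ≠ 0 := by
    rw [← norm_pos_iff, hz]
    exact Real.exp_pos _
  rw [norm_En hd' hz0, ← hexp]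
  refine le_trans ?_ (hcirc z hz)
  exact mul_le_of_le_one_left (norm_nonneg _) (pow_le_one₀ (norm_nonneg _) (by rw [hz]; exact hex1.le))

end

end Pool.Agent.Helper61.HL
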