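import Pool.Agent.Helper61.HL.Fin

/-!
# Integrability of the logarithm
-/

namespace Pool.Agent.Helper61.HL

noncomputable section

open MeasureTheory AddCircle Complex Set Filter Topology

/-- Power decay of the distribution of small values gives integrability of a power of the
logarithm. -/
lemma memLp_log {g : Lp ℂ 2 mu} {p C u0 : ℝ} (hp : 0 < p) (hp1 : p ≤ 1 / 12) (hC : 0 ≤ C)
    (hu0 : 1 ≤ u0)
    (h : ∀ u : ℝ, u0 ≤ u → mu.real {θ : Ci | ‖g θ‖ ≤ Real.exp (-u) / 2} ≤ C * u ^ (-p)) :
    mu {θ : Ci | g θ = 0} = 0 ∧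
      MemLp (fun θ => Real.log ‖g θ‖) (ENNReal.ofReal (p / 2)) mu := by
  have hgm : AEStronglyMeasurable (g : Ci → ℂ) mu := Lp.aestronglyMeasurable g
  have hgi : Integrable (g : Ci → ℂ) mu := (Lp.memLp g).integrable (by norm_num)
  constructor
  · -- the zero set
    have h1 : mu.real {θ : Ci | g θ = 0} ≤ 0 := by
      have hlim : Tendsto (fun u : ℝ => C * u ^ (-p)) atTop (𝓝 (C * 0)) :=
        (tendsto_rpow_neg_atTop hp).const_mul C
      rw [mul_zero] at hlim
      refine ge_of_tendsto hlim ?_
      filter_upwards [eventually_ge_atTop u0] with u hu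
      refine (measureReal_mono fun θ hθ => ?_).trans (h u hu)
      simp only [Set.mem_ofPred_eq] at hθ ⊢
      rw [hθ, norm_zero]
      positivity
    have h2 : mu.real {θ : Ci | g θ = 0} = 0 := le_antisymm h1 measureReal_nonneg
    rw [Measure.real, ENNReal.toReal_eq_zero_iff] at h2
    exact h2.resolve_right (measure_ne_top _ _)
  · set r := p / 2 with hr
    have hr0 : 0 < r := by positivity
    have hfm : AEMeasurable (fun θ => |Real.log ‖g θ‖|) mu :=
      (Real.measurable_log.comp_aemeasurable hgm.norm.aemeasurable).norm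
    have hlm : AEStronglyMeasurable (fun θ => Real.log ‖g θ‖) mu :=
      (Real.measurable_log.comp_aemeasurable hgm.norm.aemeasurable).aestronglyMeasurable
    set T0 := u0 + 2 with hT0
    set I := ∫ θ, ‖g θ‖ ∂mu with hI
    have hI0 : 0 ≤ I := integral_nonneg fun _ => norm_nonneg _
    set D := 2 * C + I with hD
    have hD0 : 0 ≤ D := by positivity
    have htail : ∀ t : ℝ, T0 ≤ t → mu.real {θ : Ci | t < |Real.log ‖g θ‖|} ≤ D * t ^ (-p) := by
      intro t ht
      have ht2 : 2 ≤ t := by linarith
      have ht0 : 0 < t := by linarith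
      have hsub : {θ : Ci | t < |Real.log ‖g θ‖|}
          ⊆ {θ : Ci | ‖g θ‖ ≤ Real.exp (-(t - 1)) / 2} ∪ {θ : Ci | Real.exp t ≤ ‖g θ‖} := by
        intro θ hθ
        simp only [Set.mem_ofPred_eq, Set.mem_union] at hθ ⊢
        by_cases hz : ‖g θ‖ = 0
        · rw [hz, Real.log_zero, abs_zero] at hθ
          linarith
        · have hpos : 0 < ‖g θ‖ := lt_of_le_of_ne (norm_nonneg _) (Ne.symm hz)
          rcases lt_abs.mp hθ with h1 | h1
          · right
            have := (Real.lt_log_iff_exp_lt hpos).mp h1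
            exact this.le
          · left
            have h2 : Real.log ‖g θ‖ < -t := by linarith
            have h3 := (Real.log_lt_iff_lt_exp hpos).mp h2
            refine h3.le.trans ?_
            have h4 : Real.exp (-(t - 1)) = Real.exp (-t) * Real.exp 1 := by
              rw [← Real.exp_add]
              congr 1
              ring
            rw [h4]
            have h5 := Real.add_one_le_exp (1 : ℝ)
            have h6 := Real.exp_pos (-t)
            nlinarith
      have h1 := h (t - 1) (by linarith)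
      have h2 : (t - 1) ^ (-p) ≤ 2 * t ^ (-p) := by
        rw [Real.rpow_neg (by linarith), Real.rpow_neg ht0.le]
        have h3 : (t / 2) ^ p ≤ (t - 1) ^ p :=
          Real.rpow_le_rpow (by positivity) (by linarith) hp.le
        have h4 : t ^ p ≤ 2 * (t - 1) ^ p := by
          have h5 : t ^ p = 2 ^ p * (t / 2) ^ p := by
            rw [← Real.mul_rpow (by norm_num) (by positivity)]
            congr 1
            ring
          have h6 : (2 : ℝ) ^ p ≤ 2 := by
            calc (2 : ℝ) ^ p ≤ 2 ^ (1 : ℝ) :=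
                  Real.rpow_le_rpow_of_exponent_le (by norm_num) (by linarith)
              _ = 2 := Real.rpow_one 2
          rw [h5]
          exact mul_le_mul h6 h3 (by positivity) (by norm_num)
        have h7 : 0 < (t - 1) ^ p := Real.rpow_pos_of_pos (by linarith) p
        have h8 : 0 < t ^ p := Real.rpow_pos_of_pos ht0 p
        rw [← div_eq_mul_inv, inv_eq_one_div, div_le_div_iff₀ h7 h8, one_mul]
        exact h4
      have hmark := mul_meas_ge_le_integral_of_nonneg (μ := mu) (f := fun θ => ‖g θ‖)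
        (Filter.Eventually.of_forall fun θ => norm_nonneg _) hgi.norm (Real.exp t)
      have h3 : mu.real {θ : Ci | Real.exp t ≤ ‖g θ‖} ≤ I * t ^ (-p) := by
        have h4 : t ^ p ≤ Real.exp t := by
          calc t ^ p ≤ t ^ (1 : ℝ) := Real.rpow_le_rpow_of_exponent_le (by linarith) (by linarith)
            _ = t := Real.rpow_one t
            _ ≤ Real.exp t := by
                have := Real.add_one_le_exp t
                linarith
        have h8 : 0 < t ^ p := Real.rpow_pos_of_pos ht0 p
        rw [Real.rpow_neg ht0.le, ← div_eq_mul_inv, le_div_iff₀ h8]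
        have h9 : 0 ≤ mu.real {θ : Ci | Real.exp t ≤ ‖g θ‖} := measureReal_nonneg
        calc mu.real {θ : Ci | Real.exp t ≤ ‖g θ‖} * t ^ p
            ≤ mu.real {θ : Ci | Real.exp t ≤ ‖g θ‖} * Real.exp t :=
              mul_le_mul_of_nonneg_left h4 h9
          _ = Real.exp t * mu.real {θ : Ci | Real.exp t ≤ ‖g θ‖} := mul_comm _ _
          _ ≤ I := hmark
      calc mu.real {θ : Ci | t < |Real.log ‖g θ‖|}
          ≤ mu.real ({θ : Ci | ‖g θ‖ ≤ Real.exp (-(t - 1)) / 2} ∪ {θ : Ci | Real.exp t ≤ ‖g θ‖}) :=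
            measureReal_mono hsub
        _ ≤ mu.real {θ : Ci | ‖g θ‖ ≤ Real.exp (-(t - 1)) / 2}
            + mu.real {θ : Ci | Real.exp t ≤ ‖g θ‖} := measureReal_union_le _ _
        _ ≤ C * (2 * t ^ (-p)) + I * t ^ (-p) :=
            add_le_add (h1.trans (mul_le_mul_of_nonneg_left h2 hC)) h3
        _ = D * t ^ (-p) := by
            rw [hD]
            ring
    have hfin : ∫⁻ θ, ENNReal.ofReal (|Real.log ‖g θ‖| ^ r) ∂mu < ⊤ := by
      rw [lintegral_rpow_eq_lintegral_meas_lt_mul mu
        (Filter.Eventually.of_forall fun θ => abs_nonneg _) hfm hr0]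
      refine ENNReal.mul_lt_top ENNReal.ofReal_lt_top ?_
      have hun : Ioi (0 : ℝ) = Ioc 0 T0 ∪ Ioi T0 := by
        rw [Ioc_union_Ioi_eq_Ioi (by linarith)]
      rw [hun]
      refine (lintegral_union_le _ _ _).trans_lt (ENNReal.add_lt_top.mpr ⟨?_, ?_⟩)
      · have hi : IntegrableOn (fun t : ℝ => t ^ (r - 1)) (Ioc 0 T0) :=
          (intervalIntegral.intervalIntegrable_rpow' (a := 0) (b := T0) (r := r - 1)
            (by linarith)).1
        refine lt_of_le_of_lt (setLIntegral_mono' measurableSet_Ioc fun t ht => ?_)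
          hi.lintegral_lt_top
        calc mu {a : Ci | t < |Real.log ‖g a‖|} * ENNReal.ofReal (t ^ (r - 1))
            ≤ 1 * ENNReal.ofReal (t ^ (r - 1)) := by
              gcongr
              exact prob_le_one
          _ = ENNReal.ofReal (t ^ (r - 1)) := one_mul _
      · have hi : IntegrableOn (fun t : ℝ => D * t ^ (r - 1 - p)) (Ioi T0) :=
          (integrableOn_Ioi_rpow_of_lt (by linarith) (by linarith)).const_mul D
        refine lt_of_le_of_lt (setLIntegral_mono' measurableSet_Ioi fun t ht => ?_)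
          hi.lintegral_lt_top
        have ht' : T0 < t := ht
        have ht0 : 0 < t := by linarith
        have h1 := htail t ht'.le
        have h2 : mu {a : Ci | t < |Real.log ‖g a‖|} ≤ ENNReal.ofReal (D * t ^ (-p)) := by
          rw [← ENNReal.ofReal_toReal (measure_ne_top mu {a : Ci | t < |Real.log ‖g a‖|})]
          exact ENNReal.ofReal_le_ofReal h1
        calc mu {a : Ci | t < |Real.log ‖g a‖|} * ENNReal.ofReal (t ^ (r - 1))
            ≤ ENNReal.ofReal (D * t ^ (-p)) * ENNReal.ofReal (t ^ (r - 1)) := by gcongr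
          _ = ENNReal.ofReal (D * t ^ (r - 1 - p)) := by
              rw [← ENNReal.ofReal_mul (by positivity), mul_assoc, ← Real.rpow_add ht0]
              congr 3
              ring
    refine ⟨hlm, ?_⟩
    have hne0 : ENNReal.ofReal r ≠ 0 := by
      rw [Ne, ENNReal.ofReal_eq_zero, not_le]
      exact hr0
    rw [eLpNorm_lt_top_iff_lintegral_rpow_enorm_lt_top hne0 ENNReal.ofReal_ne_top,
      ENNReal.toReal_ofReal hr0.le]
    refine lt_of_le_of_lt (le_of_eq ?_) hfin
    refine lintegral_congr fun θ => ?_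
    rw [Real.enorm_eq_ofReal_abs, ENNReal.ofReal_rpow_of_nonneg (abs_nonneg _) hr0.le]

/-- Half-lacunary series have a logarithm in `L^r`, with an exponent depending only on a lower
bound for the gap ratio. -/
theorem log_integrable {q : ℝ} (hq : 1 < q) : ∃ r : ℝ, 0 < r ∧
    ∀ (n : ℕ → ℤ), (∀ k, n k < 0) → (∀ᶠ k in atTop, q ≤ (n (k + 1) : ℝ) / (n k : ℝ)) →
    ∀ g : Lp ℂ 2 mu, (∀ j : ℤ, j < 0 → (∀ k, n k ≠ j) → fourierCoeff g j = 0) → g ≠ 0 →
      mu {θ : Ci | g θ = 0} = 0 ∧ MemLp (fun θ => Real.log ‖g θ‖) (ENNReal.ofReal r) mu := by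
  obtain ⟨p, hp, hp12, hmain⟩ := dist_lp hq
  refine ⟨p / 2, by positivity, fun n hneg hlac g hc hg => ?_⟩
  obtain ⟨m, t, j0, hL, hSp, hne⟩ := reduction hq n hneg hlac g hc hg
  obtain ⟨C, u0, hC, hu0, hdist⟩ := hmain m hL g t j0 hSp hne
  exact memLp_log hp hp12 hC hu0 hdist

end

end Pool.Agent.Helper61.HL
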