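import Pool.Agent.Helper61.HL.State

/-!
# Selection of the next state
-/

namespace Pool.Agent.Helper61.HL

noncomputable section

open Finset

/-- Tails of the squared negative coefficients. -/
def tl (m : ℕ → ℕ) (c : ℤ → ℂ) (K j : ℕ) : ℝ := ∑ i ∈ Icc j K, ‖c (-(m i : ℤ))‖ ^ 2

lemma tl_nonneg (m : ℕ → ℕ) (c : ℤ → ℂ) (K j : ℕ) : 0 ≤ tl m c K j :=
  Finset.sum_nonneg fun _ _ => sq_nonneg _

lemma tl_anti (m : ℕ → ℕ) (c : ℤ → ℂ) (K : ℕ) {i j : ℕ} (h : i ≤ j) : tl m c K j ≤ tl m c K i := by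
  refine Finset.sum_le_sum_of_subset_of_nonneg (fun x hx => ?_) fun _ _ _ => sq_nonneg _
  rw [Finset.mem_Icc] at hx ⊢
  omega

lemma tl_zero (m : ℕ → ℕ) (c : ℤ → ℂ) {K j : ℕ} (h : K < j) : tl m c K j = 0 := by
  unfold tl
  rw [Finset.Icc_eq_empty (by omega), Finset.sum_empty]

lemma tl_split (m : ℕ → ℕ) (c : ℤ → ℂ) {K p r : ℕ} (h : p ≤ r) (hr : r ≤ K) :
    ∑ i ∈ Ioc p r, ‖c (-(m i : ℤ))‖ ^ 2 + tl m c K (r + 1) = tl m c K (p + 1) := by
  unfold tl
  rw [← Finset.sum_union]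
  · congr 1
    ext x
    simp only [mem_union, mem_Ioc, mem_Icc]
    omega
  · rw [Finset.disjoint_left]
    intro x hx hx'
    rw [Finset.mem_Ioc] at hx
    rw [Finset.mem_Icc] at hx'
    omega

lemma tl_le_Ico (m : ℕ → ℕ) (c : ℤ → ℂ) (K p I : ℕ) :
    tl m c K p ≤ ∑ i ∈ Ico p (p + I), ‖c (-(m i : ℤ))‖ ^ 2 + tl m c K (p + I) := by
  unfold tl
  rw [← Finset.sum_union]
  · refine Finset.sum_le_sum_of_subset_of_nonneg (fun x hx => ?_) fun _ _ _ => sq_nonneg _
    simp only [mem_union, mem_Ico, mem_Icc] at hx ⊢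
    omega
  · rw [Finset.disjoint_left]
    intro x hx hx'
    rw [Finset.mem_Ico] at hx
    rw [Finset.mem_Icc] at hx'
    omega

/-- States from which the construction can be continued. -/
structure VS (m : ℕ → ℕ) (c : ℤ → ℂ) (K : ℕ) (k l : ℕ) (b : ℝ) : Prop where
  hkl : k ≤ l
  sq_le : ((l - k : ℕ) : ℝ) ^ 2 ≤ b
  le_sq : b ≤ ((l + 1 - k : ℕ) : ℝ) ^ 2
  tail : tl m c K (l + 1) = Real.exp (-(2 * b))

/-- Terminal states. -/
structure SVS (m : ℕ → ℕ) (c : ℤ → ℂ) (K : ℕ) (k l : ℕ) (b : ℝ) : Prop where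
  hkl : k ≤ l
  sq_le : ((l - k : ℕ) : ℝ) ^ 2 ≤ b
  tail : tl m c K (l + 1) ≤ Real.exp (-(2 * b))

lemma VS.lt_K {m : ℕ → ℕ} {c : ℤ → ℂ} {K k l : ℕ} {b : ℝ} (h : VS m c K k l b) : l + 1 ≤ K := by
  by_contra h1
  have h2 := h.tail
  rw [tl_zero m c (by omega)] at h2
  exact (Real.exp_pos _).ne h2

/-- Existence of a valid state starting at the index `k'`. -/
lemma exists_VS {m : ℕ → ℕ} {c : ℤ → ℂ} {K k' : ℕ} {B : ℝ} (hB : 0 ≤ B)
    (hlt : ∀ j, k' < j → tl m c K j ≤ Real.exp (-(2 * B)))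
    (h : ∃ j, k' < j ∧ Real.exp (-(2 * ((j - k' : ℕ) : ℝ) ^ 2)) ≤ tl m c K j) :
    ∃ l' b', VS m c K k' l' b' ∧ B ≤ b' ∧
      (∀ j, k' < j → Real.exp (-(2 * ((j - k' : ℕ) : ℝ) ^ 2)) ≤ tl m c K j →
        tl m c K j ≤ Real.exp (-(2 * b'))) := by
  classical
  obtain ⟨h1, h2⟩ := Nat.find_spec h
  set j0 := Nat.find h with hj0
  have hmin : ∀ j, j < j0 → ¬ (k' < j ∧ Real.exp (-(2 * ((j - k' : ℕ) : ℝ) ^ 2)) ≤ tl m c K j) :=
    fun j hj => Nat.find_min h hj
  have ht0 : 0 < tl m c K j0 := (Real.exp_pos _).trans_le h2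
  set b' := -(1 / 2) * Real.log (tl m c K j0) with hb'
  have hexp : tl m c K j0 = Real.exp (-(2 * b')) := by
    rw [hb']
    have : -(2 * (-(1 / 2) * Real.log (tl m c K j0))) = Real.log (tl m c K j0) := by ring
    rw [this, Real.exp_log ht0]
  have hBb' : B ≤ b' := by
    have h3 := hlt j0 h1
    rw [hexp, Real.exp_le_exp] at h3
    linarith
  refine ⟨j0 - 1, b', ⟨by omega, ?_, ?_, ?_⟩, hBb', ?_⟩
  · by_cases h3 : k' < j0 - 1
    · have h4 := hmin (j0 - 1) (by omega)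
      push Not at h4
      have h5 := h4 h3
      have h6 : tl m c K j0 ≤ tl m c K (j0 - 1) := tl_anti m c K (by omega)
      have h7 := h6.trans_lt h5
      rw [hexp, Real.exp_lt_exp] at h7
      linarith
    · have h4 : j0 - 1 - k' = 0 := by omega
      rw [h4]
      simp only [Nat.cast_zero, ne_eq, OfNat.ofNat_ne_zero, not_false_eq_true, zero_pow]
      linarith
  · rw [hexp, Real.exp_le_exp] at h2
    rw [show j0 - 1 + 1 = j0 by omega]
    linarith
  · rw [show j0 - 1 + 1 = j0 by omega]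
    exact hexp
  · intro j hj1 hj2
    have h3 : j0 ≤ j := by
      by_contra h4
      exact hmin j (by omega) ⟨hj1, hj2⟩
    rw [← hexp]
    exact tl_anti m c K h3

/-- Existence of a terminal state starting at the index `i`. -/
lemma exists_SVS {m : ℕ → ℕ} {c : ℤ → ℂ} {K i : ℕ} {u : ℝ} (hu : 0 ≤ u)
    (h : ∀ j, i < j → Real.exp (-(2 * ((j - i : ℕ) : ℝ) ^ 2)) ≤ tl m c K j →
        tl m c K j ≤ Real.exp (-(2 * u))) :
    ∃ l', SVS m c K i l' u := by
  classical
  have hex : ∃ j, i < j ∧ tl m c K j ≤ Real.exp (-(2 * u)) :=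
    ⟨max i K + 1, by omega, by rw [tl_zero m c (by omega)]; exact (Real.exp_pos _).le⟩
  obtain ⟨h1, h2⟩ := Nat.find_spec hex
  set j1 := Nat.find hex with hj1
  have hmin : ∀ j, j < j1 → ¬ (i < j ∧ tl m c K j ≤ Real.exp (-(2 * u))) :=
    fun j hj => Nat.find_min hex hj
  refine ⟨j1 - 1, by omega, ?_, by rwa [show j1 - 1 + 1 = j1 by omega]⟩
  by_cases h3 : i < j1 - 1
  · have h4 := hmin (j1 - 1) (by omega)
    push Not at h4
    have h5 := h4 h3
    have h6 : tl m c K (j1 - 1) < Real.exp (-(2 * ((j1 - 1 - i : ℕ) : ℝ) ^ 2)) := by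
      by_contra h7
      push Not at h7
      have := h (j1 - 1) h3 h7
      linarith
    have h7 := h5.trans h6
    rw [Real.exp_lt_exp] at h7
    linarith
  · have h4 : j1 - 1 - i = 0 := by omega
    rw [h4]
    simpa using hu

/-- Selection of the next state. -/
lemma next_state {q : ℝ} {m : ℕ → ℕ} (hL : Lac q m) {c : ℤ → ℂ} {K k l : ℕ} {b lam Lam u : ℝ}
    (hcK : ∀ n : ℤ, n < -(m K : ℤ) → c n = 0) (hV : VS m c K k l b) (hb : 16 ≤ b)
    (hlam : 2 ≤ lam) (hLam : 2 * lam ≤ Lam) (hu : Lam * b ≤ u) :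
    (∃ k' l' b', l < k' ∧ k' ≤ K ∧ VS m c K k' l' b' ∧ lam * b ≤ b' ∧ b' ≤ Lam * b ∧
      Real.exp (-(2 * b)) / 2 ≤ ∑ i ∈ Ioc l k', ‖c (-(m i : ℤ))‖ ^ 2) ∨
    (∃ k' l' b', l < k' ∧ k' ≤ K ∧ VS m c K k' l' b' ∧ Lam * b ≤ b' ∧ b' ≤ u ∧
      Real.exp (-(2 * lam * b)) ≤ ‖c (-(m k' : ℤ))‖) ∨
    (∃ k' l', l < k' ∧ k' ≤ K ∧ SVS m c K k' l' u ∧
      Real.exp (-(2 * lam * b)) ≤ ‖c (-(m k' : ℤ))‖) := by
  classical
  have hb0 : 0 < b := by linarith
  set y := lam * b with hy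
  have hy32 : 32 ≤ y := by nlinarith
  have hyLam : 2 * y ≤ Lam * b := by nlinarith
  have hlK := hV.lt_K
  set Pk : ℕ → Prop := fun j => Real.exp (-(2 * y)) ≤ tl m c K j with hPk
  have hPl : Pk (l + 1) := by
    simp only [hPk]
    rw [hV.tail, Real.exp_le_exp]
    nlinarith
  set k' := Nat.findGreatest Pk K with hk'
  have hlk' : l + 1 ≤ k' := Nat.le_findGreatest hlK hPl
  have hk'K : k' ≤ K := Nat.findGreatest_le K
  have hPk' : Pk k' := Nat.findGreatest_spec hlK hPl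
  have hgt : ∀ j, k' < j → tl m c K j < Real.exp (-(2 * y)) := by
    intro j hj
    rcases Nat.lt_or_ge K j with h | h
    · rw [tl_zero m c h]
      exact Real.exp_pos _
    · have := Nat.findGreatest_is_greatest hj h
      simp only [hPk] at this
      push Not at this
      exact this
  by_cases hN : ∃ j, (k' < j ∧ Real.exp (-(2 * ((j - k' : ℕ) : ℝ) ^ 2)) ≤ tl m c K j) ∧
      Real.exp (-(2 * (Lam * b))) ≤ tl m c K j
  · obtain ⟨j, hj1, hj2⟩ := hN
    obtain ⟨l', b', hVS, hBb', hall⟩ := exists_VS (m := m) (c := c) (K := K) (k' := k') (B := y)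
      (by linarith) (fun j hj => (hgt j hj).le) ⟨j, hj1⟩
    left
    refine ⟨k', l', b', by omega, hk'K, hVS, hBb', ?_, ?_⟩
    · have h1 := hj2.trans (hall j hj1.1 hj1.2)
      rw [Real.exp_le_exp] at h1
      linarith
    · have h1 := tl_split m c (show l ≤ k' by omega) hk'K
      have h2 := hgt (k' + 1) (Nat.lt_succ_self _)
      rw [hV.tail] at h1
      have h3 : Real.exp (-(2 * y)) ≤ Real.exp (-(2 * b)) / 2 := by
        have h4 : Real.exp (-(2 * y)) ≤ Real.exp (-(2 * b)) * Real.exp (-1) := by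
          rw [← Real.exp_add, Real.exp_le_exp]
          nlinarith
        have h5 : Real.exp (-1) ≤ 1 / 2 := by
          rw [Real.exp_neg, inv_le_comm₀ (Real.exp_pos _) (by norm_num)]
          have := Real.add_one_le_exp (1 : ℝ)
          linarith
        have := mul_le_mul_of_nonneg_left h5 (Real.exp_pos (-(2 * b))).le
        linarith
      linarith
  right
  push Not at hN
  -- the jump case
  set I := ⌈Real.sqrt (2 * y)⌉₊ with hI
  have hsq : Real.sqrt (2 * y) ≤ I := Nat.le_ceil _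
  have hsq2 : 2 * y ≤ (I : ℝ) ^ 2 := by
    rw [← Real.sqrt_le_left (by positivity)]
    exact hsq
  have hI0 : 0 < I := by
    rw [hI, Nat.ceil_pos]
    positivity
  have hIle : (I : ℝ) ≤ Real.sqrt (2 * y) + 1 := (Nat.ceil_lt_add_one (Real.sqrt_nonneg _)).le
  have hsy : Real.sqrt (2 * y) ≤ y / 4 := by
    rw [Real.sqrt_le_left (by positivity)]
    nlinarith
  have htI : tl m c K (k' + I) ≤ Real.exp (-(2 * (2 * y))) := by
    by_cases h1 : Real.exp (-(2 * ((k' + I - k' : ℕ) : ℝ) ^ 2)) ≤ tl m c K (k' + I)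
    · have h2 := hN (k' + I) ⟨by omega, h1⟩
      refine h2.le.trans ?_
      rw [Real.exp_le_exp]
      linarith
    · push Not at h1
      refine h1.le.trans ?_
      rw [Real.exp_le_exp, show k' + I - k' = I by omega]
      linarith
  have hexpy : 2 * (I : ℝ) ≤ Real.exp (2 * y) := by
    have := Real.add_one_le_exp (2 * y)
    linarith
  obtain ⟨i, hi, hci⟩ : ∃ i ∈ Ico k' (k' + I), Real.exp (-(2 * y)) / (2 * I)
      ≤ ‖c (-(m i : ℤ))‖ ^ 2 := by
    by_contra hcon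
    push Not at hcon
    have h1 : ∑ i ∈ Ico k' (k' + I), ‖c (-(m i : ℤ))‖ ^ 2
        < ∑ _i ∈ Ico k' (k' + I), Real.exp (-(2 * y)) / (2 * I) := by
      refine Finset.sum_lt_sum_of_nonempty ?_ hcon
      rw [Finset.nonempty_Ico]
      omega
    rw [Finset.sum_const, Nat.card_Ico, nsmul_eq_mul, show k' + I - k' = I by omega] at h1
    have h2 : (I : ℝ) * (Real.exp (-(2 * y)) / (2 * I)) = Real.exp (-(2 * y)) / 2 := by
      have : (I : ℝ) ≠ 0 := by positivity
      field_simp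
    rw [h2] at h1
    have h3 := tl_le_Ico m c K k' I
    have h4 : Real.exp (-(2 * y)) ≤ tl m c K k' := hPk'
    have h5 : Real.exp (-(2 * (2 * y))) ≤ Real.exp (-(2 * y)) / 2 := by
      have h6 : Real.exp (-(2 * (2 * y))) ≤ Real.exp (-(2 * y)) * Real.exp (-1) := by
        rw [← Real.exp_add, Real.exp_le_exp]
        linarith
      have h7 : Real.exp (-1) ≤ 1 / 2 := by
        rw [Real.exp_neg, inv_le_comm₀ (Real.exp_pos _) (by norm_num)]
        have := Real.add_one_le_exp (1 : ℝ)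
        linarith
      have := mul_le_mul_of_nonneg_left h7 (Real.exp_pos (-(2 * y))).le
      linarith
    linarith
  have hi' := Finset.mem_Ico.mp hi
  have hci' : Real.exp (-(2 * lam * b)) ≤ ‖c (-(m i : ℤ))‖ := by
    refine le_of_sq_le_sq (le_trans ?_ hci) (norm_nonneg _)
    rw [le_div_iff₀ (by positivity), ← Real.exp_nat_mul]
    calc Real.exp ((2 : ℕ) * -(2 * lam * b)) * (2 * I)
        ≤ Real.exp ((2 : ℕ) * -(2 * lam * b)) * Real.exp (2 * y) :=
          mul_le_mul_of_nonneg_left hexpy (Real.exp_pos _).le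
      _ = Real.exp (-(2 * y)) := by
          rw [← Real.exp_add]
          congr 1
          rw [hy]
          push_cast
          ring
  have hiK : i ≤ K := by
    by_contra h1
    push Not at h1
    have h2 := hL.mono h1
    have h3 := hcK (-(m i : ℤ)) (by omega)
    rw [h3, norm_zero] at hci'
    exact absurd hci' (not_le.mpr (Real.exp_pos _))
  have hN' : ∀ j, i < j → Real.exp (-(2 * ((j - i : ℕ) : ℝ) ^ 2)) ≤ tl m c K j →
      tl m c K j ≤ Real.exp (-(2 * (Lam * b))) := by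
    intro j hj1 hj2
    refine (hN j ⟨by omega, le_trans ?_ hj2⟩).le
    rw [Real.exp_le_exp]
    have h1 : ((j - i : ℕ) : ℝ) ≤ ((j - k' : ℕ) : ℝ) := by
      exact_mod_cast (show j - i ≤ j - k' by omega)
    have h2 := pow_le_pow_left₀ (Nat.cast_nonneg _) h1 2
    linarith
  have hu0 : 0 ≤ u := by nlinarith
  by_cases hex : ∃ j, i < j ∧ Real.exp (-(2 * ((j - i : ℕ) : ℝ) ^ 2)) ≤ tl m c K j
  · obtain ⟨l', b', hVS, hBb', hall⟩ := exists_VS (m := m) (c := c) (K := K) (k' := i) (B := 0)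
      le_rfl (fun j hj => by
        refine (hgt j (by omega)).le.trans ?_
        rw [Real.exp_le_exp]
        linarith) hex
    have hLb' : Lam * b ≤ b' := by
      have h1 := hN' (l' + 1) (by have := hVS.hkl; omega) (by
        rw [hVS.tail, Real.exp_le_exp]
        have := hVS.le_sq
        linarith)
      rw [hVS.tail, Real.exp_le_exp] at h1
      linarith
    by_cases hbu : b' ≤ u
    · left
      exact ⟨i, l', b', by omega, hiK, hVS, hLb', hbu, hci'⟩
    · right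
      push Not at hbu
      obtain ⟨l'', hS⟩ := exists_SVS (m := m) (c := c) (K := K) (i := i) hu0 (fun j hj1 hj2 => by
        refine (hall j hj1 hj2).trans ?_
        rw [Real.exp_le_exp]
        linarith)
      exact ⟨i, l'', by omega, hiK, hS, hci'⟩
  · right
    obtain ⟨l'', hS⟩ := exists_SVS (m := m) (c := c) (K := K) (i := i) hu0 (fun j hj1 hj2 =>
      absurd ⟨j, hj1, hj2⟩ hex)
    exact ⟨i, l'', by omega, hiK, hS, hci'⟩

end

end Pool.Agent.Helper61.HL
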