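import Pool.Agent.Helper61.HL.Avg

/-!
# Bounds for the multipliers
-/

namespace Pool.Agent.Helper61.HL

noncomputable section

open MeasureTheory AddCircle Complex Finset

lemma kap_nonneg {ε x : ℝ} (hε : 0 < ε) (hx : 0 ≤ x) : 0 ≤ kap ε x := by
  unfold kap
  refine div_nonneg ?_ (one_sub_exp_pos hε).le
  have : Real.exp (-(ε * x)) ≤ 1 := by
    rw [Real.exp_le_one_iff]
    nlinarith
  linarith

lemma kap_le_one {ε x : ℝ} (hε : 0 < ε) (hx : x ≤ 1) : kap ε x ≤ 1 := by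
  unfold kap
  rw [div_le_one (one_sub_exp_pos hε)]
  have : Real.exp (-ε) ≤ Real.exp (-(ε * x)) := by
    rw [Real.exp_le_exp]
    nlinarith
  linarith

lemma kap_ge {ε x : ℝ} (hε : 0 < ε) (hx0 : 0 ≤ x) (hx1 : x ≤ 1) : x ≤ kap ε x := by
  unfold kap
  rw [le_div_iff₀ (one_sub_exp_pos hε)]
  have hconv := convexOn_exp.2 (Set.mem_univ (-ε)) (Set.mem_univ (0 : ℝ))
    hx0 (show 0 ≤ 1 - x by linarith) (by ring)
  simp only [smul_eq_mul, mul_zero, add_zero, Real.exp_zero, mul_one] at hconv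
  have h2 : x * -ε = -(ε * x) := by ring
  rw [h2] at hconv
  linarith

lemma kap_le {ε x : ℝ} (hε : 0 < ε) (hx1 : 1 ≤ x) : kap ε x ≤ x := by
  unfold kap
  rw [div_le_iff₀ (one_sub_exp_pos hε)]
  have hx0 : 0 < x := by linarith
  have hconv := convexOn_exp.2 (Set.mem_univ (-(ε * x))) (Set.mem_univ (0 : ℝ))
    (show 0 ≤ 1 / x by positivity) (show 0 ≤ 1 - 1 / x by
      rw [sub_nonneg, div_le_one hx0]
      exact hx1) (by ring)
  simp only [smul_eq_mul, mul_zero, add_zero, Real.exp_zero, mul_one] at hconv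
  have h2 : 1 / x * -(ε * x) = -ε := by field_simp
  rw [h2] at hconv
  have h3 := mul_le_mul_of_nonneg_left hconv hx0.le
  have h4 : x * (1 / x * Real.exp (-(ε * x)) + (1 - 1 / x)) = Real.exp (-(ε * x)) + x - 1 := by
    field_simp
    ring
  rw [h4] at h3
  linarith

lemma Mu_pos_bound {q : ℝ} {m : ℕ → ℕ} (hL : Lac q m) {ε : ℝ} (hε : 0 < ε) (k l : ℕ) {n : ℤ}
    (hn : 0 ≤ n) : 0 ≤ Mu m ε (Ioc k l) n ∧
      Mu m ε (Ioc k l) n ≤ Real.exp (n * ∑ j ∈ Ioc k l, (1 : ℝ) / m j) := by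
  have hn' : (0 : ℝ) ≤ n := by exact_mod_cast hn
  have h1 : ∀ j, (1 : ℝ) ≤ 1 + n / m j := fun j => by
    have : (0 : ℝ) ≤ n / m j := div_nonneg hn' (hL.posR j).le
    linarith
  constructor
  · exact Finset.prod_nonneg fun j _ => kap_nonneg hε (by linarith [h1 j])
  · rw [Finset.mul_sum, Real.exp_sum]
    refine Finset.prod_le_prod (fun j _ => kap_nonneg hε (by linarith [h1 j])) fun j _ => ?_
    refine (kap_le hε (h1 j)).trans ?_
    have := Real.add_one_le_exp ((n : ℝ) * (1 / m j))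
    have h2 : (n : ℝ) * (1 / m j) = n / m j := by ring
    rw [h2] at this ⊢
    linarith

lemma neg_arg {q : ℝ} {m : ℕ → ℕ} (hL : Lac q m) {k j : ℕ} (hj : k < j) {n : ℤ}
    (hn : -(m k : ℤ) ≤ n) (hn0 : n ≤ 0) :
    0 ≤ (1 : ℝ) + n / m j ∧ (1 : ℝ) + n / m j ≤ 1 := by
  have h0 : (n : ℝ) ≤ 0 := by exact_mod_cast hn0
  have h1 : -(m k : ℝ) ≤ n := by exact_mod_cast hn
  have h2 : (m k : ℝ) ≤ m j := by exact_mod_cast (hL.mono hj).le
  have h3 : -1 ≤ (n : ℝ) / m j := by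
    rw [le_div_iff₀ (hL.posR j)]
    linarith
  have h4 : (n : ℝ) / m j ≤ 0 := div_nonpos_of_nonpos_of_nonneg h0 (hL.posR j).le
  constructor <;> linarith

lemma Mu_neg_bound {q : ℝ} {m : ℕ → ℕ} (hL : Lac q m) {ε : ℝ} (hε : 0 < ε) (k l : ℕ) {n : ℤ}
    (hn : -(m k : ℤ) ≤ n) (hn0 : n ≤ 0) : 0 ≤ Mu m ε (Ioc k l) n ∧ Mu m ε (Ioc k l) n ≤ 1 := by
  constructor
  · refine Finset.prod_nonneg fun j hj => kap_nonneg hε ?_
    exact (neg_arg hL (Finset.mem_Ioc.mp hj).1 hn hn0).1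
  · refine Finset.prod_le_one (fun j hj => kap_nonneg hε ?_) fun j hj => kap_le_one hε ?_
    · exact (neg_arg hL (Finset.mem_Ioc.mp hj).1 hn hn0).1
    · exact (neg_arg hL (Finset.mem_Ioc.mp hj).1 hn hn0).2

/-- Lower bound for the multiplier at the remaining negative frequencies. -/
lemma Mu_low {q : ℝ} {m : ℕ → ℕ} (hL : Lac q m) {ε : ℝ} (hε : 0 < ε) (k l : ℕ) {j : ℕ}
    (hj : j ≤ k) : Real.exp (-(Aq q) ^ 2) ≤ Mu m ε (Ioc k l) (-(m j : ℤ)) := by
  have hA := Aq_gt hL.one_lt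
  have hq0 : 0 < q := by linarith [hL.one_lt]
  have hAq := Aq_mul hL.one_lt
  calc Real.exp (-(Aq q) ^ 2) ≤ Real.exp (∑ i ∈ Ioc k l, -(Aq q * m j * (1 / m i))) := by
        rw [Real.exp_le_exp, Finset.sum_neg_distrib, neg_le_neg_iff, ← Finset.mul_sum]
        have h1 := hL.sum_inv_le k l
        have h2 : (m j : ℝ) ≤ m (k + 1) := by
          exact_mod_cast hL.mono.monotone (show j ≤ k + 1 by omega)
        calc Aq q * m j * ∑ i ∈ Ioc k l, (1 : ℝ) / m i ≤ Aq q * m j * (Aq q / m (k + 1)) :=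
              mul_le_mul_of_nonneg_left h1 (mul_nonneg (by linarith) (hL.posR j).le)
          _ = Aq q ^ 2 * (m j / m (k + 1)) := by ring
          _ ≤ Aq q ^ 2 * 1 := by
              refine mul_le_mul_of_nonneg_left ?_ (by positivity)
              rw [div_le_one (hL.posR _)]
              exact h2
          _ = Aq q ^ 2 := mul_one _
    _ = ∏ i ∈ Ioc k l, Real.exp (-(Aq q * m j * (1 / m i))) := Real.exp_sum _ _
    _ ≤ Mu m ε (Ioc k l) (-(m j : ℤ)) := by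
        refine Finset.prod_le_prod (fun i _ => (Real.exp_pos _).le) fun i hi => ?_
        have hki := (Finset.mem_Ioc.mp hi).1
        have hmi := hL.posR i
        have hmj := hL.posR j
        have h3 : q * m j ≤ m i := by
          refine (hL.step j).trans ?_
          exact_mod_cast hL.mono.monotone (show j + 1 ≤ i by omega)
        set y := (m j : ℝ) / m i with hy
        have hy0 : 0 < y := div_pos hmj hmi
        have hyq : y ≤ 1 / q := by
          rw [hy, div_le_div_iff₀ hmi hq0]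
          linarith
        have h1y : 1 / Aq q ≤ 1 - y := by
          rw [div_le_iff₀ (by linarith)]
          nlinarith
        have hpos : 0 < 1 - y := lt_of_lt_of_le (by positivity) h1y
        have harg : (1 : ℝ) + ((-(m j : ℤ) : ℤ) : ℝ) / m i = 1 - y := by
          rw [hy]
          push_cast
          ring
        rw [harg]
        refine le_trans ?_ (kap_ge hε hpos.le (by linarith))
        have h4 : Aq q * m j * (1 / m i) = Aq q * y := by
          rw [hy]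
          ring
        rw [h4]
        -- `exp (-A y) ≤ 1 - y`
        have h5 : 1 / (1 - y) ≤ Real.exp (Aq q * y) := by
          have h6 := Real.add_one_le_exp (Aq q * y)
          refine le_trans ?_ h6
          rw [div_le_iff₀ hpos]
          have h7 : 1 ≤ Aq q * (1 - y) := by
            rw [div_le_iff₀ (by linarith)] at h1y
            linarith
          nlinarith
        rw [Real.exp_neg, inv_le_comm₀ (Real.exp_pos _) hpos, ← one_div]
        exact h5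

/-- Upper bound for the multiplier of a state on its circle. -/
lemma mult_bound {q : ℝ} {m : ℕ → ℕ} (hL : Lac q m) {ε h' : ℝ} (hε : 0 < ε) {k l : ℕ}
    (h0 : 0 ≤ h') (h1 : h' ≤ Aq q / m k) (h2 : k < l → Aq q / m (k + 1) ≤ h') {n : ℤ}
    (hn : -(m k : ℤ) ≤ n) :
    0 ≤ Mu m ε (Ioc k l) n ∧ Mu m ε (Ioc k l) n * Real.exp (-(h' * n)) ≤ Real.exp (Aq q) := by
  have hA := Aq_gt hL.one_lt
  rcases le_total 0 n with h | h
  · have hn' : (0 : ℝ) ≤ n := by exact_mod_cast h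
    obtain ⟨h3, h4⟩ := Mu_pos_bound hL hε k l h
    refine ⟨h3, ?_⟩
    rcases Nat.lt_or_ge k l with hkl | hkl
    · have h5 := h2 hkl
      have h6 := hL.sum_inv_le k l
      calc Mu m ε (Ioc k l) n * Real.exp (-(h' * n))
          ≤ Real.exp (n * ∑ j ∈ Ioc k l, (1 : ℝ) / m j) * Real.exp (-(h' * n)) :=
            mul_le_mul_of_nonneg_right h4 (Real.exp_pos _).le
        _ = Real.exp (n * ∑ j ∈ Ioc k l, (1 : ℝ) / m j + -(h' * n)) := by rw [← Real.exp_add]
        _ ≤ Real.exp (Aq q) := by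
            rw [Real.exp_le_exp]
            nlinarith
    · rw [Finset.Ioc_eq_empty (by omega)]
      unfold Mu
      rw [Finset.prod_empty, one_mul, Real.exp_le_exp]
      nlinarith
  · obtain ⟨h3, h4⟩ := Mu_neg_bound hL hε k l hn h
    refine ⟨h3, ?_⟩
    have h5 : Real.exp (-(h' * n)) ≤ Real.exp (Aq q) := by
      rw [Real.exp_le_exp]
      have h6 : -(m k : ℝ) ≤ n := by exact_mod_cast hn
      have hmk := hL.posR k
      have h7 : h' * m k ≤ Aq q := by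
        rw [le_div_iff₀ hmk] at h1
        exact h1
      nlinarith
    calc Mu m ε (Ioc k l) n * Real.exp (-(h' * n)) ≤ 1 * Real.exp (-(h' * n)) :=
          mul_le_mul_of_nonneg_right h4 (Real.exp_pos _).le
      _ ≤ Real.exp (Aq q) := by
          rw [one_mul]
          exact h5

/-- Rescaled coefficients. -/
def sc (h' : ℝ) (c : ℤ → ℂ) (n : ℤ) : ℂ := c n * ((Real.exp (-h') : ℝ) : ℂ) ^ n

lemma norm_sc (h' : ℝ) (c : ℤ → ℂ) (n : ℤ) : ‖sc h' c n‖ = ‖c n‖ * Real.exp (-(h' * n)) := by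
  unfold sc
  rw [norm_mul, norm_zpow, Complex.norm_real, Real.norm_of_nonneg (Real.exp_pos _).le]
  congr 1
  rw [← Real.rpow_intCast, ← Real.exp_mul]
  congr 1
  ring

lemma Sp_sc {m : ℕ → ℕ} {c : ℤ → ℂ} (hc : Sp m c) (h' : ℝ) : Sp m (sc h' c) := by
  intro n hn
  exact hc n fun h => hn (by simp [sc, h])

lemma E_sc (S : Finset ℤ) (m : ℕ → ℕ) (ε h' : ℝ) (c : ℤ → ℂ) (k l : ℕ) (z : ℂ) :
    E S (gi m ε (sc h' c) k l) z = E S (gi m ε c k l) ((Real.exp (-h') : ℝ) * z) := by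
  unfold E
  refine Finset.sum_congr rfl fun n _ => ?_
  unfold gi sc
  split_ifs
  · rw [mul_zpow]
    ring
  · simp

lemma norm_F {q : ℝ} {m : ℕ → ℕ} (hL : Lac q m) {S : Finset ℤ} {c : ℤ → ℂ} {ε h' : ℝ}
    (hε : 0 < ε) {k l : ℕ} (h0 : 0 ≤ h') (h1 : h' ≤ Aq q / m k)
    (h2 : k < l → Aq q / m (k + 1) ≤ h') :
    ∑ n ∈ S, ‖gi m ε (sc h' c) k l n‖ ^ 2 ≤ Real.exp (2 * Aq q) * ∑ n ∈ S, ‖c n‖ ^ 2 := by
  rw [Finset.mul_sum]
  refine Finset.sum_le_sum fun n _ => ?_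
  unfold gi
  split_ifs with h
  · obtain ⟨h3, h4⟩ := mult_bound hL hε h0 h1 h2 h
    rw [norm_mul, norm_sc, Complex.norm_real, Real.norm_of_nonneg h3]
    calc (Mu m ε (Ioc k l) n * (‖c n‖ * Real.exp (-(h' * n)))) ^ 2
        = (Mu m ε (Ioc k l) n * Real.exp (-(h' * n))) ^ 2 * ‖c n‖ ^ 2 := by ring
      _ ≤ Real.exp (Aq q) ^ 2 * ‖c n‖ ^ 2 :=
          mul_le_mul_of_nonneg_right (pow_le_pow_left₀ (by positivity) h4 2) (by positivity)
      _ = Real.exp (2 * Aq q) * ‖c n‖ ^ 2 := by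
          rw [← Real.exp_nat_mul]
          norm_num
  · rw [norm_zero, zero_pow two_ne_zero]
    positivity

lemma norm_T {q : ℝ} {m : ℕ → ℕ} (hL : Lac q m) {S : Finset ℤ} {c : ℤ → ℂ} (hc : Sp m c)
    {ε h' : ℝ} (hε : 0 < ε) {k l p : ℕ} (h0 : 0 ≤ h') (h1 : h' ≤ Aq q / m k)
    (h2 : k < l → Aq q / m (k + 1) ≤ h') :
    ∑ n ∈ S, ‖(if -(m k : ℤ) ≤ n ∧ n < -(m p : ℤ) then
      (Mu m ε (Ioc k l) n : ℂ) * sc h' c n else 0 : ℂ)‖ ^ 2
      ≤ Real.exp (2 * Aq q) * ∑ j ∈ Ioc p k, ‖c (-(m j : ℤ))‖ ^ 2 := by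
  set T : ℤ → ℂ := fun n => (if -(m k : ℤ) ≤ n ∧ n < -(m p : ℤ) then
      (Mu m ε (Ioc k l) n : ℂ) * sc h' c n else 0 : ℂ) with hT
  set I : Finset ℤ := (Ioc p k).image (fun j => -(m j : ℤ)) with hI
  have hsupp : ∀ n, T n ≠ 0 → n ∈ I := by
    intro n hn
    simp only [hT] at hn
    split_ifs at hn with h
    · have h3 : c n ≠ 0 := fun h4 => hn (by simp [sc, h4])
      rcases hc n h3 with h5 | ⟨j, hj⟩
      · exfalso
        omega
      · rw [hI, Finset.mem_image]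
        refine ⟨j, Finset.mem_Ioc.mpr ⟨?_, ?_⟩, hj.symm⟩
        · exact hL.mono.lt_iff_lt.mp (by omega)
        · exact hL.mono.le_iff_le.mp (by omega)
    · exact absurd rfl hn
  have hle : ∀ n, ‖T n‖ ^ 2 ≤ Real.exp (2 * Aq q) * ‖c n‖ ^ 2 := by
    intro n
    simp only [hT]
    split_ifs with h
    · obtain ⟨h3, h4⟩ := mult_bound hL hε h0 h1 h2 h.1
      rw [norm_mul, norm_sc, Complex.norm_real, Real.norm_of_nonneg h3]
      calc (Mu m ε (Ioc k l) n * (‖c n‖ * Real.exp (-(h' * n)))) ^ 2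
          = (Mu m ε (Ioc k l) n * Real.exp (-(h' * n))) ^ 2 * ‖c n‖ ^ 2 := by ring
        _ ≤ Real.exp (Aq q) ^ 2 * ‖c n‖ ^ 2 :=
            mul_le_mul_of_nonneg_right (pow_le_pow_left₀ (by positivity) h4 2) (by positivity)
        _ = Real.exp (2 * Aq q) * ‖c n‖ ^ 2 := by
            rw [← Real.exp_nat_mul]
            norm_num
    · rw [norm_zero, zero_pow two_ne_zero]
      positivity
  calc ∑ n ∈ S, ‖T n‖ ^ 2 = ∑ n ∈ S.filter (· ∈ I), ‖T n‖ ^ 2 := by
        refine (Finset.sum_subset (Finset.filter_subset _ _) fun n hn hn' => ?_).symm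
        by_contra h
        have h3 : T n ≠ 0 := fun h4 => h (by rw [h4]; simp)
        exact hn' (Finset.mem_filter.mpr ⟨hn, hsupp n h3⟩)
    _ ≤ ∑ n ∈ I, ‖T n‖ ^ 2 := by
        refine Finset.sum_le_sum_of_subset_of_nonneg (fun n hn => (Finset.mem_filter.mp hn).2)
          fun n _ _ => sq_nonneg _
    _ ≤ ∑ n ∈ I, Real.exp (2 * Aq q) * ‖c n‖ ^ 2 := Finset.sum_le_sum fun n _ => hle n
    _ = Real.exp (2 * Aq q) * ∑ j ∈ Ioc p k, ‖c (-(m j : ℤ))‖ ^ 2 := by
        rw [← Finset.mul_sum, hI, Finset.sum_image]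
        intro i _ j _ hij
        exact hL.mono.injective (by simpa using hij)

/-- Lower bound for the remaining negative coefficients. -/
lemma norm_low {q : ℝ} {m : ℕ → ℕ} (hL : Lac q m) {c : ℤ → ℂ} {ε h' : ℝ}
    (hε : 0 < ε) (h0 : 0 ≤ h') {k l j : ℕ} (hj : j ≤ k) :
    Real.exp (-(Aq q) ^ 2) * ‖c (-(m j : ℤ))‖ ≤ ‖gi m ε (sc h' c) k l (-(m j : ℤ))‖ := by
  have hmj : m j ≤ m k := hL.mono.monotone hj
  have h1 := Mu_low hL hε k l hj
  unfold gi
  rw [if_pos (by omega), norm_mul, norm_sc, Complex.norm_real,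
    Real.norm_of_nonneg ((Real.exp_pos _).le.trans h1)]
  have h2 : 1 ≤ Real.exp (-(h' * ((-(m j : ℤ) : ℤ) : ℝ))) := by
    rw [Real.one_le_exp_iff]
    push_cast
    have := mul_nonneg h0 (hL.posR j).le
    linarith
  have h3 : 0 ≤ ‖c (-(m j : ℤ))‖ := norm_nonneg _
  refine mul_le_mul h1 ?_ h3 ((Real.exp_pos _).le.trans h1)
  exact le_mul_of_one_le_right h3 h2

end

end Pool.Agent.Helper61.HL
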