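import Mathlib

/-!
# Poisson kernel on the circle `ℝ/ℤ` and a Jensen type inequality
-/

namespace Pool.Agent.Helper61.HL

noncomputable section

open MeasureTheory AddCircle Complex

/-- The circle. -/
abbrev Ci : Type := AddCircle (1 : ℝ)

/-- Normalised Lebesgue measure on the circle. -/
abbrev mu : Measure Ci := haarAddCircle

/-- The point `e ^ (2 π i θ)`. -/
def ze (θ : Ci) : ℂ := fourier 1 θ

lemma ze_coe (x : ℝ) : ze (x : Ci) = Complex.exp (2 * Real.pi * Complex.I * x) := by
  rw [ze, fourier_coe_apply]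
  congr 1
  push_cast
  ring

lemma norm_ze (θ : Ci) : ‖ze θ‖ = 1 := by
  rw [ze, fourier_one]
  exact Circle.norm_coe _

lemma ze_ne (θ : Ci) : ze θ ≠ 0 := by
  intro h
  have := norm_ze θ
  rw [h, norm_zero] at this
  exact zero_ne_one this

lemma continuous_ze : Continuous ze := (fourier 1).continuous

lemma fourier_eq (n : ℤ) (θ : Ci) : (fourier n θ : ℂ) = ze θ ^ n := by
  rw [ze, fourier_one, fourier_apply, AddCircle.toCircle_zsmul, Circle.coe_zpow]

lemma conj_ze (θ : Ci) : (starRingEnd ℂ) (ze θ) = (ze θ)⁻¹ :=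
  (Complex.inv_eq_conj (norm_ze θ)).symm

lemma integral_ze {E : Type*} [NormedAddCommGroup E] [NormedSpace ℝ E] (f : ℂ → E) :
    ∫ θ, f (ze θ) ∂mu = Real.circleAverage f 0 1 := by
  rw [integral_haarAddCircle, inv_one, one_smul, ← AddCircle.intervalIntegral_preimage 1 0
    (fun θ => f (ze θ)), Real.circleAverage_def]
  have h := intervalIntegral.integral_comp_mul_left (a := 0) (b := 1)
    (fun x => f (circleMap 0 1 x)) (c := 2 * Real.pi) (by positivity)
  simp only [mul_zero, mul_one] at h
  rw [← h, zero_add]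
  refine intervalIntegral.integral_congr fun x _ => ?_
  simp only [ze_coe, circleMap, ofReal_one, one_mul, zero_add]
  congr 2
  push_cast
  ring

/-- The Poisson kernel at `w`. -/
def P (w : ℂ) (θ : Ci) : ℝ := (1 - ‖w‖ ^ 2) / ‖ze θ - w‖ ^ 2

lemma dist_pos (w : ℂ) (θ : Ci) : 1 - ‖w‖ ≤ ‖ze θ - w‖ := by
  have := norm_sub_norm_le (ze θ) w
  rwa [norm_ze] at this

lemma P_pos {w : ℂ} (hw : ‖w‖ < 1) (θ : Ci) : 0 < P w θ := by
  have h := dist_pos w θ
  have h1 : 0 < ‖ze θ - w‖ := by linarith
  have h2 : 0 < 1 - ‖w‖ ^ 2 := by nlinarith [norm_nonneg w]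
  unfold P
  positivity

lemma P_le {w : ℂ} (hw : ‖w‖ < 1) (θ : Ci) : P w θ ≤ 2 / (1 - ‖w‖) := by
  have h := dist_pos w θ
  have h0 : 0 < 1 - ‖w‖ := by linarith
  have h1 : 0 < ‖ze θ - w‖ := by linarith
  unfold P
  rw [div_le_div_iff₀ (by positivity) h0]
  have h2 : (1 - ‖w‖) ^ 2 ≤ ‖ze θ - w‖ ^ 2 := pow_le_pow_left₀ h0.le h 2
  nlinarith [norm_nonneg w, h2]

lemma continuous_P {w : ℂ} (hw : ‖w‖ < 1) : Continuous (P w) := by
  unfold P
  refine Continuous.div continuous_const ((continuous_ze.sub continuous_const).norm.pow 2) ?_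
  intro θ
  have h := dist_pos w θ
  have h1 : 0 < ‖ze θ - w‖ := by linarith
  positivity

/-- Poisson formula for entire functions. -/
lemma poisson {f : ℂ → ℂ} (hf : Differentiable ℂ f) {w : ℂ} (hw : ‖w‖ < 1) :
    ∫ θ, (P w θ : ℂ) * f (ze θ) ∂mu = f w := by
  have h := (hf.diffContOnCl (s := Metric.ball 0 1)).circleAverage_poissonKernel_smul
    (w := w) (c := 0) (R := 1) (by simpa using hw)
  rw [← integral_ze] at h
  rw [← h]
  refine integral_congr_ae (Filter.Eventually.of_forall fun θ => ?_)
  simp only [Pi.smul_apply', poissonKernel_def, sub_zero, norm_ze, P, real_smul]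
  push_cast
  ring

lemma integrable_P_mul {E : Type*} [NormedAddCommGroup E] [NormedSpace ℝ E] {w : ℂ}
    (hw : ‖w‖ < 1) {f : Ci → E} (hf : Integrable f mu) :
    Integrable (fun θ => P w θ • f θ) mu := by
  refine hf.bdd_smul (2 / (1 - ‖w‖)) (continuous_P hw).aestronglyMeasurable ?_
  refine Filter.Eventually.of_forall fun θ => ?_
  rw [Real.norm_of_nonneg (P_pos hw θ).le]
  exact P_le hw θ

lemma integral_P {w : ℂ} (hw : ‖w‖ < 1) : ∫ θ, P w θ ∂mu = 1 := by
  have h := poisson (f := fun _ => 1) (differentiable_const _) hw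
  simp only [mul_one] at h
  rw [integral_complex_ofReal] at h
  exact_mod_cast h

lemma poisson_re {f : ℂ → ℂ} (hf : Differentiable ℂ f) {w : ℂ} (hw : ‖w‖ < 1) :
    ∫ θ, P w θ * (f (ze θ)).re ∂mu = (f w).re := by
  have h := poisson hf hw
  have hc : Continuous fun θ => f (ze θ) := hf.continuous.comp continuous_ze
  have hi : Integrable (fun θ => f (ze θ)) mu :=
    hc.integrable_of_hasCompactSupport (HasCompactSupport.of_compactSpace _)
  have hi2 := integrable_P_mul hw hi
  rw [← h]
  have h2 := integral_re (𝕜 := ℂ) (μ := mu) (f := fun θ => (P w θ : ℂ) * f (ze θ)) (by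
    simpa only [real_smul] using hi2)
  simp only [RCLike.re_eq_complex_re] at h2
  rw [← h2]
  refine integral_congr_ae (Filter.Eventually.of_forall fun θ => ?_)
  simp

lemma integrable_of_cont {E : Type*} [NormedAddCommGroup E] {f : Ci → E} (hf : Continuous f) :
    Integrable f mu :=
  hf.integrable_of_hasCompactSupport (HasCompactSupport.of_compactSpace _)

lemma norm_poisson_le {f : ℂ → ℂ} (hf : Differentiable ℂ f) {w : ℂ} (hw : ‖w‖ < 1) :
    ‖f w‖ ≤ ∫ θ, P w θ * ‖f (ze θ)‖ ∂mu := by
  rw [← poisson hf hw]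
  refine (norm_integral_le_integral_norm _).trans_eq ?_
  refine integral_congr_ae (Filter.Eventually.of_forall fun θ => ?_)
  simp only [norm_mul, Complex.norm_real, Real.norm_of_nonneg (P_pos hw θ).le]

lemma trig_split {q : C(Ci, ℂ)}
    (hq : q ∈ Submodule.span ℂ (Set.range (fun n : ℤ => (fourier n : C(Ci, ℂ))))) :
    ∃ H₁ H₂ : ℂ → ℂ, Differentiable ℂ H₁ ∧ Differentiable ℂ H₂ ∧
      ∀ θ, q θ = H₁ (ze θ) + (starRingEnd ℂ) (H₂ (ze θ)) := by
  induction hq using Submodule.span_induction with
  | mem x hx =>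
      obtain ⟨n, rfl⟩ := hx
      obtain ⟨k, rfl | rfl⟩ := n.eq_nat_or_neg
      · refine ⟨fun z => z ^ k, fun _ => 0, differentiable_id.pow k, differentiable_const _, ?_⟩
        intro θ
        simp only [fourier_eq, map_zero, add_zero, zpow_natCast]
      · refine ⟨fun _ => 0, fun z => z ^ k, differentiable_const _, differentiable_id.pow k, ?_⟩
        intro θ
        simp only [fourier_eq, zero_add, map_pow, conj_ze, zpow_neg, zpow_natCast, inv_pow]
  | zero => exact ⟨fun _ => 0, fun _ => 0, differentiable_const _, differentiable_const _, by simp⟩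
  | add x y _ _ hx hy =>
      obtain ⟨A, B, hA, hB, h⟩ := hx
      obtain ⟨A', B', hA', hB', h'⟩ := hy
      refine ⟨fun z => A z + A' z, fun z => B z + B' z, hA.add hA', hB.add hB', fun θ => ?_⟩
      rw [ContinuousMap.add_apply, h, h', map_add]
      ring
  | smul c x _ hx =>
      obtain ⟨A, B, hA, hB, h⟩ := hx
      refine ⟨fun z => c * A z, fun z => (starRingEnd ℂ) c * B z, hA.const_mul c,
        hB.const_mul _, fun θ => ?_⟩
      rw [ContinuousMap.smul_apply, h, map_mul, Complex.conj_conj, smul_eq_mul]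
      ring

/-- Jensen's inequality with the Poisson kernel, for an entire function dominated by a positive
continuous function on the circle. -/
lemma jensen {f : ℂ → ℂ} (hf : Differentiable ℂ f) {v : Ci → ℝ} (hv : Continuous v)
    (hv0 : ∀ θ, 0 < v θ) (hfv : ∀ θ, ‖f (ze θ)‖ ^ 2 ≤ v θ) {w : ℂ} (hw : ‖w‖ < 1) :
    ‖f w‖ ^ 2 ≤ Real.exp (∫ θ, P w θ * Real.log (v θ) ∂mu) := by
  set I := ∫ θ, P w θ * Real.log (v θ) ∂mu with hI
  have hlog : Continuous fun θ => Real.log (v θ) := hv.log fun θ => (hv0 θ).ne'
  have key : ∀ ε : ℝ, 0 < ε → ‖f w‖ ^ 2 ≤ Real.exp (I + 4 * ε) := by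
    intro ε hε
    let u : C(Ci, ℂ) := ⟨fun θ => ((Real.log (v θ) / 2 : ℝ) : ℂ),
      Complex.continuous_ofReal.comp (hlog.div_const 2)⟩
    have hu : u ∈ (Submodule.span ℂ (Set.range
        (fun n : ℤ => (fourier n : C(Ci, ℂ))))).topologicalClosure := by
      rw [span_fourier_closure_eq_top]
      trivial
    rw [← SetLike.mem_coe, Submodule.topologicalClosure_coe, Metric.mem_closure_iff] at hu
    obtain ⟨q, hq, hqu⟩ := hu ε hε
    obtain ⟨H₁, H₂, h1, h2, h12⟩ := trig_split hq
    set H : ℂ → ℂ := fun z => H₁ z + H₂ z with hH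
    have hHd : Differentiable ℂ H := h1.add h2
    have hre : ∀ θ, |(H (ze θ)).re - Real.log (v θ) / 2| ≤ ε := by
      intro θ
      have h3 : (H (ze θ)).re = (q θ).re := by
        rw [h12, hH]
        simp
      have h4 : ‖u θ - q θ‖ ≤ ε := by
        have := ContinuousMap.dist_apply_le_dist (f := u) (g := q) θ
        rw [dist_eq_norm] at this
        linarith
      have h5 := (Complex.abs_re_le_norm (u θ - q θ)).trans h4
      rw [h3, abs_sub_comm]
      simpa [u] using h5
    set F : ℂ → ℂ := fun z => f z * Complex.exp (-H z) with hF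
    have hFd : Differentiable ℂ F := hf.mul hHd.neg.cexp
    have hFle : ∀ θ, ‖F (ze θ)‖ ≤ Real.exp ε := by
      intro θ
      rw [hF]
      simp only [norm_mul, Complex.norm_exp, neg_re]
      have h6 : ‖f (ze θ)‖ ≤ Real.exp (Real.log (v θ) / 2) := by
        have h7 : Real.exp (Real.log (v θ) / 2) ^ 2 = v θ := by
          rw [← Real.exp_nat_mul]
          push_cast
          rw [mul_div_cancel₀ _ (two_ne_zero), Real.exp_log (hv0 θ)]
        refine le_of_sq_le_sq ?_ (Real.exp_pos _).le
        rw [h7]
        exact hfv θ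
      calc ‖f (ze θ)‖ * Real.exp (-(H (ze θ)).re)
          ≤ Real.exp (Real.log (v θ) / 2) * Real.exp (-(H (ze θ)).re) :=
            mul_le_mul_of_nonneg_right h6 (Real.exp_pos _).le
        _ = Real.exp (Real.log (v θ) / 2 - (H (ze θ)).re) := by rw [← Real.exp_add, sub_eq_add_neg]
        _ ≤ Real.exp ε := by
            rw [Real.exp_le_exp]
            have := (abs_le.mp (hre θ)).1
            linarith
    have hFw : ‖F w‖ ≤ Real.exp ε := by
      refine (norm_poisson_le hFd hw).trans ?_
      have hc : Continuous fun θ => F (ze θ) := hFd.continuous.comp continuous_ze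
      calc ∫ θ, P w θ * ‖F (ze θ)‖ ∂mu ≤ ∫ θ, P w θ * Real.exp ε ∂mu := by
            refine integral_mono (integrable_of_cont ((continuous_P hw).mul hc.norm))
              (integrable_of_cont ((continuous_P hw).mul continuous_const)) fun θ => ?_
            exact mul_le_mul_of_nonneg_left (hFle θ) (P_pos hw θ).le
        _ = Real.exp ε := by rw [integral_mul_const, integral_P hw, one_mul]
    have hHw : (H w).re ≤ I / 2 + ε := by
      rw [← poisson_re hHd hw]
      calc ∫ θ, P w θ * (H (ze θ)).re ∂mu
          ≤ ∫ θ, (P w θ * Real.log (v θ)) * (1 / 2) + P w θ * ε ∂mu := by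
            refine integral_mono (integrable_of_cont ((continuous_P hw).mul
              (Complex.continuous_re.comp (hHd.continuous.comp continuous_ze))))
              (integrable_of_cont ((((continuous_P hw).mul hlog).mul continuous_const).add
                ((continuous_P hw).mul continuous_const))) fun θ => ?_
            have h8 := (abs_le.mp (hre θ)).2
            have h9 := P_pos hw θ
            simp only
            nlinarith
        _ = I / 2 + ε := by
            have i1 : Integrable (fun θ => P w θ * Real.log (v θ) * (1 / 2)) mu :=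
              integrable_of_cont (((continuous_P hw).mul hlog).mul continuous_const)
            have i2 : Integrable (fun θ => P w θ * ε) mu :=
              integrable_of_cont ((continuous_P hw).mul continuous_const)
            rw [integral_add i1 i2, integral_mul_const, integral_mul_const, integral_P hw, one_mul]
            ring
    have hfF : f w = F w * Complex.exp (H w) := by
      rw [hF]
      simp only
      rw [mul_assoc, ← Complex.exp_add, neg_add_cancel, Complex.exp_zero, mul_one]
    have h10 : ‖f w‖ ≤ Real.exp (I / 2 + 2 * ε) := by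
      rw [hfF, norm_mul, Complex.norm_exp]
      calc ‖F w‖ * Real.exp (H w).re ≤ Real.exp ε * Real.exp (I / 2 + ε) :=
            mul_le_mul hFw (Real.exp_le_exp.mpr hHw) (Real.exp_pos _).le (Real.exp_pos _).le
        _ = Real.exp (I / 2 + 2 * ε) := by
            rw [← Real.exp_add]
            congr 1
            ring
    calc ‖f w‖ ^ 2 ≤ Real.exp (I / 2 + 2 * ε) ^ 2 := pow_le_pow_left₀ (norm_nonneg _) h10 2
      _ = Real.exp (I + 4 * ε) := by
          rw [← Real.exp_nat_mul]
          congr 1
          push_cast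
          ring
  refine ge_of_tendsto (x := nhdsWithin 0 (Set.Ioi (0 : ℝ))) (f := fun ε => Real.exp (I + 4 * ε))
    ?_ (Filter.eventually_of_mem self_mem_nhdsWithin key)
  have : Continuous fun ε : ℝ => Real.exp (I + 4 * ε) := by fun_prop
  have h := this.tendsto 0
  simp only [mul_zero, add_zero] at h
  exact h.mono_left nhdsWithin_le_nhds

end

end Pool.Agent.Helper61.HL
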