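import Pool.Agent.Helper61.HL.Asym

/-!
# The recursion, and the distribution estimate for Laurent polynomials
-/

namespace Pool.Agent.Helper61.HL

noncomputable section

open MeasureTheory AddCircle Complex Finset

/-- The weight of a state. -/
def Wt (q : ℝ) (m : ℕ → ℕ) (S : Finset ℤ) (c : ℤ → ℂ) (K0 : ℝ) (k l : ℕ) (b : ℝ) : ℝ :=
  Zs q m S c k l b + K0 * b ^ (-(1 / 6) : ℝ)

lemma Zs_nonneg (q : ℝ) (m : ℕ → ℕ) (S : Finset ℤ) (c : ℤ → ℂ) (k l : ℕ) (b : ℝ) :
    0 ≤ Zs q m S c k l b := integral_nonneg fun _ => Real.sqrt_nonneg _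

lemma Zs_le_one (q : ℝ) (m : ℕ → ℕ) (S : Finset ℤ) (c : ℤ → ℂ) (k l : ℕ) {b : ℝ} (hb : 0 < b) :
    Zs q m S c k l b ≤ 1 := by
  have hstc := continuous_stX q m S c k l b
  have hst0 : ∀ θ, 0 ≤ stX q m S c k l b θ := fun θ => sq_nonneg _
  have hc : Continuous fun θ => Real.sqrt (yb b (stX q m S c k l b θ) / b) :=
    ((continuous_yb hstc hst0).div_const _).sqrt
  have h := int_mono hc (continuous_const (y := (1 : ℝ))) fun θ => by
    rw [← Real.sqrt_one]
    refine Real.sqrt_le_sqrt ?_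
    rw [div_le_one hb]
    exact yb_le hb.le (hst0 θ)
  rw [int_const] at h
  exact h

lemma VS.toSVS {m : ℕ → ℕ} {c : ℤ → ℂ} {K k l : ℕ} {b : ℝ} (h : VS m c K k l b) :
    SVS m c K k l b := ⟨h.hkl, h.sq_le, h.tail.le⟩

lemma nat_le_of_sq {κ : ℕ} {b : ℝ} (hb : 1 ≤ b) (h : (κ : ℝ) ^ 2 ≤ b) : (κ : ℝ) ≤ b := by
  have h0 : (0 : ℝ) ≤ κ := Nat.cast_nonneg κ
  by_contra h1
  push Not at h1
  nlinarith

lemma mk_Nx {q : ℝ} {m : ℕ → ℕ} {S : Finset ℤ} {c : ℤ → ℂ} (D : Dat q m S c) {L : ℕ}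
    {lam Lam K0 p b0 : ℝ} (hP : Par q L lam Lam K0 p b0) {K k l k' l' : ℕ} {b b' : ℝ}
    (hV : VS m c K k l b) (hb : b0 ≤ b) (hbb : b ≤ b') (hlk : l < k') (hk'K : k' ≤ K) :
    Nx q m c k l b k' l' b' := by
  have hb16 : 16 ≤ b := hP.hb0.trans hb
  refine ⟨hb16, hbb, hV.hkl, hlk, nat_le_of_sq (by linarith) hV.sq_le, ?_, fun _ => ?_⟩
  · have h1 := tl_split m c (show l ≤ k' by omega) hk'K
    have h2 := tl_nonneg m c K (k' + 1)
    rw [hV.tail] at h1
    linarith
  · have h1 := (hP.h_asym b hb (l + 1 - k) hV.le_sq).2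
    have h2 := D.lac.pow (k' + 1 - k) k
    have hkl := hV.hkl
    rw [show k + (k' + 1 - k) = k' + 1 by omega] at h2
    refine le_trans (mul_le_mul_of_nonneg_right (h1.trans ?_) (D.lac.posR k).le) h2
    exact pow_le_pow_right₀ D.lac.one_lt.le (by omega)

/-- Elementary facts on the powers of a level. -/
lemma pow_facts {b : ℝ} (hb : 16 ≤ b) : Real.sqrt (b ^ (-(1 / 3) : ℝ)) = b ^ (-(1 / 6) : ℝ) ∧
    b ^ (-(1 / 3) : ℝ) ≤ b ^ (-(1 / 6) : ℝ) ∧ Real.sqrt (1 / b) ≤ b ^ (-(1 / 6) : ℝ) := by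
  have hb0 : 0 < b := by linarith
  refine ⟨?_, ?_, ?_⟩
  · rw [Real.sqrt_eq_rpow, ← Real.rpow_mul hb0.le]
    norm_num
  · exact Real.rpow_le_rpow_of_exponent_le (by linarith) (by norm_num)
  · rw [Real.sqrt_eq_rpow, one_div, Real.inv_rpow hb0.le, ← Real.rpow_neg hb0.le]
    exact Real.rpow_le_rpow_of_exponent_le (by linarith) (by norm_num)

lemma s_ratio {b b' : ℝ} (hb : 0 < b) (hb' : 0 < b') :
    b' ^ (-(1 / 6) : ℝ) = (b' / b) ^ (-(1 / 6) : ℝ) * b ^ (-(1 / 6) : ℝ) := by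
  rw [← Real.mul_rpow (div_pos hb' hb).le hb.le, div_mul_cancel₀ _ hb.ne']

/-- Contraction in the absence of a jump. -/
lemma contr_rot {q : ℝ} {m : ℕ → ℕ} {S : Finset ℤ} {c : ℤ → ℂ} (D : Dat q m S c) {L : ℕ}
    (hgap : ∀ j, L ≤ j → m (j - L) + m (j - 1) ≤ m j)
    {lam Lam K0 p b0 : ℝ} (hP : Par q L lam Lam K0 p b0) {K k l k' l' : ℕ} {b b' : ℝ}
    (hV : VS m c K k l b) (hb : b0 ≤ b) (hlk : l < k') (hk'K : k' ≤ K) (h1 : lam * b ≤ b')
    (h2 : b' ≤ Lam * b)
    (hβ : Real.exp (-(2 * b)) / 2 ≤ ∑ i ∈ Ioc l k', ‖c (-(m i : ℤ))‖ ^ 2) :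
    Wt q m S c K0 k' l' b' ≤ (b' / b) ^ (-p) * Wt q m S c K0 k l b := by
  have hb16 : 16 ≤ b := hP.hb0.trans hb
  have hb0 : 0 < b := by linarith
  have hlam := hP.hlam
  have hLam := hP.hLam
  have hK0 := hP.hK0
  have hA := Aq_gt D.lac.one_lt
  have hA2 : 0 ≤ Aq q ^ 2 := sq_nonneg _
  have hbb : b ≤ b' := by nlinarith
  have hb'0 : 0 < b' := by linarith
  have hL1 : (1 : ℝ) ≤ L := by exact_mod_cast hP.hL
  have hlogL : 0 ≤ Real.log L := Real.log_nonneg hL1
  have hb0' := hP.hb0'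
  have N := mk_Nx D hP (l' := l') hV hb hbb hlk hk'K
  have has := (hP.h_asym b hb (l + 1 - k) hV.le_sq).1
  have hLamb : Lam ≤ b := by linarith
  have hrot := N.rot D hP.hL hgap hβ (by nlinarith) (by
    refine le_trans (mul_le_mul_of_nonneg_left ?_ (by linarith)) has
    have : b' ≤ b ^ 2 := by nlinarith
    linarith)
  have hCE := hP.h_CE b hb (l - k) hV.sq_le
  obtain ⟨f1, f2, f3⟩ := pow_facts hb16
  set s := b ^ (-(1 / 6) : ℝ) with hs
  have hs0 : 0 < s := by positivity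
  set Z := Zs q m S c k l b with hZ
  have hZ0 : 0 ≤ Z := Zs_nonneg _ _ _ _ _ _ _
  have he : Real.sqrt ((CE q (l - k) b + 1) / b) ≤ s := by
    rw [← f1]
    exact Real.sqrt_le_sqrt hCE
  have hC2 : 0 ≤ C2 q L := by
    unfold C2
    have := logA_nonneg q
    positivity
  have hc2 : Real.sqrt (C2 q L / b') ≤ Real.sqrt (C2 q L) * s := by
    calc Real.sqrt (C2 q L / b') ≤ Real.sqrt (C2 q L * (1 / b)) := by
          refine Real.sqrt_le_sqrt ?_
          rw [mul_one_div]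
          exact div_le_div_of_nonneg_left hC2 hb0 hbb
      _ = Real.sqrt (C2 q L) * Real.sqrt (1 / b) := Real.sqrt_mul hC2 _
      _ ≤ Real.sqrt (C2 q L) * s := mul_le_mul_of_nonneg_left f3 (Real.sqrt_nonneg _)
  obtain ⟨g1, hg1, hg2, hg3⟩ := hP.h_rot
  have hlam0 : 0 < lam := by linarith
  have hr1 : Real.sqrt (b / b') ≤ Real.sqrt (1 / lam) := by
    refine Real.sqrt_le_sqrt ?_
    rw [div_le_div_iff₀ hb'0 hlam0]
    linarith
  have hr2 : Real.sqrt ((L * b' + b) / ((L + 1) * b'))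
      ≤ Real.sqrt ((L + 1 / lam) / (L + 1)) := by
    refine Real.sqrt_le_sqrt ?_
    have h3 : (L * b' + b) / ((L + 1) * b') = (L + b / b') / (L + 1) := by field_simp
    rw [h3]
    refine div_le_div_of_nonneg_right ?_ (by positivity)
    have : b / b' ≤ 1 / lam := by
      rw [div_le_div_iff₀ hb'0 hlam0]
      linarith
    linarith
  set G := Real.sqrt (1 / lam) + Real.sqrt ((L + 1 / lam) / (L + 1)) with hG
  have hG0 : 0 ≤ G := by positivity
  have hZ' : Zs q m S c k' l' b' ≤ G * (Z + s) + Real.sqrt (C2 q L) * s := by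
    refine hrot.trans (add_le_add ?_ hc2)
    exact mul_le_mul (add_le_add hr1 hr2) (by linarith) (by positivity) hG0
  have hr : lam ≤ b' / b := by
    rw [le_div_iff₀ hb0]
    exact h1
  have hr' : b' / b ≤ Lam := by
    rw [div_le_iff₀ hb0]
    exact h2
  have hs' : b' ^ (-(1 / 6) : ℝ) ≤ lam ^ (-(1 / 6) : ℝ) * s := by
    rw [s_ratio hb0 hb'0]
    refine mul_le_mul_of_nonneg_right ?_ hs0.le
    exact Real.rpow_le_rpow_of_nonpos hlam0 hr (by norm_num)
  have hW : Wt q m S c K0 k' l' b' ≤ g1 * Wt q m S c K0 k l b := by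
    unfold Wt
    have h3 : K0 * b' ^ (-(1 / 6) : ℝ) ≤ K0 * (lam ^ (-(1 / 6) : ℝ) * s) :=
      mul_le_mul_of_nonneg_left hs' (by linarith)
    have h4 : G * Z ≤ g1 * Z := mul_le_mul_of_nonneg_right hg1 hZ0
    have h5 := mul_le_mul_of_nonneg_right hg2 hs0.le
    rw [← hs, ← hZ]
    nlinarith
  refine hW.trans (mul_le_mul_of_nonneg_right ?_ ?_)
  · refine hg3.trans ?_
    exact Real.rpow_le_rpow_of_nonpos (by positivity) hr' (by linarith [hP.hp])
  · unfold Wt
    rw [← hs, ← hZ]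
    positivity

/-- Contraction at a jump. -/
lemma contr_jump {q : ℝ} {m : ℕ → ℕ} {S : Finset ℤ} {c : ℤ → ℂ} (D : Dat q m S c) {L : ℕ}
    {lam Lam K0 p b0 : ℝ} (hP : Par q L lam Lam K0 p b0) {K k l k' l' : ℕ} {b b' : ℝ}
    (hV : VS m c K k l b) (hb : b0 ≤ b) (hlk : l < k') (hk'K : k' ≤ K) (h1 : Lam * b ≤ b')
    (hβ : Real.exp (-(2 * lam * b)) ≤ ‖c (-(m k' : ℤ))‖) :
    Wt q m S c K0 k' l' b' ≤ (b' / b) ^ (-p) * Wt q m S c K0 k l b := by
  have hb16 : 16 ≤ b := hP.hb0.trans hb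
  have hb0 : 0 < b := by linarith
  have hlam := hP.hlam
  have hLam := hP.hLam
  have hK0 := hP.hK0
  have hA := Aq_gt D.lac.one_lt
  have hA2 : 0 ≤ Aq q ^ 2 := sq_nonneg _
  have hbb : b ≤ b' := by nlinarith
  have hb'0 : 0 < b' := by linarith
  have hL1 : (1 : ℝ) ≤ L := by exact_mod_cast hP.hL
  have hlogL : 0 ≤ Real.log L := Real.log_nonneg hL1
  have N := mk_Nx D hP (l' := l') hV hb hbb hlk hk'K
  have hCE := hP.h_CE b hb (l - k) hV.sq_le
  obtain ⟨f1, f2, f3⟩ := pow_facts hb16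
  set s := b ^ (-(1 / 6) : ℝ) with hs
  have hs0 : 0 < s := by positivity
  set Z := Zs q m S c k l b with hZ
  have hZ0 : 0 ≤ Z := Zs_nonneg _ _ _ _ _ _ _
  have he : Real.sqrt ((CE q (l - k) b + 1) / b) ≤ s := by
    rw [← f1]
    exact Real.sqrt_le_sqrt hCE
  have hC2 : 0 ≤ C2 q L := by
    unfold C2
    have := logA_nonneg q
    positivity
  have hlam0 : 0 < lam := by linarith
  set W := Z + K0 * s with hW
  have hZsW : Z + s ≤ W := by
    rw [hW]
    nlinarith
  have hW0 : 0 < W := by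
    rw [hW]
    positivity
  -- powers of the ratio
  set r := b' / b with hr
  have hrLam : Lam ≤ r := by
    rw [hr, le_div_iff₀ hb0]
    exact h1
  have hr0 : 0 < r := by positivity
  have hr1 : 1 ≤ r := by linarith
  set t := r ^ (1 / 12 : ℝ) with ht
  have ht0 : 0 < t := by positivity
  have ht12 : t ^ 12 = r := by
    rw [ht, ← Real.rpow_natCast, ← Real.rpow_mul hr0.le]
    norm_num
  have ht2 : 2 ≤ t := by
    refine le_of_pow_le_pow_left₀ (n := 12) (by norm_num) ht0.le ?_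
    rw [ht12]
    exact hP.h_jump2.trans hrLam
  set H := 1 + Real.sqrt (2 * lam) + Real.sqrt (C2 q L) with hH
  have hH1 : 1 ≤ H := by
    rw [hH]
    have := Real.sqrt_nonneg (2 * lam)
    have := Real.sqrt_nonneg (C2 q L)
    linarith
  have hHt : H ≤ t ^ 3 := by
    refine le_of_pow_le_pow_left₀ (n := 4) (by norm_num) (by positivity) ?_
    rw [← pow_mul, ht12]
    exact hP.h_jump.trans hrLam
  have hsr : Real.sqrt (b / b') = (t ^ 6)⁻¹ := by
    have h3 : b / b' = ((t ^ 6)⁻¹) ^ 2 := by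
      rw [inv_pow, ← pow_mul, ht12, hr, inv_div]
    rw [h3, Real.sqrt_sq (by positivity)]
  have hs'2 : b' ^ (-(1 / 6) : ℝ) = (t ^ 2)⁻¹ * s := by
    rw [s_ratio hb0 hb'0, ← hr, ← hs]
    congr 1
    rw [ht, ← Real.rpow_natCast, ← Real.rpow_mul hr0.le, ← Real.rpow_neg hr0.le]
    norm_num
  -- the bound for `Z'`
  have hZ' : Zs q m S c k' l' b' ≤ (t ^ 2)⁻¹ * W := by
    by_cases hcase : b' ≤ b ^ 2
    · have has := (hP.h_asym b hb (l + 1 - k) hV.le_sq).1
      have hcap := N.cap D (β := 2 * lam * b) (by positivity) hβ (by nlinarith) (by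
        refine le_trans (mul_le_mul_of_nonneg_left ?_ (by linarith)) has
        linarith) hP.hL
      have g1 : Real.sqrt (2 * lam * b / b') = Real.sqrt (2 * lam) * Real.sqrt (b / b') := by
        rw [← Real.sqrt_mul (by positivity), mul_div_assoc]
      have g2 : Real.sqrt (C2 q L / b') ≤ Real.sqrt (C2 q L) * Real.sqrt (b / b') * s := by
        have g3 : C2 q L / b' = C2 q L * (b / b') * (1 / b) := by
          field_simp
        rw [g3, Real.sqrt_mul (by positivity), Real.sqrt_mul hC2]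
        exact mul_le_mul_of_nonneg_left f3 (by positivity)
      rw [g1, hsr] at hcap
      rw [hsr] at g2
      have g4 : Zs q m S c k' l' b' ≤ (t ^ 6)⁻¹ * H * (Z + s) := by
        have g5 : 0 ≤ (t ^ 6)⁻¹ := by positivity
        have g6 : ((t ^ 6)⁻¹ + Real.sqrt (2 * lam) * (t ^ 6)⁻¹)
            * (Z + Real.sqrt ((CE q (l - k) b + 1) / b))
            ≤ ((t ^ 6)⁻¹ + Real.sqrt (2 * lam) * (t ^ 6)⁻¹) * (Z + s) :=
          mul_le_mul_of_nonneg_left (by linarith) (by positivity)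
        have g7 : Real.sqrt (C2 q L) * (t ^ 6)⁻¹ * s
            ≤ Real.sqrt (C2 q L) * (t ^ 6)⁻¹ * (Z + s) :=
          mul_le_mul_of_nonneg_left (by linarith) (by positivity)
        rw [hH]
        nlinarith
      refine g4.trans ?_
      have g8 : (t ^ 6)⁻¹ * H ≤ (t ^ 2)⁻¹ := by
        rw [inv_mul_le_iff₀ (by positivity)]
        have : t ^ 6 * (t ^ 2)⁻¹ = t ^ 4 := by field_simp
        rw [this]
        exact hHt.trans (pow_le_pow_right₀ (by linarith) (by norm_num))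
      exact mul_le_mul g8 hZsW (by positivity) (by positivity)
    · push Not at hcase
      have hbr : b ≤ r := by
        rw [hr, le_div_iff₀ hb0]
        nlinarith
      have hcap := N.capG D (β := 2 * lam * b) hβ hP.hL
      have g1 : Real.sqrt ((2 * lam * b + C2 q L) / b')
          ≤ (Real.sqrt (2 * lam) + Real.sqrt (C2 q L)) * (t ^ 6)⁻¹ := by
        have g2 : (2 * lam * b + C2 q L) / b' ≤ (2 * lam + C2 q L) * (b / b') := by
          rw [← mul_div_assoc]
          refine div_le_div_of_nonneg_right ?_ hb'0.le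
          nlinarith
        refine (Real.sqrt_le_sqrt g2).trans ?_
        rw [Real.sqrt_mul (by positivity), hsr]
        exact mul_le_mul_of_nonneg_right (sqrt_add_le' (by positivity) hC2) (by positivity)
      have g3 : Real.sqrt (Z + (CE q (l - k) b + 1) / b) ≤ W * t := by
        have g4 : Z + (CE q (l - k) b + 1) / b ≤ W := by
          have : s ≤ K0 * s := le_mul_of_one_le_left hs0.le hK0
          rw [hW]
          linarith
        refine (Real.sqrt_le_sqrt g4).trans ?_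
        rw [Real.sqrt_le_left (by positivity)]
        have g5 : 1 ≤ W * t ^ 2 := by
          have g6 : s ≤ W := by
            rw [hW]
            nlinarith
          have g7 : s * t ^ 2 ≤ W * t ^ 2 := mul_le_mul_of_nonneg_right g6 (by positivity)
          refine le_trans ?_ g7
          have g8 : t ^ 2 = r ^ (1 / 6 : ℝ) := by
            rw [ht, ← Real.rpow_natCast, ← Real.rpow_mul hr0.le]
            norm_num
          have g9 : b ^ (1 / 6 : ℝ) ≤ r ^ (1 / 6 : ℝ) :=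
            Real.rpow_le_rpow hb0.le hbr (by norm_num)
          have g10 : s * b ^ (1 / 6 : ℝ) = 1 := by
            rw [hs, ← Real.rpow_add hb0]
            norm_num
          rw [g8]
          have := mul_le_mul_of_nonneg_left g9 hs0.le
          linarith
        nlinarith
      have g4 : Zs q m S c k' l' b' ≤ (t ^ 6)⁻¹ * W
          + W * t * ((Real.sqrt (2 * lam) + Real.sqrt (C2 q L)) * (t ^ 6)⁻¹) := by
        refine hcap.trans (add_le_add ?_ ?_)
        · rw [hsr]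
          exact mul_le_mul_of_nonneg_left (by linarith) (by positivity)
        · exact mul_le_mul g3 g1 (Real.sqrt_nonneg _) (by positivity)
      refine g4.trans ?_
      have g5 : (t ^ 6)⁻¹ * W + W * t * ((Real.sqrt (2 * lam) + Real.sqrt (C2 q L)) * (t ^ 6)⁻¹)
          ≤ W * ((t ^ 6)⁻¹ * t * H) := by
        have g6 : (t ^ 6)⁻¹ * W ≤ (t ^ 6)⁻¹ * W * t :=
          le_mul_of_one_le_right (by positivity) (by linarith)
        rw [hH]
        nlinarith
      refine g5.trans ?_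
      have g7 : (t ^ 6)⁻¹ * t * H ≤ (t ^ 2)⁻¹ := by
        rw [mul_assoc, inv_mul_le_iff₀ (by positivity)]
        have : t ^ 6 * (t ^ 2)⁻¹ = t * t ^ 3 := by field_simp
        rw [this]
        exact mul_le_mul_of_nonneg_left hHt ht0.le
      have := mul_le_mul_of_nonneg_left g7 hW0.le
      linarith
  have hfin : Wt q m S c K0 k' l' b' ≤ t⁻¹ * W := by
    unfold Wt
    rw [hs'2]
    have g1 : K0 * ((t ^ 2)⁻¹ * s) ≤ (t ^ 2)⁻¹ * W := by
      rw [hW]
      have : 0 ≤ (t ^ 2)⁻¹ * Z := by positivity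
      nlinarith
    have g2 : 2 * (t ^ 2)⁻¹ ≤ t⁻¹ := by
      have : (t ^ 2)⁻¹ = t⁻¹ * t⁻¹ := by rw [sq, mul_inv]
      rw [this]
      have g3 : 0 < t⁻¹ := by positivity
      have g4 : t⁻¹ ≤ 1 / 2 := by
        rw [inv_le_comm₀ ht0 (by norm_num)]
        linarith
      nlinarith
    have g3 := mul_le_mul_of_nonneg_right g2 hW0.le
    linarith
  have hWeq : Wt q m S c K0 k l b = W := rfl
  rw [hWeq]
  refine hfin.trans (mul_le_mul_of_nonneg_right ?_ hW0.le)
  rw [ht, ← Real.rpow_neg hr0.le]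
  exact Real.rpow_le_rpow_of_exponent_le hr1 (by linarith [hP.hp12])

/-- The distribution estimate at the level of a state. -/
lemma dist_state {q : ℝ} {m : ℕ → ℕ} {S : Finset ℤ} {c : ℤ → ℂ} (D : Dat q m S c) {L : ℕ}
    {lam Lam K0 p b0 : ℝ} (hP : Par q L lam Lam K0 p b0) {K k l : ℕ} {b : ℝ}
    (hcK : ∀ n : ℤ, n < -(m K : ℤ) → c n = 0)
    (hV : SVS m c K k l b) (hb : b0 ≤ b) :
    mu.real {θ : Ci | ‖E S c (ze θ)‖ ^ 2 ≤ Real.exp (-(2 * b))} ≤ 2 * Wt q m S c K0 k l b := by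
  have hb16 : 16 ≤ b := hP.hb0.trans hb
  have hb0 : 0 < b := by linarith
  have hK0 := hP.hK0
  set K2 := max K (l + 1) with hK2
  have hcK2 : ∀ n : ℤ, n < -(m K2 : ℤ) → c n = 0 := by
    intro n hn
    refine hcK n ?_
    have : m K ≤ m K2 := D.lac.mono.monotone (le_max_left _ _)
    omega
  have hT : ∑ j ∈ Ioc l K2, ‖c (-(m j : ℤ))‖ ^ 2 ≤ Real.exp (-(2 * b)) := by
    refine le_trans ?_ hV.tail
    unfold tl
    have h1 : ∑ j ∈ Ioc l K2, ‖c (-(m j : ℤ))‖ ^ 2
        = ∑ j ∈ (Ioc l K2).filter (· ≤ K), ‖c (-(m j : ℤ))‖ ^ 2 := by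
      symm
      refine Finset.sum_subset (Finset.filter_subset _ _) fun j hj hj' => ?_
      have h2 : K < j := by
        by_contra h3
        exact hj' (Finset.mem_filter.mpr ⟨hj, by omega⟩)
      have h3 := D.lac.mono h2
      rw [hcK (-(m j : ℤ)) (by omega), norm_zero, zero_pow two_ne_zero]
    rw [h1]
    refine Finset.sum_le_sum_of_subset_of_nonneg (fun x hx => ?_) fun _ _ _ => sq_nonneg _
    rw [Finset.mem_filter, Finset.mem_Ioc] at hx
    rw [Finset.mem_Icc]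
    omega
  have hfc := final_compare D hb16 hV.hkl (show l < K2 from lt_of_lt_of_le (Nat.lt_succ_self l)
    (le_max_right _ _)) (nat_le_of_sq (by linarith) hV.sq_le) hcK2 hT
  set X : Ci → ℝ := fun θ => ‖E S c (ze θ)‖ ^ 2 with hX
  have hXc : Continuous X := (continuous_E S c).norm.pow 2
  have hX0 : ∀ θ, 0 ≤ X θ := fun θ => sq_nonneg _
  have hyc : Continuous fun θ => yb b (X θ) := continuous_yb hXc hX0
  have hmark := mul_meas_ge_le_integral_of_nonneg (μ := mu) (f := fun θ => yb b (X θ))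
    (Filter.Eventually.of_forall fun θ => yb_nonneg b (X θ)) (integrable_of_cont hyc) (b - 1)
  have hsub : {θ : Ci | X θ ≤ Real.exp (-(2 * b))} ⊆ {θ | b - 1 ≤ yb b (X θ)} := by
    intro θ hθ
    simp only [Set.mem_ofPred_eq] at hθ ⊢
    have he := Real.exp_pos (-(2 * b))
    have h2 : Real.log (Real.exp (-(2 * b)) + X θ) ≤ Real.log (2 * Real.exp (-(2 * b))) :=
      Real.log_le_log (by linarith [hX0 θ]) (by linarith)
    rw [Real.log_mul two_ne_zero he.ne', Real.log_exp] at h2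
    have h3 : -Ld b (X θ) ≤ yb b (X θ) := le_max_left _ _
    have h4 := log_two_le
    unfold Ld at h3
    linarith
  have hmeas : mu.real {θ : Ci | X θ ≤ Real.exp (-(2 * b))}
      ≤ mu.real {θ | b - 1 ≤ yb b (X θ)} := measureReal_mono hsub
  have hCE := hP.h_CE b hb (l - k) hV.sq_le
  obtain ⟨f1, f2, f3⟩ := pow_facts hb16
  set s := b ^ (-(1 / 6) : ℝ) with hs
  have hs0 : 0 < s := by positivity
  set Z := Zs q m S c k l b with hZ
  set μr := mu.real {θ | b - 1 ≤ yb b (X θ)} with hμr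
  have hμ0 : 0 ≤ μr := measureReal_nonneg
  have h5 : (b - 1) * μr ≤ b * Z + CE q (l - k) b := hmark.trans hfc
  have h6 : b / 2 * μr ≤ (b - 1) * μr := mul_le_mul_of_nonneg_right (by linarith) hμ0
  rw [div_le_iff₀ hb0] at hCE
  have h7 : b / 2 * μr ≤ b * (Z + s) := by
    have : b ^ (-(1 / 3) : ℝ) * b ≤ s * b := mul_le_mul_of_nonneg_right f2 hb0.le
    nlinarith
  have h8 : μr ≤ 2 * (Z + s) := by
    have h9 : b / 2 * μr ≤ b / 2 * (2 * (Z + s)) := by linarith
    exact le_of_mul_le_mul_left h9 (by positivity)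
  unfold Wt
  rw [← hs, ← hZ]
  have h10 : s ≤ K0 * s := le_mul_of_one_le_left hs0.le hK0
  linarith

/-- The distribution estimate for Laurent polynomials. -/
theorem dist_poly {q : ℝ} {L : ℕ} {lam Lam K0 p b0 : ℝ} (hP : Par q L lam Lam K0 p b0)
    {m : ℕ → ℕ} (hgap : ∀ j, L ≤ j → m (j - L) + m (j - 1) ≤ m j)
    {S : Finset ℤ} {c : ℤ → ℂ} (D : Dat q m S c) {K : ℕ}
    (hcK : ∀ n : ℤ, n < -(m K : ℤ) → c n = 0) :
    ∀ d k l : ℕ, ∀ b : ℝ, K - k = d → VS m c K k l b → b0 ≤ b → ∀ u : ℝ, b ≤ u →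
      mu.real {θ : Ci | ‖E S c (ze θ)‖ ^ 2 ≤ Real.exp (-(2 * u))}
        ≤ 2 * Lam ^ p * (u / b) ^ (-p) * Wt q m S c K0 k l b := by
  intro d
  induction d using Nat.strong_induction_on with
  | _ d ih =>
  intro k l b hd hV hb u hu
  have hb16 : 16 ≤ b := hP.hb0.trans hb
  have hb0 : 0 < b := by linarith
  have hu0 : 0 < u := by linarith
  have hp := hP.hp
  have hlam := hP.hlam
  have hK0 := hP.hK0
  have hLam2 : (1 : ℝ) ≤ Lam := by linarith [hP.h_jump2, show (1 : ℝ) ≤ 2 ^ 12 by norm_num]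
  have hLam0 : 0 < Lam := by linarith
  have hLamp : 1 ≤ Lam ^ p := Real.one_le_rpow hLam2 hp.le
  have hW0 : ∀ k l : ℕ, ∀ b : ℝ, 16 ≤ b → 0 ≤ Wt q m S c K0 k l b := fun k l b hb' => by
    unfold Wt
    have := Zs_nonneg q m S c k l b
    positivity
  have hlK := hV.lt_K
  have hkl := hV.hkl
  by_cases hcase : u ≤ Lam * b
  · have h1 := dist_state D hP hcK hV.toSVS hb
    have h2 : mu.real {θ : Ci | ‖E S c (ze θ)‖ ^ 2 ≤ Real.exp (-(2 * u))}
        ≤ mu.real {θ : Ci | ‖E S c (ze θ)‖ ^ 2 ≤ Real.exp (-(2 * b))} := by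
      refine measureReal_mono fun θ hθ => ?_
      simp only [Set.mem_ofPred_eq] at hθ ⊢
      refine hθ.trans ?_
      rw [Real.exp_le_exp]
      linarith
    refine (h2.trans h1).trans ?_
    refine mul_le_mul_of_nonneg_right ?_ (hW0 k l b hb16)
    have h3 : 1 ≤ Lam ^ p * (u / b) ^ (-p) := by
      rw [Real.rpow_neg (by positivity), ← div_eq_mul_inv, le_div_iff₀ (by positivity), one_mul]
      refine Real.rpow_le_rpow (by positivity) ?_ hp.le
      rw [div_le_iff₀ hb0]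
      exact hcase
    rw [mul_assoc]
    linarith
  push Not at hcase
  have hstep := next_state D.lac hcK hV hb16 hlam (show 2 * lam ≤ Lam by
    have := hP.hLam
    have := sq_nonneg (Aq q)
    linarith) hcase.le
  -- combination of two estimates
  have hcomb : ∀ b' Wp : ℝ, 0 < b' → Wp ≤ (b' / b) ^ (-p) * Wt q m S c K0 k l b →
      2 * Lam ^ p * (u / b') ^ (-p) * Wp
        ≤ 2 * Lam ^ p * (u / b) ^ (-p) * Wt q m S c K0 k l b := by
    intro b' Wp hb'0 hWp
    have h1 : (u / b) ^ (-p) = (u / b') ^ (-p) * (b' / b) ^ (-p) := by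
      rw [← Real.mul_rpow (by positivity) (by positivity)]
      congr 1
      field_simp
    rw [h1]
    have h2 : 0 ≤ 2 * Lam ^ p * (u / b') ^ (-p) := by positivity
    have := mul_le_mul_of_nonneg_left hWp h2
    linarith
  rcases hstep with ⟨k', l', b', hlk, hk'K, hVS, h1, h2, h3⟩ | ⟨k', l', b', hlk, hk'K, hVS, h1,
    h2, h3⟩ | ⟨k', l', hlk, hk'K, hSV, h3⟩
  · have hbb' : b ≤ b' := by nlinarith
    have hc := contr_rot D hgap hP (l' := l') hV hb hlk hk'K h1 h2 h3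
    have hind := ih (K - k') (by omega) k' l' b' rfl hVS (by linarith) u (by linarith)
    exact hind.trans (hcomb b' _ (by linarith) hc)
  · have hbb' : b ≤ b' := by nlinarith
    have hc := contr_jump D hP (l' := l') hV hb hlk hk'K h1 h3
    have hind := ih (K - k') (by omega) k' l' b' rfl hVS (by linarith) u h2
    exact hind.trans (hcomb b' _ (by linarith) hc)
  · have hc := contr_jump D hP (l' := l') hV hb hlk hk'K hcase.le h3
    have h4 := dist_state D hP hcK hSV (by linarith)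
    refine h4.trans (le_trans ?_ (hcomb u _ hu0 hc))
    refine mul_le_mul_of_nonneg_right ?_ (hW0 k' l' u (by linarith))
    rw [div_self hu0.ne', Real.one_rpow, mul_one]
    linarith

end

end Pool.Agent.Helper61.HL
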