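import Pool.Agent.Helper61.HL.Contr

/-!
# States and their comparison
-/

namespace Pool.Agent.Helper61.HL

noncomputable section

open MeasureTheory AddCircle Complex Finset

/-- Standing assumptions on a Laurent polynomial. -/
structure Dat (q : ℝ) (m : ℕ → ℕ) (S : Finset ℤ) (c : ℤ → ℂ) : Prop where
  lac : Lac q m
  sp : Sp m c
  supp : ∀ n, c n ≠ 0 → n ∈ S
  norm : ∑ n ∈ S, ‖c n‖ ^ 2 ≤ 1

/-- Squared modulus of a state on its circle. -/
def stX (q : ℝ) (m : ℕ → ℕ) (S : Finset ℤ) (c : ℤ → ℂ) (k l : ℕ) (b : ℝ) (θ : Ci) : ℝ :=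
  ‖E S (gi m (ep b) c k l) ((Real.exp (-(Aq q / m k)) : ℝ) * ze θ)‖ ^ 2

/-- The size of a state. -/
def Zs (q : ℝ) (m : ℕ → ℕ) (S : Finset ℤ) (c : ℤ → ℂ) (k l : ℕ) (b : ℝ) : ℝ :=
  ∫ θ, Real.sqrt (yb b (stX q m S c k l b θ) / b) ∂mu

/-- The average error. -/
def CE (q : ℝ) (κ : ℕ) (b : ℝ) : ℝ := Ck q κ b + Real.log (1 + Real.exp (2 * Aq q))

/-- The constant of the second error. -/
def C2 (q : ℝ) (L : ℕ) : ℝ := Aq q ^ 2 + 4 + 2 * Real.log L + 2 * Real.log (1 + Real.exp (2 * Aq q))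

lemma stX_eq (q : ℝ) (m : ℕ → ℕ) (S : Finset ℤ) (c : ℤ → ℂ) (k l : ℕ) (b : ℝ) (θ : Ci) :
    stX q m S c k l b θ = ‖E S (gi m (ep b) (sc (Aq q / m k) c) k l) (ze θ)‖ ^ 2 := by
  unfold stX
  rw [E_sc]

lemma continuous_stX (q : ℝ) (m : ℕ → ℕ) (S : Finset ℤ) (c : ℤ → ℂ) (k l : ℕ) (b : ℝ) :
    Continuous (stX q m S c k l b) := by
  have : stX q m S c k l b = fun θ => ‖E S (gi m (ep b) (sc (Aq q / m k) c) k l) (ze θ)‖ ^ 2 := by
    ext θ
    rw [stX_eq]
  rw [this]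
  exact (continuous_E S _).norm.pow 2

lemma yb_min {b b' x : ℝ} (hx : 0 ≤ x) : min (yb b' x) b ≤ yb b x + 1 := by
  have hl2 := log_two_le
  have he := Real.exp_pos (-(2 * b))
  have he' := Real.exp_pos (-(2 * b'))
  have hy : -Ld b x ≤ yb b x := le_max_left _ _
  rcases le_total x (Real.exp (-(2 * b))) with h | h
  · have h1 : Ld b x ≤ 1 / 2 * Real.log 2 - b := by
      unfold Ld
      have h2 : Real.log (Real.exp (-(2 * b)) + x) ≤ Real.log (2 * Real.exp (-(2 * b))) :=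
        Real.log_le_log (by linarith) (by linarith)
      rw [Real.log_mul two_ne_zero he.ne', Real.log_exp] at h2
      linarith
    have := min_le_right (yb b' x) b
    linarith
  · have hx0 : 0 < x := he.trans_le h
    have h1 : Ld b x ≤ 1 / 2 * Real.log 2 + Ld b' x := by
      unfold Ld
      have h2 : Real.log (Real.exp (-(2 * b)) + x)
          ≤ Real.log (2 * (Real.exp (-(2 * b')) + x)) :=
        Real.log_le_log (by linarith) (by linarith)
      rw [Real.log_mul two_ne_zero (by linarith)] at h2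
      linarith
    refine (min_le_left _ _).trans ?_
    unfold yb at *
    exact max_le (by linarith) (by linarith [le_max_right (-Ld b x) 0])

lemma logA_nonneg (q : ℝ) : 0 ≤ Real.log (1 + Real.exp (2 * Aq q)) :=
  Real.log_nonneg (by linarith [Real.exp_pos (2 * Aq q)])

/-- Comparison of a state with a finer one, in averaged form. -/
lemma compare {q : ℝ} {m : ℕ → ℕ} {S : Finset ℤ} {c : ℤ → ℂ} (D : Dat q m S c)
    {b ε' h' : ℝ} (hb : 16 ≤ b) (hε' : 0 < ε') {k l k' l' : ℕ} (hkl : k ≤ l)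
    (hlk : l < k') (hκ : ((l - k : ℕ) : ℝ) ≤ b)
    (hT : ∑ j ∈ Ioc l k', ‖c (-(m j : ℤ))‖ ^ 2 ≤ Real.exp (-(2 * b)))
    (h0 : 0 ≤ h') (h1 : h' ≤ Aq q / m k') (h2 : k' < l' → Aq q / m (k' + 1) ≤ h')
    (hcond : k' < l' → 2 * (1 + 48 * b) * m k ≤ m (k' + 1)) :
    ∃ e1 : Ci → ℝ, Continuous e1 ∧ (∀ θ, 0 ≤ e1 θ) ∧ ∫ θ, e1 θ ∂mu ≤ CE q (l - k) b ∧
      ∀ θ, PI ((Real.exp (-(Aq q / m k - h')) : ℝ) * ze θ)
        (fun θ => yb b (‖E S (gi m ε' (sc h' c) k' l') (ze θ)‖ ^ 2))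
        ≤ yb b (stX q m S c k l b θ) + e1 θ := by
  obtain ⟨hx, -, -⟩ := height_bounds D.lac (show k < k' by omega) h0 h1
  set x := Aq q / m k - h' with hxdef
  have hR0 : 0 ≤ Real.exp (-x) := (Real.exp_pos _).le
  have hR1 : Real.exp (-x) < 1 := by
    rw [Real.exp_lt_one_iff]
    linarith
  set X : Ci → ℝ := fun θ => ‖E S (gi m ε' (sc h' c) k' l') (ze θ)‖ ^ 2 with hX
  set T : ℤ → ℂ := fun n => if -(m k' : ℤ) ≤ n ∧ n < -(m l : ℤ) then
              (Mu m ε' (Ioc k' l') n : ℂ) * sc h' c n else 0 with hTdef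
  set Y : Ci → ℝ := fun θ => Real.exp (2 * b) * ‖E S T (ze θ)‖ ^ 2 with hY
  have hXc : Continuous X := (continuous_E S _).norm.pow 2
  have hX0 : ∀ θ, 0 ≤ X θ := fun θ => sq_nonneg _
  have hYc : Continuous Y := continuous_const.mul ((continuous_E S _).norm.pow 2)
  have hY0 : ∀ θ, 0 ≤ Y θ := fun θ => by positivity
  have hlXc := continuous_log1 hXc hX0
  have hlYc := continuous_log1 hYc hY0
  have hA := Aq_gt D.lac.one_lt
  have hCk0 : 0 ≤ Ck q (l - k) b := by
    unfold Ck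
    have hlogb : 0 ≤ Real.log b := Real.log_nonneg (by linarith)
    have hlog4 : 0 ≤ Real.log 4 := Real.log_nonneg (by norm_num)
    positivity
  have hp1 : ∀ θ, 0 ≤ 1 / 2 * Real.log (1 + X θ) := fun θ => by
    have := hX0 θ
    have := Real.log_nonneg (show 1 ≤ 1 + X θ by linarith)
    linarith
  have hp2 : ∀ θ, 0 ≤ 1 / 2 * Real.log (1 + Y θ) := fun θ => by
    have := hY0 θ
    have := Real.log_nonneg (show 1 ≤ 1 + Y θ by linarith)
    linarith
  have hcX := continuous_PI hR0 hR1 hlXc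
  have hcY := continuous_PI hR0 hR1 hlYc
  have hn : ∀ θ : Ci, ‖((Real.exp (-x) : ℝ) : ℂ) * ze θ‖ < 1 := fun θ => by
    rw [R_norm hR0]
    exact hR1
  refine ⟨fun θ => Ck q (l - k) b + (PI ((Real.exp (-x) : ℝ) * ze θ)
      (fun θ => 1 / 2 * Real.log (1 + Y θ)) + PI ((Real.exp (-x) : ℝ) * ze θ)
      (fun θ => 1 / 2 * Real.log (1 + X θ))), continuous_const.add (hcY.add hcX), fun θ => ?_,
      ?_, fun θ => ?_⟩
  · have g1 := PI_nonneg (hn θ) hp1
    have g2 := PI_nonneg (hn θ) hp2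
    simp only
    linarith
  · have ea := int_add (U := fun _ => Ck q (l - k) b)
      (V := fun θ => PI ((Real.exp (-x) : ℝ) * ze θ) (fun θ => 1 / 2 * Real.log (1 + Y θ))
        + PI ((Real.exp (-x) : ℝ) * ze θ) (fun θ => 1 / 2 * Real.log (1 + X θ)))
      continuous_const (hcY.add hcX)
    rw [int_add hcY hcX, int_const, avg_PI hR0 hR1 hlYc,
      avg_PI hR0 hR1 hlXc, integral_const_mul, integral_const_mul] at ea
    rw [ea]
    have hIX : ∫ θ, X θ ∂mu ≤ Real.exp (2 * Aq q) := by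
      rw [hX, parseval]
      refine (norm_F D.lac hε' h0 h1 h2).trans ?_
      exact mul_le_of_le_one_right (Real.exp_pos _).le D.norm
    have hIY : ∫ θ, Y θ ∂mu ≤ Real.exp (2 * Aq q) := by
      rw [hY, integral_const_mul, parseval]
      have g1 := norm_T (S := S) D.lac D.sp (p := l) hε' h0 h1 h2
      have g2 : Real.exp (2 * Aq q) * ∑ j ∈ Ioc l k', ‖c (-(m j : ℤ))‖ ^ 2
          ≤ Real.exp (2 * Aq q) * Real.exp (-(2 * b)) :=
        mul_le_mul_of_nonneg_left hT (Real.exp_pos _).le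
      have g3 := mul_le_mul_of_nonneg_left (g1.trans g2) (Real.exp_pos (2 * b)).le
      refine g3.trans (le_of_eq ?_)
      rw [mul_comm (Real.exp (2 * Aq q)), ← mul_assoc, ← Real.exp_add, add_neg_cancel,
        Real.exp_zero, one_mul]
    have g1 := int_log_le hXc hX0 (Real.exp_pos _).le hIX
    have g2 := int_log_le hYc hY0 (Real.exp_pos _).le hIY
    unfold CE
    linarith
  · have h3 := stepA (S := S) D.lac (Sp_sc D.sp h') hb hε' hkl hlk hκ h0 h1 hcond
      (w := (Real.exp (-x) : ℝ) * ze θ) (R_norm hR0 θ)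
    have h4 : ‖E S (gi m (ep b) (sc h' c) k l) ((Real.exp (-x) : ℝ) * ze θ)‖ ^ 2
        = stX q m S c k l b θ := by
      rw [E_sc, ← mul_assoc, ← Complex.ofReal_mul, ← Real.exp_add]
      unfold stX
      congr 6
      rw [hxdef]
      ring
    rw [h4] at h3
    simp only
    linarith

/-- Comparison of a state with the boundary values. -/
lemma final_compare {q : ℝ} {m : ℕ → ℕ} {S : Finset ℤ} {c : ℤ → ℂ} (D : Dat q m S c)
    {b : ℝ} (hb : 16 ≤ b) {k l K : ℕ} (hkl : k ≤ l) (hK : l < K)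
    (hκ : ((l - k : ℕ) : ℝ) ≤ b) (hcK : ∀ n : ℤ, n < -(m K : ℤ) → c n = 0)
    (hT : ∑ j ∈ Ioc l K, ‖c (-(m j : ℤ))‖ ^ 2 ≤ Real.exp (-(2 * b))) :
    ∫ θ, yb b (‖E S c (ze θ)‖ ^ 2) ∂mu ≤ b * Zs q m S c k l b + CE q (l - k) b := by
  have hb0 : 0 < b := by linarith
  have hA := Aq_gt D.lac.one_lt
  have h1 : (0 : ℝ) ≤ Aq q / m K := div_nonneg (by linarith) (D.lac.posR K).le
  obtain ⟨e1, he1c, he10, he1i, he1⟩ := compare D (ε' := 1) (h' := 0) hb one_pos hkl hK hκ hT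
    le_rfl h1 (l' := K) (fun h => absurd h (lt_irrefl _)) (fun h => absurd h (lt_irrefl _))
  have hfun : ∀ θ : Ci, E S (gi m 1 (sc 0 c) K K) (ze θ) = E S c (ze θ) := by
    intro θ
    unfold E
    refine Finset.sum_congr rfl fun n _ => ?_
    congr 1
    unfold gi sc Mu
    simp only [Finset.Ioc_self, Finset.prod_empty, Complex.ofReal_one, one_mul, neg_zero,
      Real.exp_zero, one_zpow, mul_one]
    split_ifs with h
    · rfl
    · exact (hcK n (by omega)).symm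
  simp only [hfun, sub_zero] at he1
  obtain ⟨hx, -, -⟩ := height_bounds D.lac (show k < K by omega) (le_refl (0 : ℝ)) h1
  rw [sub_zero] at hx
  have hR0 : 0 ≤ Real.exp (-(Aq q / m k)) := (Real.exp_pos _).le
  have hR1 : Real.exp (-(Aq q / m k)) < 1 := by
    rw [Real.exp_lt_one_iff]
    linarith
  have hyc : Continuous fun θ => yb b (‖E S c (ze θ)‖ ^ 2) :=
    continuous_yb ((continuous_E S c).norm.pow 2) fun θ => sq_nonneg _
  rw [← avg_PI hR0 hR1 hyc]
  have hstc := continuous_stX q m S c k l b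
  have hst0 : ∀ θ, 0 ≤ stX q m S c k l b θ := fun θ => sq_nonneg _
  have hysc : Continuous fun θ => yb b (stX q m S c k l b θ) := continuous_yb hstc hst0
  have hsq : Continuous fun θ => Real.sqrt (yb b (stX q m S c k l b θ) / b) :=
    (hysc.div_const _).sqrt
  calc ∫ θ, PI ((Real.exp (-(Aq q / m k)) : ℝ) * ze θ) (fun θ => yb b (‖E S c (ze θ)‖ ^ 2)) ∂mu
      ≤ ∫ θ, (b * Real.sqrt (yb b (stX q m S c k l b θ) / b) + e1 θ) ∂mu := by
        refine int_mono (continuous_PI hR0 hR1 hyc) ((continuous_const.mul hsq).add he1c)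
          fun θ => (he1 θ).trans ?_
        have h6 : 0 ≤ yb b (stX q m S c k l b θ) / b := div_nonneg (yb_nonneg _ _) hb0.le
        have h7 : yb b (stX q m S c k l b θ) / b ≤ 1 := by
          rw [div_le_one hb0]
          exact yb_le hb0.le (hst0 θ)
        have h8 : yb b (stX q m S c k l b θ) / b ≤ Real.sqrt (yb b (stX q m S c k l b θ) / b) := by
          refine Real.le_sqrt_of_sq_le ?_
          nlinarith
        have h9 : yb b (stX q m S c k l b θ) = b * (yb b (stX q m S c k l b θ) / b) := by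
          field_simp
        have h10 := mul_le_mul_of_nonneg_left h8 hb0.le
        linarith
    _ = b * Zs q m S c k l b + ∫ θ, e1 θ ∂mu := by
        have ea := int_add (U := fun θ => b * Real.sqrt (yb b (stX q m S c k l b θ) / b))
          (V := e1) (continuous_const.mul hsq) he1c
        rw [ea, integral_const_mul]
        rfl
    _ ≤ b * Zs q m S c k l b + CE q (l - k) b := by linarith

/-- The hypotheses relating a state `(k, l, b)` and the next state `(k', l', b')`. -/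
structure Nx (q : ℝ) (m : ℕ → ℕ) (c : ℤ → ℂ) (k l : ℕ) (b : ℝ) (k' l' : ℕ) (b' : ℝ) : Prop where
  hb : 16 ≤ b
  hbb : b ≤ b'
  hkl : k ≤ l
  hlk : l < k'
  hκ : ((l - k : ℕ) : ℝ) ≤ b
  hT : ∑ j ∈ Ioc l k', ‖c (-(m j : ℤ))‖ ^ 2 ≤ Real.exp (-(2 * b))
  hcond : k' < l' → 2 * (1 + 48 * b) * m k ≤ m (k' + 1)

lemma ep_pos {b : ℝ} (hb : 16 ≤ b) : 0 < ep b := by
  unfold ep
  positivity

/-- Data of the next state, rescaled. -/
lemma Nx.data {q : ℝ} {m : ℕ → ℕ} {S : Finset ℤ} {c : ℤ → ℂ} (D : Dat q m S c)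
    {k l k' l' : ℕ} {b b' : ℝ} (N : Nx q m c k l b k' l' b') :
    ∃ e1 : Ci → ℝ, Continuous e1 ∧ (∀ θ, 0 ≤ e1 θ) ∧ ∫ θ, e1 θ ∂mu ≤ CE q (l - k) b ∧
      ∀ θ, PI ((Real.exp (-(Aq q / m k - Aq q / m k')) : ℝ) * ze θ)
        (fun θ => min (yb b' (stX q m S c k' l' b' θ)) b)
        ≤ yb b (stX q m S c k l b θ) + e1 θ + 1 := by
  have hA := Aq_gt D.lac.one_lt
  have hb' : 16 ≤ b' := N.hb.trans N.hbb
  have h0 : (0 : ℝ) ≤ Aq q / m k' := div_nonneg (by linarith) (D.lac.posR k').le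
  have h2 : k' < l' → Aq q / m (k' + 1) ≤ Aq q / m k' := fun _ => by
    refine div_le_div_of_nonneg_left (by linarith) (D.lac.posR k') ?_
    exact_mod_cast (D.lac.mono (Nat.lt_succ_self k')).le
  obtain ⟨e1, he1c, he10, he1i, he1⟩ := compare D N.hb (ep_pos hb') N.hkl N.hlk N.hκ N.hT
    h0 le_rfl h2 N.hcond
  refine ⟨e1, he1c, he10, he1i, fun θ => ?_⟩
  obtain ⟨hx, -, -⟩ := height_bounds D.lac (show k < k' by have := N.hkl; have := N.hlk; omega)
    h0 le_rfl
  have hR0 : 0 ≤ Real.exp (-(Aq q / m k - Aq q / m k')) := (Real.exp_pos _).le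
  have hn : ‖((Real.exp (-(Aq q / m k - Aq q / m k')) : ℝ) : ℂ) * ze θ‖ < 1 := by
    rw [R_norm hR0, Real.exp_lt_one_iff]
    linarith
  have hstc := continuous_stX q m S c k' l' b'
  have hst0 : ∀ θ, 0 ≤ stX q m S c k' l' b' θ := fun θ => sq_nonneg _
  have hb0 : 0 ≤ b := by linarith [N.hb]
  have h3 := he1 θ
  simp only [← stX_eq] at h3
  have h4 := PI_mono hn (U := fun θ => min (yb b' (stX q m S c k' l' b' θ)) b)
    (V := fun θ => yb b (stX q m S c k' l' b' θ) + 1)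
    ((continuous_yb hstc hst0).min continuous_const)
    ((continuous_yb hstc hst0).add continuous_const) fun θ => yb_min (hst0 θ)
  rw [PI_add hn (continuous_yb hstc hst0) continuous_const, PI_const hn] at h4
  linarith

lemma Nx.R {q : ℝ} {m : ℕ → ℕ} {S : Finset ℤ} {c : ℤ → ℂ} (D : Dat q m S c)
    {k l k' l' : ℕ} {b b' : ℝ} (N : Nx q m c k l b k' l' b') :
    0 < Aq q / m k - Aq q / m k' ∧ (1 : ℝ) / m k ≤ Aq q / m k - Aq q / m k' := by
  have hA := Aq_gt D.lac.one_lt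
  have h0 : (0 : ℝ) ≤ Aq q / m k' := div_nonneg (by linarith) (D.lac.posR k').le
  obtain ⟨hx, -, hx1⟩ := height_bounds D.lac (show k < k' by have := N.hkl; have := N.hlk; omega)
    h0 le_rfl
  refine ⟨hx, ?_⟩
  rw [div_le_iff₀ (D.lac.posR k)]
  linarith

/-- Average bounds for the next state. -/
lemma st_avg {q : ℝ} {m : ℕ → ℕ} {S : Finset ℤ} {c : ℤ → ℂ} (D : Dat q m S c)
    (k : ℕ) (l : ℕ) {b : ℝ} (hb : 16 ≤ b) : ∫ θ, stX q m S c k l b θ ∂mu ≤ Real.exp (2 * Aq q) := by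
  have hA := Aq_gt D.lac.one_lt
  have h0 : (0 : ℝ) ≤ Aq q / m k := div_nonneg (by linarith) (D.lac.posR k).le
  simp only [stX_eq]
  rw [parseval]
  refine (norm_F D.lac (ep_pos hb) h0 le_rfl fun _ => ?_).trans
    (mul_le_of_le_one_right (Real.exp_pos _).le D.norm)
  refine div_le_div_of_nonneg_left (by linarith) (D.lac.posR k) ?_
  exact_mod_cast (D.lac.mono (Nat.lt_succ_self k)).le

/-- Contraction from pointwise bounds of the averages, with a standard error. -/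
lemma Nx.contr {q : ℝ} {m : ℕ → ℕ} {S : Finset ℤ} {c : ℤ → ℂ} (D : Dat q m S c)
    {k l k' l' : ℕ} {b b' : ℝ} (N : Nx q m c k l b k' l' b') {L : ℕ} (hL : 0 < L) {ρ : ℝ}
    (hρ : 0 < ρ) (h : ∀ θ, PI ((Real.exp (-(Aq q / m k - Aq q / m k')) : ℝ) * ze θ)
        (fun θ => yb b' (stX q m S c k' l' b' θ))
        ≤ ρ * b' + (Aq q ^ 2 + 4 + 2 * Real.log L
          + PI ((Real.exp (-(Aq q / m k - Aq q / m k')) : ℝ) * ze θ)
            (fun θ => 1 / 2 * Real.log (1 + stX q m S c k' l' b' θ))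
          + Real.log (1 + PI ((Real.exp (-(Aq q / m k - Aq q / m k')) : ℝ) * ze θ)
            (stX q m S c k' l' b')))) :
    Zs q m S c k' l' b' ≤ (Real.sqrt (b / b') + Real.sqrt ρ)
      * (Zs q m S c k l b + Real.sqrt ((CE q (l - k) b + 1) / b))
        + Real.sqrt (C2 q L / b') := by
  have hA := Aq_gt D.lac.one_lt
  have hb' : 16 ≤ b' := N.hb.trans N.hbb
  obtain ⟨e1, he1c, he10, he1i, he1⟩ := N.data D
  obtain ⟨hx, -⟩ := N.R D
  set R := Real.exp (-(Aq q / m k - Aq q / m k')) with hR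
  have hR0 : 0 ≤ R := (Real.exp_pos _).le
  have hR1 : R < 1 := by
    rw [hR, Real.exp_lt_one_iff]
    linarith
  have hn : ∀ θ : Ci, ‖((R : ℝ) : ℂ) * ze θ‖ < 1 := fun θ => by
    rw [R_norm hR0]
    exact hR1
  have hstc := continuous_stX q m S c k' l' b'
  have hst0 : ∀ θ, 0 ≤ stX q m S c k' l' b' θ := fun θ => sq_nonneg _
  have hstc' := continuous_stX q m S c k l b
  have hst0' : ∀ θ, 0 ≤ stX q m S c k l b θ := fun θ => sq_nonneg _
  have hlc := continuous_log1 hstc hst0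
  have hlogL : 0 ≤ Real.log L := Real.log_nonneg (by exact_mod_cast hL)
  have hPc := continuous_PI hR0 hR1 hlc
  have hPc2 := continuous_PI hR0 hR1 hstc
  have hP0 : ∀ θ, 0 ≤ PI ((R : ℝ) * ze θ) (stX q m S c k' l' b') := fun θ =>
    PI_nonneg (hn θ) hst0
  have hLc : Continuous fun θ => Real.log (1 + PI ((R : ℝ) * ze θ) (stX q m S c k' l' b')) :=
    Continuous.log (by fun_prop) fun θ => by linarith [hP0 θ]
  have hC2pos : 0 < C2 q L := by
    unfold C2
    have := logA_nonneg q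
    positivity
  unfold Zs
  refine contr2 hR0 hR1 (continuous_yb hstc hst0) (continuous_yb hstc' hst0') he1c
    (e2 := fun θ => Aq q ^ 2 + 4 + 2 * Real.log L
          + PI ((R : ℝ) * ze θ) (fun θ => 1 / 2 * Real.log (1 + stX q m S c k' l' b' θ))
          + Real.log (1 + PI ((R : ℝ) * ze θ) (stX q m S c k' l' b')))
    ((continuous_const.add hPc).add hLc) (fun θ => yb_nonneg _ _) (fun θ => yb_nonneg _ _) he10
    (fun θ => ?_) (by linarith [N.hb]) (by linarith) hρ hC2pos he1 h he1i ?_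
  · have g1 := PI_nonneg (hn θ) (U := fun θ => 1 / 2 * Real.log (1 + stX q m S c k' l' b' θ))
      fun θ => by
        have := hst0 θ
        have := Real.log_nonneg (show 1 ≤ 1 + stX q m S c k' l' b' θ by linarith)
        linarith
    have g2 := Real.log_nonneg (show 1 ≤ 1 + PI ((R : ℝ) * ze θ) (stX q m S c k' l' b') by
      linarith [hP0 θ])
    positivity
  · have ea := int_add (U := fun θ => Aq q ^ 2 + 4 + 2 * Real.log L
          + PI ((R : ℝ) * ze θ) (fun θ => 1 / 2 * Real.log (1 + stX q m S c k' l' b' θ)))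
      (V := fun θ => Real.log (1 + PI ((R : ℝ) * ze θ) (stX q m S c k' l' b')))
      (continuous_const.add hPc) hLc
    have eb := int_add (U := fun _ => Aq q ^ 2 + 4 + 2 * Real.log L)
      (V := fun θ => PI ((R : ℝ) * ze θ)
        (fun θ => 1 / 2 * Real.log (1 + stX q m S c k' l' b' θ))) continuous_const hPc
    rw [int_const, avg_PI hR0 hR1 hlc, integral_const_mul] at eb
    rw [eb] at ea
    rw [ea]
    have hI := st_avg D k' l' hb'
    have g1 := int_log_le hstc hst0 (Real.exp_pos _).le hI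
    have g2 := int_log_le hPc2 hP0 (Real.exp_pos (2 * Aq q)).le
      (by rw [avg_PI hR0 hR1 hstc]; exact hI)
    have g3 := logA_nonneg q
    unfold C2
    linarith

/-- A lower bound used to check the gap conditions. -/
lemma floor_mul_ge {q : ℝ} {m : ℕ → ℕ} (hm : Lac q m) {k p : ℕ} (hkp : k ≤ p) {x u : ℝ}
    (hx : (1 : ℝ) / m k ≤ x) (hu : Aq q * (2 * u + 3) ≤ q ^ (p - k)) :
    2 * u + 2 ≤ ⌊(m p : ℝ) / Aq q⌋₊ * x := by
  have hA := Aq_gt hm.one_lt
  have hmk := hm.posR k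
  have h1 : (m p : ℝ) / Aq q - 1 ≤ ⌊(m p : ℝ) / Aq q⌋₊ := by
    have := Nat.lt_floor_add_one ((m p : ℝ) / Aq q)
    linarith
  have h2 := hm.pow (p - k) k
  rw [show k + (p - k) = p by omega] at h2
  have h3 : (⌊(m p : ℝ) / Aq q⌋₊ : ℝ) * (1 / m k) ≤ ⌊(m p : ℝ) / Aq q⌋₊ * x :=
    mul_le_mul_of_nonneg_left hx (Nat.cast_nonneg _)
  refine le_trans ?_ h3
  rw [mul_one_div, le_div_iff₀ hmk]
  refine le_trans ?_ h1
  have h4 : (2 * u + 3) * m k ≤ m p / Aq q := by
    rw [le_div_iff₀ (by linarith)]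
    calc (2 * u + 3) * m k * Aq q = Aq q * (2 * u + 3) * m k := by ring
      _ ≤ q ^ (p - k) * m k := mul_le_mul_of_nonneg_right hu hmk.le
      _ ≤ m p := h2
  have h5 : (1 : ℝ) ≤ m k := by exact_mod_cast hm.pos k
  nlinarith

/-- The rotation step. -/
lemma Nx.rot {q : ℝ} {m : ℕ → ℕ} {S : Finset ℤ} {c : ℤ → ℂ} (D : Dat q m S c)
    {k l k' l' : ℕ} {b b' : ℝ} (N : Nx q m c k l b k' l' b') {L : ℕ} (hL : 0 < L)
    (hgap : ∀ j, L ≤ j → m (j - L) + m (j - 1) ≤ m j)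
    (hβ : Real.exp (-(2 * b)) / 2 ≤ ∑ i ∈ Ioc l k', ‖c (-(m i : ℤ))‖ ^ 2)
    (hbig : b + Aq q ^ 2 + 1 + Real.log L ≤ b')
    (hu : Aq q * (2 * b' + 3) ≤ q ^ (l + 1 - k)) :
    Zs q m S c k' l' b' ≤ (Real.sqrt (b / b') + Real.sqrt ((L * b' + b) / ((L + 1) * b')))
      * (Zs q m S c k l b + Real.sqrt ((CE q (l - k) b + 1) / b))
        + Real.sqrt (C2 q L / b') := by
  have hA := Aq_gt D.lac.one_lt
  have hb16 := N.hb
  have hb' : 16 ≤ b' := N.hb.trans N.hbb
  have hkl := N.hkl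
  have hlk := N.hlk
  have h0 : (0 : ℝ) ≤ Aq q / m k' := div_nonneg (by linarith) (D.lac.posR k').le
  have hL1 : (1 : ℝ) ≤ L := by exact_mod_cast hL
  have hlogL : 0 ≤ Real.log L := Real.log_nonneg hL1
  obtain ⟨hx, hx1⟩ := N.R D
  refine N.contr D hL (by positivity) fun θ => ?_
  set R := Real.exp (-(Aq q / m k - Aq q / m k')) with hR
  have hR0 : 0 ≤ R := (Real.exp_pos _).le
  set d := gi m (ep b') (sc (Aq q / m k') c) k' l' with hd
  have hdc : ∀ n, d n ≠ 0 → c n ≠ 0 := fun n hn h => hn (by simp [hd, gi, sc, h])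
  have hrot := rotW D.lac hL hgap (S := S) (d := d) (fun n hn => D.supp n (hdc n hn))
    (fun n hn => D.sp n (hdc n hn)) (j0 := l) (K := k') hlk.le (fun n hn => gi_low hn) hx
    (w := (R : ℝ) * ze θ) (R_norm hR0 θ) (u := b') (β := b + Aq q ^ 2 + 1) (by positivity) (by
      have h1 : ∀ i ∈ Ioc l k', Real.exp (-(Aq q) ^ 2) ^ 2 * ‖c (-(m i : ℤ))‖ ^ 2
          ≤ ‖d (-(m i : ℤ))‖ ^ 2 := by
        intro i hi
        rw [← mul_pow]
        exact pow_le_pow_left₀ (by positivity)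
          (norm_low D.lac (ep_pos hb') h0 (Finset.mem_Ioc.mp hi).2) 2
      calc Real.exp (-(2 * (b + Aq q ^ 2 + 1)))
          = Real.exp (-(Aq q) ^ 2) ^ 2 * (Real.exp (-(2 * b)) * Real.exp (-2)) := by
            rw [← Real.exp_nat_mul, ← Real.exp_add, ← Real.exp_add]
            congr 1
            push_cast
            ring
        _ ≤ Real.exp (-(Aq q) ^ 2) ^ 2 * (Real.exp (-(2 * b)) / 2) := by
            refine mul_le_mul_of_nonneg_left ?_ (by positivity)
            rw [div_eq_mul_inv]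
            refine mul_le_mul_of_nonneg_left ?_ (Real.exp_pos _).le
            rw [Real.exp_neg]
            refine inv_anti₀ two_pos ?_
            have := Real.add_one_le_exp (2 : ℝ)
            linarith
        _ ≤ Real.exp (-(Aq q) ^ 2) ^ 2 * ∑ i ∈ Ioc l k', ‖c (-(m i : ℤ))‖ ^ 2 :=
            mul_le_mul_of_nonneg_left hβ (by positivity)
        _ ≤ ∑ i ∈ Ioc l k', ‖d (-(m i : ℤ))‖ ^ 2 := by
            rw [Finset.mul_sum]
            exact Finset.sum_le_sum h1) hbig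
    (floor_mul_ge D.lac (by omega) hx1 hu)
  have hX : (fun θ => ‖E S d (ze θ)‖ ^ 2) = stX q m S c k' l' b' := by
    ext θ
    rw [stX_eq]
  have hX1 : (fun θ => yb b' (‖E S d (ze θ)‖ ^ 2)) = fun θ => yb b' (stX q m S c k' l' b' θ) := by
    ext θ
    rw [stX_eq]
  have hX2 : (fun θ => 1 / 2 * Real.log (1 + ‖E S d (ze θ)‖ ^ 2))
      = fun θ => 1 / 2 * Real.log (1 + stX q m S c k' l' b' θ) := by
    ext θ
    rw [stX_eq]
  rw [hX, hX1, hX2] at hrot
  refine hrot.trans ?_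
  have h2 : (L * b' + (b + Aq q ^ 2 + 1) + Real.log L) / (L + 1)
      ≤ (L * b' + b) / ((L + 1) * b') * b' + (Aq q ^ 2 + 1 + Real.log L) := by
    have h3 : (L * b' + b) / ((L + 1) * b') * b' = (L * b' + b) / (L + 1) := by
      have : b' ≠ 0 := by linarith
      field_simp
    rw [h3]
    have h4 : (L * b' + (b + Aq q ^ 2 + 1) + Real.log L) / (L + 1)
        = (L * b' + b) / (L + 1) + (Aq q ^ 2 + 1 + Real.log L) / (L + 1) := by
      rw [← add_div]
      congr 1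
      ring
    rw [h4]
    have h5 : (Aq q ^ 2 + 1 + Real.log L) / (L + 1) ≤ Aq q ^ 2 + 1 + Real.log L :=
      div_le_self (by positivity) (by linarith)
    linarith
  linarith

/-- The step at a jump, moderate case. -/
lemma Nx.cap {q : ℝ} {m : ℕ → ℕ} {S : Finset ℤ} {c : ℤ → ℂ} (D : Dat q m S c)
    {k l k' l' : ℕ} {b b' : ℝ} (N : Nx q m c k l b k' l' b') {β : ℝ} (hβ0 : 0 < β)
    (hβ : Real.exp (-β) ≤ ‖c (-(m k' : ℤ))‖) (hbig : β + Aq q ^ 2 ≤ b')
    (hu : Aq q * (2 * b' + 3) ≤ q ^ (l + 1 - k)) {L : ℕ} (hL : 0 < L) :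
    Zs q m S c k' l' b' ≤ (Real.sqrt (b / b') + Real.sqrt (β / b'))
      * (Zs q m S c k l b + Real.sqrt ((CE q (l - k) b + 1) / b))
        + Real.sqrt (C2 q L / b') := by
  have hA := Aq_gt D.lac.one_lt
  have hb16 := N.hb
  have hb' : 16 ≤ b' := N.hb.trans N.hbb
  have hkl := N.hkl
  have hlk := N.hlk
  have h0 : (0 : ℝ) ≤ Aq q / m k' := div_nonneg (by linarith) (D.lac.posR k').le
  have hL1 : (1 : ℝ) ≤ L := by exact_mod_cast hL
  have hlogL : 0 ≤ Real.log L := Real.log_nonneg hL1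
  obtain ⟨hx, hx1⟩ := N.R D
  refine N.contr D hL (by positivity) fun θ => ?_
  set R := Real.exp (-(Aq q / m k - Aq q / m k')) with hR
  have hR0 : 0 ≤ R := (Real.exp_pos _).le
  set d := gi m (ep b') (sc (Aq q / m k') c) k' l' with hd
  have hdc : ∀ n, d n ≠ 0 → c n ≠ 0 := fun n hn h => hn (by simp [hd, gi, sc, h])
  have hu' : Aq q * (2 * b' + 3) ≤ q ^ (k' - k) :=
    hu.trans (pow_le_pow_right₀ D.lac.one_lt.le (by omega))
  have hcap := capW D.lac (S := S) (d := d) (fun n hn => D.supp n (hdc n hn))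
    (fun n hn => D.sp n (hdc n hn)) (K := k') (by omega) (fun n hn => gi_low hn) hx
    (w := (R : ℝ) * ze θ) (R_norm hR0 θ) (u := b') (β := β + Aq q ^ 2) (by positivity) (by
      refine le_trans ?_ (norm_low D.lac (ep_pos hb') h0 le_rfl)
      calc Real.exp (-(β + Aq q ^ 2)) = Real.exp (-(Aq q) ^ 2) * Real.exp (-β) := by
            rw [← Real.exp_add]
            congr 1
            ring
        _ ≤ _ := mul_le_mul_of_nonneg_left hβ (Real.exp_pos _).le) hbig
    (floor_mul_ge D.lac (by omega) hx1 hu')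
  have hX : (fun θ => ‖E S d (ze θ)‖ ^ 2) = stX q m S c k' l' b' := by
    ext θ
    rw [stX_eq]
  have hX1 : (fun θ => yb b' (‖E S d (ze θ)‖ ^ 2)) = fun θ => yb b' (stX q m S c k' l' b' θ) := by
    ext θ
    rw [stX_eq]
  have hX2 : (fun θ => 1 / 2 * Real.log (1 + ‖E S d (ze θ)‖ ^ 2))
      = fun θ => 1 / 2 * Real.log (1 + stX q m S c k' l' b' θ) := by
    ext θ
    rw [stX_eq]
  rw [hX, hX1, hX2] at hcap
  refine hcap.trans ?_
  have h3 : β / b' * b' = β := div_mul_cancel₀ _ (by linarith)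
  rw [h3]
  linarith

/-- The step at a jump, large case. -/
lemma Nx.capG {q : ℝ} {m : ℕ → ℕ} {S : Finset ℤ} {c : ℤ → ℂ} (D : Dat q m S c)
    {k l k' l' : ℕ} {b b' : ℝ} (N : Nx q m c k l b k' l' b') {β : ℝ}
    (hβ : Real.exp (-β) ≤ ‖c (-(m k' : ℤ))‖) {L : ℕ} (hL : 0 < L) :
    Zs q m S c k' l' b' ≤ Real.sqrt (b / b')
      * (Zs q m S c k l b + Real.sqrt ((CE q (l - k) b + 1) / b))
        + Real.sqrt (Zs q m S c k l b + (CE q (l - k) b + 1) / b)
          * Real.sqrt ((β + C2 q L) / b') := by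
  have hA := Aq_gt D.lac.one_lt
  have hb16 := N.hb
  have hb' : 16 ≤ b' := N.hb.trans N.hbb
  have hkl := N.hkl
  have hlk := N.hlk
  have h0 : (0 : ℝ) ≤ Aq q / m k' := div_nonneg (by linarith) (D.lac.posR k').le
  have hL1 : (1 : ℝ) ≤ L := by exact_mod_cast hL
  have hlogL : 0 ≤ Real.log L := Real.log_nonneg hL1
  have hlA := logA_nonneg q
  obtain ⟨hx, -⟩ := N.R D
  obtain ⟨e1, he1c, he10, he1i, he1⟩ := N.data D
  set R := Real.exp (-(Aq q / m k - Aq q / m k')) with hR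
  have hR0 : 0 ≤ R := (Real.exp_pos _).le
  have hR1 : R < 1 := by
    rw [hR, Real.exp_lt_one_iff]
    linarith
  set d := gi m (ep b') (sc (Aq q / m k') c) k' l' with hd
  have hdc : ∀ n, d n ≠ 0 → c n ≠ 0 := fun n hn h => hn (by simp [hd, gi, sc, h])
  have hstc := continuous_stX q m S c k' l' b'
  have hst0 : ∀ θ, 0 ≤ stX q m S c k' l' b' θ := fun θ => sq_nonneg _
  have hstc' := continuous_stX q m S c k l b
  have hst0' : ∀ θ, 0 ≤ stX q m S c k l b θ := fun θ => sq_nonneg _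
  have hcap := Pool.Agent.Helper61.HL.capG (S := S) (d := d) (m := m)
    (fun n hn => D.supp n (hdc n hn)) (K := k') (fun n hn => gi_low hn)
    (u := b') (β := β + Aq q ^ 2) (by linarith) (by
      refine le_trans ?_ (norm_low D.lac (ep_pos hb') h0 le_rfl)
      calc Real.exp (-(β + Aq q ^ 2)) = Real.exp (-(Aq q) ^ 2) * Real.exp (-β) := by
            rw [← Real.exp_add]
            congr 1
            ring
        _ ≤ _ := mul_le_mul_of_nonneg_left hβ (Real.exp_pos _).le)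
  have hX1 : (fun θ => yb b' (‖E S d (ze θ)‖ ^ 2)) = fun θ => yb b' (stX q m S c k' l' b' θ) := by
    ext θ
    rw [stX_eq]
  have hX2 : (fun θ => 1 / 2 * Real.log (1 + ‖E S d (ze θ)‖ ^ 2))
      = fun θ => 1 / 2 * Real.log (1 + stX q m S c k' l' b' θ) := by
    ext θ
    rw [stX_eq]
  rw [hX1, hX2, integral_const_mul] at hcap
  have hI := st_avg D k' l' hb'
  have g1 := int_log_le hstc hst0 (Real.exp_pos _).le hI
  have hG : ∫ θ, yb b' (stX q m S c k' l' b' θ) ∂mu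
      ≤ β + Aq q ^ 2 + 1 / 2 * Real.log (1 + Real.exp (2 * Aq q)) := by linarith
  have h3 := contr3 hR0 hR1 (continuous_yb hstc hst0) (continuous_yb hstc' hst0') he1c
    (fun θ => yb_nonneg _ _) (fun θ => yb_nonneg _ _) he10 (b := b) (b' := b') (by linarith)
    (by linarith) (fun θ => yb_le (by linarith) (hst0' θ)) he1 hG he1i
  unfold Zs
  refine h3.trans (add_le_add le_rfl ?_)
  refine mul_le_mul_of_nonneg_left (Real.sqrt_le_sqrt ?_) (Real.sqrt_nonneg _)
  refine div_le_div_of_nonneg_right ?_ (by linarith)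
  unfold C2
  linarith

end

end Pool.Agent.Helper61.HL
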