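import Pool.Agent.Helper61.HL.Undo

/-!
# Comparison of consecutive states
-/

namespace Pool.Agent.Helper61.HL

noncomputable section

open MeasureTheory AddCircle Complex Finset

lemma Sp_mul {m : ℕ → ℕ} {c : ℤ → ℂ} (hc : Sp m c) (μ : ℤ → ℂ) : Sp m (fun n => μ n * c n) := by
  intro n hn
  exact hc n fun h => hn (by simp only [h, mul_zero])

lemma lemA {q : ℝ} {m : ℕ → ℕ} (hL : Lac q m) {S : Finset ℤ} {c : ℤ → ℂ} (hc : Sp m c)
    {ε ε' b h' : ℝ} (hε : 0 < ε) (hε1 : ε ≤ 1) (hε' : 0 < ε') {k l k' l' : ℕ} (hkl : k ≤ l)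
    (hlk : l < k') (h0 : 0 ≤ h') (h1 : h' ≤ Aq q / m k')
    {U : Ci → ℝ} (hU : Continuous U) (hU0 : ∀ θ, 0 ≤ U θ)
    (hst : ∀ θ, ‖E S (gi m ε (fun n => (Mu m ε' (Ioc k' l') n : ℂ) * c n) l l) (ze θ)‖ ^ 2
      ≤ Real.exp (2 * (U θ - b)))
    {w : ℂ} (hw : ‖w‖ = Real.exp (-(Aq q / m k - h')))
    (hcond : k' < l' → 2 * (m k * (1 + 8 * (1 + 8 * ε) ^ (l - k) * PI w U)) ≤ m (k' + 1)) :
    ‖E S (gi m ε c k l) w‖ ≤ Real.exp (2 * Aq q) * (4 * Real.exp (Aq q) / ε) ^ (l - k)
      * Real.exp ((1 + 8 * ε) ^ (l - k) * PI w U - b) := by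
  set d : ℤ → ℂ := fun n => (Mu m ε' (Ioc k' l') n : ℂ) * c n with hd
  have hSp : Sp m d := Sp_mul hc _
  have hA := Aq_gt hL.one_lt
  have h2 : h' ≤ Aq q / m (l + 1) := by
    refine h1.trans (div_le_div_of_nonneg_left (by linarith) (hL.posR _) ?_)
    exact_mod_cast hL.mono.monotone hlk
  obtain ⟨hx, hxA, hx1⟩ := height_bounds hL (show k < k' by omega) h0 h1
  set x := Aq q / m k - h' with hxdef
  have hki := kill_iter hL hSp hε hε1 h0 h2 hU hU0 hst (l - k) k (by omega)
  have hw1 : ‖w‖ < 1 := by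
    rw [hw, Real.exp_lt_one_iff]
    linarith
  have hw0 : w ≠ 0 := by
    rw [← norm_pos_iff, hw]
    exact Real.exp_pos _
  have hPI0 : 0 ≤ PI w U := PI_nonneg hw1 hU0
  set a := (1 + 8 * ε) ^ (l - k) with ha
  have ha0 : 0 ≤ a := by positivity
  set lam := m k * (1 + 8 * a * PI w U) with hlam
  have hmk := hL.posR k
  have hlamν : (m k : ℝ) ≤ lam := by
    have : 0 ≤ 8 * a * PI w U := by positivity
    nlinarith
  set B := Real.exp (Aq q) * (4 * Real.exp (Aq q) / ε) ^ (l - k)
      * Real.exp (a * PI w U - b) with hB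
  have hB0 : 0 ≤ B := by positivity
  have hX0 : ∀ s : ℝ, 0 ≤ s → ‖E S (fun n => (Mu m ε' (Ioc k' l') n : ℂ) * gi m ε c k l n)
      ((Real.exp (-s) : ℝ) * w)‖ ≤ B * Real.exp (lam * s) := by
    intro s hs
    have hfun : (fun n => (Mu m ε' (Ioc k' l') n : ℂ) * gi m ε c k l n) = gi m ε d k l := by
      ext n
      unfold gi
      split_ifs
      · rw [hd]
        ring
      · rw [mul_zero]
    rw [hfun]
    set ζ := ((Real.exp (-s) : ℝ) : ℂ) * w with hζ
    have hζn : ‖ζ‖ = Real.exp (-(x + s)) := by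
      rw [hζ, norm_mul, Complex.norm_real, Real.norm_of_nonneg (Real.exp_pos _).le, hw,
        ← Real.exp_add]
      congr 1
      ring
    have hζ0 : ζ ≠ 0 := by
      rw [← norm_pos_iff, hζn]
      exact Real.exp_pos _
    have h3 := hki ζ hζ0 (by
      rw [hζn, Real.exp_le_exp]
      linarith)
    have h4 := PI_harnack hx hs hw hU hU0
    rw [← hζ] at h4
    have h5 : ‖ζ‖ ^ m k = Real.exp (-(m k * (x + s))) := by
      rw [hζn, ← Real.exp_nat_mul]
      congr 1
      ring
    rw [h5] at h3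
    have h6 : ‖E S (gi m ε d k l) ζ‖
        = Real.exp (m k * (x + s)) * (Real.exp (-(m k * (x + s))) * ‖E S (gi m ε d k l) ζ‖) := by
      rw [← mul_assoc, ← Real.exp_add, add_neg_cancel, Real.exp_zero, one_mul]
    rw [h6]
    have h7 : s / x ≤ m k * s := by
      rw [div_le_iff₀ hx]
      nlinarith
    have h8 : a * PI ζ U ≤ a * PI w U + 8 * a * PI w U * (m k * s) := by
      calc a * PI ζ U ≤ a * ((1 + 8 * (s / x)) * PI w U) := mul_le_mul_of_nonneg_left h4 ha0
        _ = a * PI w U + 8 * a * PI w U * (s / x) := by ring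
        _ ≤ a * PI w U + 8 * a * PI w U * (m k * s) := by
            have := mul_le_mul_of_nonneg_left h7 (show 0 ≤ 8 * a * PI w U by positivity)
            linarith
    calc Real.exp (m k * (x + s)) * (Real.exp (-(m k * (x + s))) * ‖E S (gi m ε d k l) ζ‖)
        ≤ Real.exp (m k * (x + s)) * ((4 * Real.exp (Aq q) / ε) ^ (l - k)
          * Real.exp (a * PI ζ U - b)) := mul_le_mul_of_nonneg_left h3 (Real.exp_pos _).le
      _ = (4 * Real.exp (Aq q) / ε) ^ (l - k)
          * Real.exp (m k * (x + s) + (a * PI ζ U - b)) := by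
          rw [Real.exp_add]
          ring
      _ ≤ (4 * Real.exp (Aq q) / ε) ^ (l - k)
          * Real.exp (Aq q + (a * PI w U - b) + lam * s) := by
          refine mul_le_mul_of_nonneg_left ?_ (by positivity)
          rw [Real.exp_le_exp, hlam]
          nlinarith
      _ = B * Real.exp (lam * s) := by
          rw [hB, Real.exp_add, Real.exp_add]
          ring
  have hfin := undo_iter (S := S) (ν := m k) hlamν hε' (w := w) (Ioc k' l') (by
    intro j hj
    have hj1 := Finset.mem_Ioc.mp hj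
    have h3 := hcond (by omega)
    have h4 : (m (k' + 1) : ℝ) ≤ m j := by exact_mod_cast hL.mono.monotone hj1.1
    have : 0 < lam := hmk.trans_le hlamν
    linarith) (gi m ε c k l) B hB0 (fun n _ hn => gi_low hn) hX0 0 le_rfl
  rw [neg_zero, Real.exp_zero, Complex.ofReal_one, one_mul, mul_zero, Real.exp_zero, mul_one] at hfin
  refine hfin.trans ?_
  have h9 := prod_inv_le hL (k := k') (l := l') (lam := lam) (hmk.le.trans hlamν) hcond
  calc B * ∏ j ∈ Ioc k' l', (1 - lam / m j)⁻¹ ≤ B * Real.exp (Aq q) :=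
        mul_le_mul_of_nonneg_left h9 hB0
    _ = _ := by
        rw [hB, two_mul, Real.exp_add]
        ring

/-- Smooth truncation of `log |F|` in terms of `x = |F| ^ 2`. -/
def Ld (b x : ℝ) : ℝ := 1 / 2 * Real.log (Real.exp (-(2 * b)) + x)

/-- Truncation of the positive part of `- log |F|` in terms of `x = |F| ^ 2`. -/
def yb (b x : ℝ) : ℝ := max (-Ld b x) 0

lemma Ld_ge {b x : ℝ} (hx : 0 ≤ x) : -b ≤ Ld b x := by
  unfold Ld
  have h1 : Real.log (Real.exp (-(2 * b))) ≤ Real.log (Real.exp (-(2 * b)) + x) :=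
    Real.log_le_log (Real.exp_pos _) (by linarith)
  rw [Real.log_exp] at h1
  linarith

lemma Ld_le {b x : ℝ} (hb : 0 ≤ b) (hx : 0 ≤ x) : Ld b x ≤ 1 / 2 * Real.log (1 + x) := by
  unfold Ld
  have h1 : Real.exp (-(2 * b)) ≤ 1 := by
    rw [Real.exp_le_one_iff]
    linarith
  have h2 : Real.log (Real.exp (-(2 * b)) + x) ≤ Real.log (1 + x) :=
    Real.log_le_log (by positivity) (by linarith)
  linarith

lemma yb_nonneg (b x : ℝ) : 0 ≤ yb b x := le_max_right _ _

lemma yb_le {b x : ℝ} (hb : 0 ≤ b) (hx : 0 ≤ x) : yb b x ≤ b := by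
  unfold yb
  have := Ld_ge (b := b) hx
  exact max_le (by linarith) hb

lemma yb_le' {b x : ℝ} (hb : 0 ≤ b) (hx : 0 ≤ x) : yb b x ≤ -Ld b x + 1 / 2 * Real.log (1 + x) := by
  unfold yb
  have h1 := Ld_le hb hx
  have h2 : 0 ≤ Real.log (1 + x) := Real.log_nonneg (by linarith)
  exact max_le (by linarith) (by linarith)

lemma continuous_Ld {b : ℝ} {x : Ci → ℝ} (hx : Continuous x) (hx0 : ∀ θ, 0 ≤ x θ) :
    Continuous fun θ => Ld b (x θ) := by
  unfold Ld
  refine continuous_const.mul (Continuous.log (by fun_prop) fun θ => ?_)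
  have := hx0 θ
  have := Real.exp_pos (-(2 * b))
  linarith

lemma continuous_yb {b : ℝ} {x : Ci → ℝ} (hx : Continuous x) (hx0 : ∀ θ, 0 ≤ x θ) :
    Continuous fun θ => yb b (x θ) :=
  (continuous_Ld hx hx0).neg.max continuous_const

lemma continuous_log1 {x : Ci → ℝ} (hx : Continuous x) (hx0 : ∀ θ, 0 ≤ x θ) :
    Continuous fun θ => 1 / 2 * Real.log (1 + x θ) := by
  refine continuous_const.mul (Continuous.log (by fun_prop) fun θ => ?_)
  have := hx0 θ
  linarith

/-- The step `ε` attached to the level `b`. -/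
def ep (b : ℝ) : ℝ := 1 / b ^ 2

/-- The constant error. -/
def Ck (q : ℝ) (κ : ℕ) (b : ℝ) : ℝ :=
  2 * Aq q + κ * (Real.log 4 + Aq q + 2 * Real.log b) + 33

lemma log_two_le : Real.log 2 ≤ 1 := by
  have := Real.log_le_sub_one_of_pos (show (0 : ℝ) < 2 by norm_num)
  linarith

/-- The comparison between a state and the next one, at one point. -/
lemma stepA {q : ℝ} {m : ℕ → ℕ} (hL : Lac q m) {S : Finset ℤ} {c : ℤ → ℂ} (hc : Sp m c)
    {b ε' h' : ℝ} (hb : 16 ≤ b) (hε' : 0 < ε') {k l k' l' : ℕ} (hkl : k ≤ l)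
    (hlk : l < k') (hκ : ((l - k : ℕ) : ℝ) ≤ b) (h0 : 0 ≤ h') (h1 : h' ≤ Aq q / m k')
    (hcond : k' < l' → 2 * (1 + 48 * b) * m k ≤ m (k' + 1))
    {w : ℂ} (hw : ‖w‖ = Real.exp (-(Aq q / m k - h'))) :
    PI w (fun θ => yb b (‖E S (gi m ε' c k' l') (ze θ)‖ ^ 2))
      ≤ yb b (‖E S (gi m (ep b) c k l) w‖ ^ 2) + Ck q (l - k) b
        + PI w (fun θ => 1 / 2 * Real.log (1 + Real.exp (2 * b)
            * ‖E S (fun n => if -(m k' : ℤ) ≤ n ∧ n < -(m l : ℤ) then
              (Mu m ε' (Ioc k' l') n : ℂ) * c n else 0) (ze θ)‖ ^ 2))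
        + PI w (fun θ => 1 / 2 * Real.log (1 + ‖E S (gi m ε' c k' l') (ze θ)‖ ^ 2)) := by
  set T : ℤ → ℂ := fun n => if -(m k' : ℤ) ≤ n ∧ n < -(m l : ℤ) then
              (Mu m ε' (Ioc k' l') n : ℂ) * c n else 0 with hT
  set X : Ci → ℝ := fun θ => ‖E S (gi m ε' c k' l') (ze θ)‖ ^ 2 with hX
  set Y : Ci → ℝ := fun θ => Real.exp (2 * b) * ‖E S T (ze θ)‖ ^ 2 with hY
  have hXc : Continuous X := (continuous_E S _).norm.pow 2
  have hX0 : ∀ θ, 0 ≤ X θ := fun θ => sq_nonneg _
  have hYc : Continuous Y := continuous_const.mul ((continuous_E S _).norm.pow 2)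
  have hY0 : ∀ θ, 0 ≤ Y θ := fun θ => by positivity
  have hb0 : 0 < b := by linarith
  obtain ⟨hx, -, -⟩ := height_bounds hL (show k < k' by omega) h0 h1
  have hw1 : ‖w‖ < 1 := by
    rw [hw, Real.exp_lt_one_iff]
    linarith
  have hA := Aq_gt hL.one_lt
  have hlogb : 0 ≤ Real.log b := Real.log_nonneg (by linarith)
  have hlog4 : 0 ≤ Real.log 4 := Real.log_nonneg (by norm_num)
  have hCk0 : 33 ≤ Ck q (l - k) b := by
    unfold Ck
    have : 0 ≤ ((l - k : ℕ) : ℝ) * (Real.log 4 + Aq q + 2 * Real.log b) := by positivity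
    linarith
  set IX := PI w (fun θ => 1 / 2 * Real.log (1 + X θ)) with hIX
  set IY := PI w (fun θ => 1 / 2 * Real.log (1 + Y θ)) with hIY
  have hlXc := continuous_log1 hXc hX0
  have hlYc := continuous_log1 hYc hY0
  have hIX0 : 0 ≤ IX := PI_nonneg hw1 fun θ => by
    have := hX0 θ
    have := Real.log_nonneg (show 1 ≤ 1 + X θ by linarith)
    linarith
  have hIY0 : 0 ≤ IY := PI_nonneg hw1 fun θ => by
    have := hY0 θ
    have := Real.log_nonneg (show 1 ≤ 1 + Y θ by linarith)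
    linarith
  have hyc := continuous_yb (b := b) hXc hX0
  have hl2 := log_two_le
  have hl20 : 0 ≤ Real.log 2 := Real.log_nonneg (by norm_num)
  have hy0 := yb_nonneg b (‖E S (gi m (ep b) c k l) w‖ ^ 2)
  -- the trivial case
  by_cases hbig : b ≤ IX + IY + 1
  · have h2 : PI w (fun θ => yb b (X θ)) ≤ b :=
      PI_le_of_le hw1 hyc fun θ => yb_le hb0.le (hX0 θ)
    linarith
  push Not at hbig
  -- the majorant
  set U : Ci → ℝ := fun θ => (b + Ld b (X θ)) + (1 / 2 * Real.log (1 + Y θ) + 1 / 2 * Real.log 2)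
    with hUdef
  have hLdc := continuous_Ld (b := b) hXc hX0
  have hUc : Continuous U := (continuous_const.add hLdc).add (hlYc.add continuous_const)
  have hU0 : ∀ θ, 0 ≤ U θ := by
    intro θ
    have h2 := Ld_ge (b := b) (hX0 θ)
    have h3 : 0 ≤ Real.log (1 + Y θ) := Real.log_nonneg (by linarith [hY0 θ])
    simp only [hUdef]
    linarith
  have hPIU : PI w U = b + PI w (fun θ => Ld b (X θ)) + (IY + 1 / 2 * Real.log 2) := by
    have e1 := PI_add hw1 (U := fun θ => b + Ld b (X θ))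
      (V := fun θ => 1 / 2 * Real.log (1 + Y θ) + 1 / 2 * Real.log 2)
      (continuous_const.add hLdc) (hlYc.add continuous_const)
    have e2 := PI_add hw1 (U := fun _ => b) (V := fun θ => Ld b (X θ)) continuous_const hLdc
    have e3 := PI_add hw1 (U := fun θ => 1 / 2 * Real.log (1 + Y θ))
      (V := fun _ => 1 / 2 * Real.log 2) hlYc continuous_const
    rw [PI_const hw1] at e2 e3
    rw [e2, e3] at e1
    exact e1
  have hLdle : PI w (fun θ => Ld b (X θ)) ≤ IX :=
    PI_mono hw1 hLdc hlXc fun θ => Ld_le hb0.le (hX0 θ)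
  have hH2b : PI w U ≤ 2 * b := by
    rw [hPIU]
    linarith
  have hH0 : 0 ≤ PI w U := PI_nonneg hw1 hU0
  have hep0 : 0 < ep b := by unfold ep; positivity
  have hep1 : ep b ≤ 1 := by
    unfold ep
    rw [div_le_one (by positivity)]
    nlinarith
  -- the exponent
  set a := (1 + 8 * ep b) ^ (l - k) with ha
  have ha16 : a ≤ 1 + 16 / b := by
    have h2 : a ≤ Real.exp (8 / b) := by
      calc a ≤ Real.exp (8 * ep b) ^ (l - k) := by
            refine pow_le_pow_left₀ (by positivity) ?_ _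
            have := Real.add_one_le_exp (8 * ep b)
            linarith
        _ = Real.exp ((l - k : ℕ) * (8 * ep b)) := by rw [← Real.exp_nat_mul]
        _ ≤ Real.exp (8 / b) := by
            rw [Real.exp_le_exp]
            calc ((l - k : ℕ) : ℝ) * (8 * ep b) ≤ b * (8 * ep b) :=
                  mul_le_mul_of_nonneg_right hκ (by positivity)
              _ = 8 / b := by
                  unfold ep
                  field_simp
    have h3 : Real.exp (8 / b) ≤ 1 + 16 / b := by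
      set t := 8 / b with ht
      have ht0 : 0 ≤ t := by positivity
      have ht1 : t ≤ 1 / 2 := by
        rw [ht, div_le_div_iff₀ hb0 two_pos]
        linarith
      have h4 := Real.add_one_le_exp (-t)
      have h5 : Real.exp t * Real.exp (-t) = 1 := by
        rw [← Real.exp_add, add_neg_cancel, Real.exp_zero]
      have h6 := Real.exp_pos t
      have h7 : Real.exp t * (1 - t) ≤ 1 := by nlinarith
      have h8 : 1 ≤ (1 + 2 * t) * (1 - t) := by nlinarith
      have h9 : Real.exp t * (1 - t) ≤ (1 + 2 * t) * (1 - t) := h7.trans h8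
      have h10 := le_of_mul_le_mul_right h9 (by linarith)
      have h11 : 16 / b = 2 * t := by
        rw [ht]
        ring
      rw [h11]
      exact h10
    exact h2.trans h3
  have ha0 : 0 ≤ a := by positivity
  have h16b : 16 / b ≤ 1 := by
    rw [div_le_one hb0]
    exact hb
  have ha3 : a ≤ 3 := by linarith
  have haH : a * PI w U - b ≤ PI w U - b + 32 := by
    have h2 : a * PI w U ≤ (1 + 16 / b) * PI w U := mul_le_mul_of_nonneg_right ha16 hH0
    have h3 : 16 / b * PI w U ≤ 16 / b * (2 * b) := mul_le_mul_of_nonneg_left hH2b (by positivity)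
    have h4 : 16 / b * (2 * b) = 32 := by
      field_simp
      norm_num
    nlinarith
  have hst : ∀ θ, ‖E S (gi m (ep b) (fun n => (Mu m ε' (Ioc k' l') n : ℂ) * c n) l l) (ze θ)‖ ^ 2
      ≤ Real.exp (2 * (U θ - b)) := by
    intro θ
    have h2 : E S (gi m (ep b) (fun n => (Mu m ε' (Ioc k' l') n : ℂ) * c n) l l) (ze θ)
        = E S (gi m ε' c k' l') (ze θ) - E S T (ze θ) := by
      unfold E
      rw [← Finset.sum_sub_distrib]
      refine Finset.sum_congr rfl fun n _ => ?_
      have hml : m l < m k' := hL.mono hlk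
      have h3 : gi m (ep b) (fun n => (Mu m ε' (Ioc k' l') n : ℂ) * c n) l l n
          = gi m ε' c k' l' n - T n := by
        simp only [gi, hT, Finset.Ioc_self, Mu, Finset.prod_empty, Complex.ofReal_one, one_mul]
        by_cases h4 : -(m l : ℤ) ≤ n
        · rw [if_pos h4, if_pos (by omega), if_neg (by omega), sub_zero]
        · rw [if_neg h4]
          by_cases h5 : -(m k' : ℤ) ≤ n
          · rw [if_pos h5, if_pos ⟨h5, by omega⟩, sub_self]
          · rw [if_neg h5, if_neg (by omega), sub_zero]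
      rw [h3]
      ring
    have h3 : Real.exp (2 * (U θ - b)) = 2 * ((Real.exp (-(2 * b)) + X θ) * (1 + Y θ)) := by
      have hp1 : 0 < Real.exp (-(2 * b)) + X θ := by
        have := Real.exp_pos (-(2 * b))
        linarith [hX0 θ]
      have hp2 : 0 < 1 + Y θ := by linarith [hY0 θ]
      have h4 : 2 * (U θ - b) = Real.log (Real.exp (-(2 * b)) + X θ) + Real.log (1 + Y θ)
          + Real.log 2 := by
        simp only [hUdef, Ld]
        ring
      rw [h4, Real.exp_add, Real.exp_add, Real.exp_log hp1, Real.exp_log hp2,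
        Real.exp_log two_pos]
      ring
    rw [h2, h3]
    have h4 : ‖E S (gi m ε' c k' l') (ze θ) - E S T (ze θ)‖ ^ 2
        ≤ 2 * X θ + 2 * ‖E S T (ze θ)‖ ^ 2 := by
      have h5 := norm_sub_le (E S (gi m ε' c k' l') (ze θ)) (E S T (ze θ))
      have h6 := pow_le_pow_left₀ (norm_nonneg _) h5 2
      simp only [hX]
      nlinarith [sq_nonneg (‖E S (gi m ε' c k' l') (ze θ)‖ - ‖E S T (ze θ)‖)]
    refine h4.trans ?_
    have h7 : Real.exp (-(2 * b)) * Y θ = ‖E S T (ze θ)‖ ^ 2 := by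
      simp only [hY]
      rw [← mul_assoc, ← Real.exp_add, neg_add_cancel, Real.exp_zero, one_mul]
    have h8 : (Real.exp (-(2 * b)) + X θ) * (1 + Y θ)
        = X θ + ‖E S T (ze θ)‖ ^ 2 + (Real.exp (-(2 * b)) + X θ * Y θ) := by
      rw [← h7]
      ring
    rw [h8]
    have h9 : 0 ≤ X θ * Y θ := mul_nonneg (hX0 θ) (hY0 θ)
    have := Real.exp_pos (-(2 * b))
    linarith
  have hmk := hL.posR k
  have hlem := lemA hL hc hep0 hep1 hε' hkl hlk h0 h1 hUc hU0 hst hw (fun hkl' => by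
    have h2 := hcond hkl'
    refine le_trans ?_ h2
    have h3 : a * PI w U ≤ 3 * (2 * b) := mul_le_mul ha3 hH2b hH0 (by norm_num)
    have h4 : 8 * a * PI w U ≤ 48 * b := by linarith
    have := mul_le_mul_of_nonneg_left h4 hmk.le
    nlinarith)
  set f := ‖E S (gi m (ep b) c k l) w‖ with hf
  set XX := 2 * Aq q + ((l - k : ℕ) : ℝ) * (Real.log 4 + Aq q + 2 * Real.log b) + 32
    + (PI w U - b) with hXX
  have hfX : f ≤ Real.exp XX := by
    refine hlem.trans ?_
    have h2 : 4 * Real.exp (Aq q) / ep b = Real.exp (Real.log 4 + Aq q + 2 * Real.log b) := by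
      rw [Real.exp_add, Real.exp_add, Real.exp_log (by norm_num), mul_comm 2 (Real.log b),
        Real.exp_mul, Real.exp_log hb0]
      unfold ep
      rw [show (2 : ℝ) = ((2 : ℕ) : ℝ) by norm_num, Real.rpow_natCast]
      field_simp
    rw [h2, ← Real.exp_nat_mul, ← Real.exp_add, ← Real.exp_add, Real.exp_le_exp, hXX]
    linarith
  have hXXb : -b ≤ XX := by
    rw [hXX]
    have : 0 ≤ ((l - k : ℕ) : ℝ) * (Real.log 4 + Aq q + 2 * Real.log b) := by positivity
    linarith
  have hLdf : Ld b (f ^ 2) ≤ XX + 1 / 2 * Real.log 2 := by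
    unfold Ld
    have h2 : Real.exp (-(2 * b)) + f ^ 2 ≤ 2 * Real.exp (2 * XX) := by
      have h3 : Real.exp (-(2 * b)) ≤ Real.exp (2 * XX) := by
        rw [Real.exp_le_exp]
        linarith
      have h4 : f ^ 2 ≤ Real.exp XX ^ 2 := pow_le_pow_left₀ (norm_nonneg _) hfX 2
      rw [← Real.exp_nat_mul] at h4
      push_cast at h4
      linarith
    have h5 := Real.log_le_log (by positivity) h2
    rw [Real.log_mul two_ne_zero (Real.exp_pos _).ne', Real.log_exp] at h5
    linarith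
  have hyle : PI w (fun θ => yb b (X θ)) ≤ PI w (fun θ => -1 * Ld b (X θ)
      + 1 / 2 * Real.log (1 + X θ)) :=
    PI_mono hw1 hyc ((continuous_const.mul hLdc).add hlXc) fun θ => by
      have := yb_le' hb0.le (hX0 θ)
      linarith
  have hadd := PI_add hw1 (U := fun θ => -1 * Ld b (X θ))
    (V := fun θ => 1 / 2 * Real.log (1 + X θ)) (continuous_const.mul hLdc) hlXc
  rw [hadd, PI_smul] at hyle
  have hyf : -Ld b (f ^ 2) ≤ yb b (f ^ 2) := le_max_left _ _
  have hfinal : PI w (fun θ => yb b (X θ)) ≤ yb b (f ^ 2) + Ck q (l - k) b + IY + IX := by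
    have h2 : PI w (fun θ => Ld b (X θ)) = PI w U - b - (IY + 1 / 2 * Real.log 2) := by
      rw [hPIU]
      ring
    rw [h2] at hyle
    have h3 : PI w U - b = XX - (2 * Aq q
      + ((l - k : ℕ) : ℝ) * (Real.log 4 + Aq q + 2 * Real.log b) + 32) := by
      rw [hXX]
      ring
    unfold Ck
    linarith
  exact hfinal

end

end Pool.Agent.Helper61.HL
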