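import Pool.Agent.Helper61.HL.Kill

/-!
# Iterated removal of frequencies, and inversion of the multipliers
-/

namespace Pool.Agent.Helper61.HL

noncomputable section

open MeasureTheory AddCircle Complex Finset

/-- Hadamard gaps. -/
structure Lac (q : ℝ) (m : ℕ → ℕ) : Prop where
  one_lt : 1 < q
  pos0 : 0 < m 0
  step : ∀ j, q * m j ≤ m (j + 1)

/-- The constant `q / (q - 1)`. -/
def Aq (q : ℝ) : ℝ := q / (q - 1)

lemma Aq_gt {q : ℝ} (hq : 1 < q) : 1 < Aq q := by
  unfold Aq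
  rw [lt_div_iff₀ (by linarith)]
  linarith

lemma Aq_mul {q : ℝ} (hq : 1 < q) : Aq q * (1 - 1 / q) = 1 := by
  unfold Aq
  have h1 : q - 1 ≠ 0 := by linarith
  have h2 : q ≠ 0 := by linarith
  field_simp

lemma Lac.pos {q : ℝ} {m : ℕ → ℕ} (h : Lac q m) : ∀ j, 0 < m j := by
  intro j
  induction j with
  | zero => exact h.pos0
  | succ j ih =>
    have h1 := h.step j
    have h2 : (0 : ℝ) < m j := by exact_mod_cast ih
    have h3 : (0 : ℝ) < m (j + 1) := by nlinarith [h.one_lt]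
    exact_mod_cast h3

lemma Lac.posR {q : ℝ} {m : ℕ → ℕ} (h : Lac q m) (j : ℕ) : (0 : ℝ) < m j := by
  exact_mod_cast h.pos j

lemma Lac.mono {q : ℝ} {m : ℕ → ℕ} (h : Lac q m) : StrictMono m := by
  refine strictMono_nat_of_lt_succ fun j => ?_
  have h1 := h.step j
  have h2 := h.posR j
  have h3 : (m j : ℝ) < m (j + 1) := by nlinarith [h.one_lt]
  exact_mod_cast h3

lemma Lac.pow {q : ℝ} {m : ℕ → ℕ} (h : Lac q m) : ∀ l j, q ^ l * m j ≤ m (j + l) := by
  intro l
  induction l with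
  | zero => intro j; simp
  | succ l ih =>
    intro j
    calc q ^ (l + 1) * m j = q * (q ^ l * m j) := by ring
      _ ≤ q * m (j + l) := mul_le_mul_of_nonneg_left (ih j) (by linarith [h.one_lt])
      _ ≤ m (j + l + 1) := h.step _

lemma Lac.sum_inv {q : ℝ} {m : ℕ → ℕ} (h : Lac q m) (k : ℕ) :
    ∀ l, k < l → ∑ j ∈ Ioc k l, (1 : ℝ) / m j ≤ Aq q / m (k + 1) - (Aq q - 1) / m l := by
  intro l hl
  induction l, hl using Nat.le_induction with
  | base =>
    rw [Nat.Ioc_succ_singleton, Finset.sum_singleton, ← sub_div]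
    refine le_of_eq ?_
    congr 1
    ring
  | succ l hl ih =>
    have hins : Ioc k (l + 1) = insert (l + 1) (Ioc k l) := by
      ext x
      simp only [mem_Ioc, mem_insert]
      omega
    rw [hins, Finset.sum_insert (by simp)]
    have h1 : Aq q / m (l + 1) ≤ (Aq q - 1) / m l := by
      have h2 : Aq q = q * (Aq q - 1) := by
        unfold Aq
        have h1 : q - 1 ≠ 0 := by linarith [h.one_lt]
        field_simp
        ring
      rw [div_le_div_iff₀ (h.posR _) (h.posR _)]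
      have h3 := h.step l
      have h4 := Aq_gt h.one_lt
      calc Aq q * m l = (Aq q - 1) * (q * m l) := by
            conv_lhs => rw [h2]
            ring
        _ ≤ (Aq q - 1) * m (l + 1) := mul_le_mul_of_nonneg_left h3 (by linarith)
    have h5 : Aq q / m (l + 1) = 1 / m (l + 1) + (Aq q - 1) / m (l + 1) := by
      rw [← add_div]
      congr 1
      ring
    linarith

lemma Lac.sum_inv_le {q : ℝ} {m : ℕ → ℕ} (h : Lac q m) (k l : ℕ) :
    ∑ j ∈ Ioc k l, (1 : ℝ) / m j ≤ Aq q / m (k + 1) := by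
  have h4 := Aq_gt h.one_lt
  rcases Nat.lt_or_ge k l with hl | hl
  · have h1 := h.sum_inv k l hl
    have h2 : 0 ≤ (Aq q - 1) / m l := div_nonneg (by linarith) (h.posR l).le
    linarith
  · rw [Finset.Ioc_eq_empty (by omega), Finset.sum_empty]
    exact div_nonneg (by linarith) (h.posR _).le

/-- Spectral condition. -/
def Sp (m : ℕ → ℕ) (d : ℤ → ℂ) : Prop := ∀ n, d n ≠ 0 → 0 ≤ n ∨ ∃ j, n = -(m j : ℤ)

/-- The coefficients after the removal of the frequencies with indices in `(k, l]` and the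
truncation at the frequency `-m k`. -/
def gi (m : ℕ → ℕ) (ε : ℝ) (d : ℤ → ℂ) (k l : ℕ) (n : ℤ) : ℂ :=
  if -(m k : ℤ) ≤ n then (Mu m ε (Ioc k l) n : ℂ) * d n else 0

lemma Mu_insert {m : ℕ → ℕ} {ε : ℝ} {J : Finset ℕ} {j : ℕ} (hj : j ∉ J) (n : ℤ) :
    Mu m ε (insert j J) n = kap ε (1 + n / m j) * Mu m ε J n := by
  unfold Mu
  rw [Finset.prod_insert hj]

lemma gi_low {m : ℕ → ℕ} {ε : ℝ} {d : ℤ → ℂ} {k l : ℕ} {n : ℤ} (h : n < -(m k : ℤ)) :
    gi m ε d k l n = 0 := by
  unfold gi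
  rw [if_neg (by omega)]

lemma gi_step {q : ℝ} {m : ℕ → ℕ} (hL : Lac q m) {ε : ℝ} {d : ℤ → ℂ} (hd : Sp m d) {k l : ℕ}
    (hkl : k < l) : gi m ε d k l = fun n : ℤ => (kap ε (1 + n / m (k + 1)) : ℂ)
      * gi m ε d (k + 1) l n := by
  ext n
  have hmk : m k < m (k + 1) := hL.mono (Nat.lt_succ_self k)
  unfold gi
  by_cases h : -(m k : ℤ) ≤ n
  · rw [if_pos h, if_pos (by omega)]
    have h1 : Ioc k l = insert (k + 1) (Ioc (k + 1) l) := by
      ext x
      simp only [mem_Ioc, mem_insert]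
      omega
    rw [h1, Mu_insert (by simp)]
    push_cast
    ring
  · rw [if_neg h]
    by_cases h2 : -(m (k + 1) : ℤ) ≤ n
    · rw [if_pos h2]
      by_cases h3 : d n = 0
      · rw [h3]
        simp
      · rcases hd n h3 with h4 | ⟨j, hj⟩
        · omega
        · have h5 : m k < m j := by omega
          have h6 : m j ≤ m (k + 1) := by omega
          have h7 := hL.mono.lt_iff_lt.mp h5
          have h8 := hL.mono.le_iff_le.mp h6
          have h9 : j = k + 1 := by omega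
          have h10 : (1 : ℝ) + n / m (k + 1) = 0 := by
            rw [hj, h9]
            push_cast
            have := (hL.posR (k + 1)).ne'
            field_simp
            ring
          rw [h10, kap_zero]
          simp
    · rw [if_neg h2, mul_zero]

/-- Heights. -/
lemma height_bounds {q : ℝ} {m : ℕ → ℕ} (hL : Lac q m) {h' : ℝ} {i p : ℕ} (hip : i < p)
    (h0 : 0 ≤ h') (h1 : h' ≤ Aq q / m p) :
    0 < Aq q / m i - h' ∧ m i * (Aq q / m i - h') ≤ Aq q ∧ 1 ≤ m i * (Aq q / m i - h') := by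
  have hA := Aq_gt hL.one_lt
  have hmi := hL.posR i
  have hmp := hL.posR p
  have hq0 : 0 < q := by linarith [hL.one_lt]
  have h2 : m i * (Aq q / m i - h') = Aq q - m i * h' := by
    field_simp
  have h3 : q * m i ≤ m p := by
    refine (hL.step i).trans ?_
    exact_mod_cast hL.mono.monotone hip
  have h4 : m i * h' ≤ Aq q / q := by
    have h5 : m i * h' ≤ m i * (Aq q / m p) := mul_le_mul_of_nonneg_left h1 hmi.le
    refine h5.trans ?_
    rw [← mul_div_assoc, div_le_div_iff₀ hmp hq0]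
    nlinarith
  have h6 : Aq q - Aq q / q = 1 := by
    have := Aq_mul hL.one_lt
    rw [← this]
    ring
  have h7 : 1 ≤ m i * (Aq q / m i - h') := by
    rw [h2]
    linarith
  refine ⟨?_, ?_, h7⟩
  · by_contra h8
    push Not at h8
    nlinarith
  · rw [h2]
    have : 0 ≤ m i * h' := mul_nonneg hmi.le h0
    linarith

/-- Iterated removal. -/
lemma kill_iter {q : ℝ} {m : ℕ → ℕ} (hL : Lac q m) {S : Finset ℤ} {d : ℤ → ℂ} (hd : Sp m d)
    {ε b h' : ℝ} (hε : 0 < ε) (hε1 : ε ≤ 1) {l : ℕ} (h0 : 0 ≤ h') (h1 : h' ≤ Aq q / m (l + 1))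
    {U : Ci → ℝ} (hU : Continuous U) (hU0 : ∀ θ, 0 ≤ U θ)
    (hst : ∀ θ, ‖E S (gi m ε d l l) (ze θ)‖ ^ 2 ≤ Real.exp (2 * (U θ - b))) :
    ∀ κ k, k + κ = l → ∀ ζ : ℂ, ζ ≠ 0 → ‖ζ‖ ≤ Real.exp (-(Aq q / m k - h')) →
      ‖ζ‖ ^ (m k) * ‖E S (gi m ε d k l) ζ‖
        ≤ (4 * Real.exp (Aq q) / ε) ^ κ * Real.exp ((1 + 8 * ε) ^ κ * PI ζ U - b) := by
  intro κ
  induction κ with
  | zero =>
    intro k hk ζ hζ0 hζ
    rw [add_zero] at hk
    subst hk
    have hx := (height_bounds hL (Nat.lt_succ_self k) h0 h1).1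
    have hζ1 : ‖ζ‖ < 1 := hζ.trans_lt (by rw [Real.exp_lt_one_iff]; linarith)
    simp only [pow_zero, one_mul]
    exact jensenE (fun n _ hn => gi_low hn) hU hst hζ1 hζ0
  | succ κ ih =>
    intro k hk
    have h2 := ih (k + 1) (by omega)
    obtain ⟨hx, hxA, hx1⟩ := height_bounds hL (show k + 1 < l + 1 by omega) h0 h1
    have h3 := kill_step (S := S) (d := gi m ε d (k + 1) l) (M' := m k) (hL.pos (k + 1)) hx hxA hx1
      hε hε1 (B := (4 * Real.exp (Aq q) / ε) ^ κ) (by positivity) (a := (1 + 8 * ε) ^ κ)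
      (by positivity) (b := b) hU hU0 (by
        intro n _ hn
        have := congrFun (gi_step hL (ε := ε) hd (show k < l by omega)) n
        rw [← this]
        exact gi_low hn) h2
    rw [← gi_step hL hd (show k < l by omega)] at h3
    intro ζ hζ0 hζ
    have hle : Real.exp (-(Aq q / m k - h')) ≤ Real.exp (-(Aq q / m (k + 1) - h')) := by
      rw [Real.exp_le_exp]
      have h4 : Aq q / m (k + 1) ≤ Aq q / m k := by
        have hA := Aq_gt hL.one_lt
        refine div_le_div_of_nonneg_left (by linarith) (hL.posR k) ?_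
        exact_mod_cast (hL.mono (Nat.lt_succ_self k)).le
      linarith
    refine (h3 ζ hζ0 (hζ.trans hle)).trans (le_of_eq ?_)
    ring_nf

lemma norm_E_le {S : Finset ℤ} {g : ℤ → ℂ} {ν : ℕ} (hg : ∀ n ∈ S, n < -(ν : ℤ) → g n = 0) {lam : ℝ}
    (hlam : ν ≤ lam) (w : ℂ) : ∃ C : ℝ, ∀ s : ℝ, 0 ≤ s →
      ‖E S g ((Real.exp (-s) : ℝ) * w)‖ * Real.exp (-(lam * s)) ≤ C := by
  refine ⟨∑ n ∈ S, ‖g n‖ * ‖w‖ ^ n, fun s hs => ?_⟩
  unfold E
  calc ‖∑ n ∈ S, g n * ((Real.exp (-s) : ℝ) * w) ^ n‖ * Real.exp (-(lam * s))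
      ≤ (∑ n ∈ S, ‖g n * ((Real.exp (-s) : ℝ) * w) ^ n‖) * Real.exp (-(lam * s)) :=
        mul_le_mul_of_nonneg_right (norm_sum_le _ _) (Real.exp_pos _).le
    _ = ∑ n ∈ S, ‖g n * ((Real.exp (-s) : ℝ) * w) ^ n‖ * Real.exp (-(lam * s)) := by
        rw [Finset.sum_mul]
    _ ≤ ∑ n ∈ S, ‖g n‖ * ‖w‖ ^ n := by
        refine Finset.sum_le_sum fun n hn => ?_
        by_cases h : n < -(ν : ℤ)
        · rw [hg n hn h]
          simp
        · have h1 : ‖g n * ((Real.exp (-s) : ℝ) * w) ^ n‖ = ‖g n‖ * ‖w‖ ^ n * Real.exp (-(s * n)) := by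
            rw [norm_mul, norm_zpow, norm_mul, Complex.norm_real,
              Real.norm_of_nonneg (Real.exp_pos _).le, mul_zpow]
            have : Real.exp (-(s * n)) = Real.exp (-s) ^ n := by
              rw [← Real.rpow_intCast, ← Real.exp_mul]
              congr 1
              ring
            rw [this]
            ring
          rw [h1, mul_assoc, ← Real.exp_add]
          refine mul_le_of_le_one_right (by positivity) ?_
          rw [Real.exp_le_one_iff]
          have h2 : -(ν : ℝ) ≤ n := by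
            push Not at h
            exact_mod_cast h
          nlinarith

/-- Inversion of one multiplier. -/
lemma undo_step {S : Finset ℤ} {g : ℤ → ℂ} {ν : ℕ} (hg : ∀ n ∈ S, n < -(ν : ℤ) → g n = 0)
    {lam μ ε B : ℝ} (hlam : ν ≤ lam) (hμ : lam < μ) (hε : 0 < ε) {w : ℂ}
    (h : ∀ s : ℝ, 0 ≤ s → ‖E S (fun n => (kap ε (1 + n / μ) : ℂ) * g n)
      ((Real.exp (-s) : ℝ) * w)‖ ≤ B * Real.exp (lam * s)) :
    ∀ s : ℝ, 0 ≤ s → ‖E S g ((Real.exp (-s) : ℝ) * w)‖
      ≤ B * (1 - lam / μ)⁻¹ * Real.exp (lam * s) := by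
  have hlam0 : 0 ≤ lam := le_trans (Nat.cast_nonneg ν) hlam
  have hμ0 : 0 < μ := hlam0.trans_lt hμ
  have hy0 : 0 ≤ lam / μ := div_nonneg hlam0 hμ0.le
  have hy1 : lam / μ < 1 := by
    rw [div_lt_one hμ0]
    exact hμ
  set X : Set.Ici (0 : ℝ) → ℝ := fun s =>
    ‖E S g ((Real.exp (-(s : ℝ)) : ℝ) * w)‖ * Real.exp (-(lam * s)) with hX
  obtain ⟨C, hC⟩ := norm_E_le hg hlam w
  have hbdd : BddAbove (Set.range X) := ⟨C, by
    rintro _ ⟨s, rfl⟩
    exact hC s s.2⟩
  have h1e := one_sub_exp_pos hε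
  set r := Real.exp (-(ε * (1 - lam / μ))) with hr
  have hr1 : (1 - lam / μ) * (1 - Real.exp (-ε)) ≤ 1 - r := by
    have hconv := convexOn_exp.2 (Set.mem_univ (-ε)) (Set.mem_univ (0 : ℝ))
      (show 0 ≤ 1 - lam / μ by linarith) hy0 (by ring)
    simp only [smul_eq_mul, mul_zero, add_zero, Real.exp_zero, mul_one] at hconv
    have h2 : r = Real.exp ((1 - lam / μ) * -ε) := by
      rw [hr]
      congr 1
      ring
    rw [h2]
    linarith
  have hne : Nonempty (Set.Ici (0 : ℝ)) := ⟨⟨0, Set.mem_Ici.mpr le_rfl⟩⟩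
  have hstep : ∀ s : Set.Ici (0 : ℝ), X s ≤ (1 - Real.exp (-ε)) * B + r * ⨆ s, X s := by
    intro s
    have hs0 : (0 : ℝ) ≤ s := s.2
    have hid := undo_id S g (μ := μ) hε ((Real.exp (-(s : ℝ)) : ℝ) * w)
    have h2 : ((Real.exp (-(ε / μ)) : ℝ) : ℂ) * ((Real.exp (-(s : ℝ)) : ℝ) * w)
        = (Real.exp (-((s : ℝ) + ε / μ)) : ℝ) * w := by
      rw [← mul_assoc, ← Complex.ofReal_mul, ← Real.exp_add]
      congr 3
      ring
    rw [h2] at hid
    have hs' : (0 : ℝ) ≤ s + ε / μ := by positivity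
    have h3 : X ⟨s + ε / μ, hs'⟩ ≤ ⨆ s, X s := le_ciSup hbdd _
    have h4 : ‖E S g ((Real.exp (-((s : ℝ) + ε / μ)) : ℝ) * w)‖
        = X ⟨s + ε / μ, hs'⟩ * Real.exp (lam * (s + ε / μ)) := by
      rw [hX]
      simp only
      rw [mul_assoc, ← Real.exp_add, neg_add_cancel, Real.exp_zero, mul_one]
    have h5 : ‖E S g ((Real.exp (-(s : ℝ)) : ℝ) * w)‖
        ≤ (1 - Real.exp (-ε)) * (B * Real.exp (lam * s))
          + Real.exp (-ε) * ((⨆ s, X s) * Real.exp (lam * (s + ε / μ))) := by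
      rw [hid]
      refine (norm_add_le _ _).trans (add_le_add ?_ ?_)
      · rw [norm_mul, Complex.norm_real, Real.norm_of_nonneg h1e.le]
        exact mul_le_mul_of_nonneg_left (h s hs0) h1e.le
      · rw [norm_mul, Complex.norm_real, Real.norm_of_nonneg (Real.exp_pos _).le, h4]
        refine mul_le_mul_of_nonneg_left ?_ (Real.exp_pos _).le
        exact mul_le_mul_of_nonneg_right h3 (Real.exp_pos _).le
    rw [hX]
    simp only
    calc ‖E S g ((Real.exp (-(s : ℝ)) : ℝ) * w)‖ * Real.exp (-(lam * s))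
        ≤ ((1 - Real.exp (-ε)) * (B * Real.exp (lam * s))
          + Real.exp (-ε) * ((⨆ s, X s) * Real.exp (lam * (s + ε / μ))))
            * Real.exp (-(lam * s)) := mul_le_mul_of_nonneg_right h5 (Real.exp_pos _).le
      _ = (1 - Real.exp (-ε)) * B * (Real.exp (lam * s) * Real.exp (-(lam * s)))
          + (⨆ s, X s) * (Real.exp (-ε) * Real.exp (lam * (s + ε / μ))
            * Real.exp (-(lam * s))) := by ring
      _ = (1 - Real.exp (-ε)) * B + r * ⨆ s, X s := by
          rw [← Real.exp_add, add_neg_cancel, Real.exp_zero, mul_one, ← Real.exp_add,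
            ← Real.exp_add, hr, mul_comm (Real.exp _) (⨆ s, X s)]
          congr 3
          field_simp
          ring
  have hsup : (⨆ s, X s) ≤ (1 - Real.exp (-ε)) * B + r * ⨆ s, X s := ciSup_le hstep
  have hfin : (⨆ s, X s) ≤ B * (1 - lam / μ)⁻¹ := by
    have h2 : (1 - r) * (⨆ s, X s) ≤ (1 - Real.exp (-ε)) * B := by linarith
    have hS0 : 0 ≤ ⨆ s, X s := by
      refine le_ciSup_of_le hbdd ⟨0, Set.mem_Ici.mpr le_rfl⟩ ?_
      rw [hX]
      positivity
    have h3 : (1 - lam / μ) * (1 - Real.exp (-ε)) * (⨆ s, X s) ≤ (1 - Real.exp (-ε)) * B :=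
      (mul_le_mul_of_nonneg_right hr1 hS0).trans h2
    have h4 : (1 - Real.exp (-ε)) * ((1 - lam / μ) * (⨆ s, X s)) ≤ (1 - Real.exp (-ε)) * B := by
      linarith
    have h5 := le_of_mul_le_mul_left h4 h1e
    rw [← div_eq_mul_inv, le_div_iff₀ (by linarith)]
    linarith
  intro s hs
  have h2 : X ⟨s, hs⟩ ≤ B * (1 - lam / μ)⁻¹ := (le_ciSup hbdd _).trans hfin
  rw [hX] at h2
  simp only at h2
  calc ‖E S g ((Real.exp (-s) : ℝ) * w)‖
      = ‖E S g ((Real.exp (-s) : ℝ) * w)‖ * Real.exp (-(lam * s)) * Real.exp (lam * s) := by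
        rw [mul_assoc, ← Real.exp_add, neg_add_cancel, Real.exp_zero, mul_one]
    _ ≤ B * (1 - lam / μ)⁻¹ * Real.exp (lam * s) :=
        mul_le_mul_of_nonneg_right h2 (Real.exp_pos _).le

/-- Inversion of a product of multipliers. -/
lemma undo_iter {S : Finset ℤ} {m : ℕ → ℕ} {ν : ℕ} {lam ε : ℝ} (hlam : ν ≤ lam) (hε : 0 < ε)
    {w : ℂ} (J : Finset ℕ) (hJ : ∀ j ∈ J, lam < m j) :
    ∀ (g : ℤ → ℂ) (B : ℝ), 0 ≤ B → (∀ n ∈ S, n < -(ν : ℤ) → g n = 0) →
    (∀ s : ℝ, 0 ≤ s → ‖E S (fun n => (Mu m ε J n : ℂ) * g n)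
      ((Real.exp (-s) : ℝ) * w)‖ ≤ B * Real.exp (lam * s)) →
    ∀ s : ℝ, 0 ≤ s → ‖E S g ((Real.exp (-s) : ℝ) * w)‖
      ≤ B * (∏ j ∈ J, (1 - lam / m j)⁻¹) * Real.exp (lam * s) := by
  induction J using Finset.induction_on with
  | empty =>
    intro g B _ _ h s hs
    have := h s hs
    simpa [Mu] using this
  | insert j J hj ih =>
    intro g B hB hg h
    have hJ' : ∀ i ∈ J, lam < m i := fun i hi => hJ i (Finset.mem_insert_of_mem hi)
    have hjm : lam < m j := hJ j (Finset.mem_insert_self _ _)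
    have h1 := ih hJ' (fun n => (kap ε (1 + n / m j) : ℂ) * g n) B hB
      (fun n hn h2 => by rw [hg n hn h2, mul_zero]) (by
        intro s hs
        refine le_trans (le_of_eq ?_) (h s hs)
        congr 2
        ext n
        rw [Mu_insert hj]
        push_cast
        ring)
    have hlam0 : 0 ≤ lam := le_trans (Nat.cast_nonneg ν) hlam
    have hprod : 0 ≤ ∏ j ∈ J, (1 - lam / m j)⁻¹ := by
      refine Finset.prod_nonneg fun i hi => inv_nonneg.mpr ?_
      have h3 := hJ' i hi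
      rw [sub_nonneg, div_le_one (hlam0.trans_lt h3)]
      exact h3.le
    have h2 := undo_step hg hlam hjm hε h1
    intro s hs
    refine (h2 s hs).trans (le_of_eq ?_)
    rw [Finset.prod_insert hj]
    ring

lemma prod_inv_le {q : ℝ} {m : ℕ → ℕ} (hL : Lac q m) {k l : ℕ} {lam : ℝ} (h0 : 0 ≤ lam)
    (h : k < l → 2 * lam ≤ m (k + 1)) :
    ∏ j ∈ Ioc k l, (1 - lam / m j)⁻¹ ≤ Real.exp (Aq q) := by
  rcases Nat.lt_or_ge k l with hl | hl
  · have h1 := h hl
    have hmj : ∀ j ∈ Ioc k l, 2 * lam ≤ m j := by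
      intro j hj
      refine h1.trans ?_
      exact_mod_cast hL.mono.monotone (Finset.mem_Ioc.mp hj).1
    calc ∏ j ∈ Ioc k l, (1 - lam / m j)⁻¹ ≤ ∏ j ∈ Ioc k l, Real.exp (2 * lam * (1 / m j)) := by
          refine Finset.prod_le_prod (fun j hj => inv_nonneg.mpr ?_) fun j hj => ?_
          · have h2 := hmj j hj
            rw [sub_nonneg, div_le_one (hL.posR j)]
            linarith
          · have h2 := hmj j hj
            have hy : lam / m j ≤ 1 / 2 := by
              rw [div_le_div_iff₀ (hL.posR j) two_pos]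
              linarith
            have hy0 : 0 ≤ lam / m j := div_nonneg h0 (hL.posR j).le
            have h3 : 2 * lam * (1 / m j) = 2 * (lam / m j) := by ring
            rw [h3, inv_le_comm₀ (by linarith) (Real.exp_pos _), ← Real.exp_neg]
            -- `exp (-2y) ≤ 1 - y`
            set y := lam / m j with hydef
            have h4 := Real.add_one_le_exp (2 * y)
            have h5 : Real.exp (2 * y) * Real.exp (-(2 * y)) = 1 := by
              rw [← Real.exp_add, add_neg_cancel, Real.exp_zero]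
            have h6 := Real.exp_pos (-(2 * y))
            have h7 : (1 + 2 * y) * Real.exp (-(2 * y)) ≤ 1 := by nlinarith
            have h8 : 1 ≤ (1 + 2 * y) * (1 - y) := by nlinarith
            have h9 : (1 + 2 * y) * Real.exp (-(2 * y)) ≤ (1 + 2 * y) * (1 - y) := h7.trans h8
            exact le_of_mul_le_mul_left h9 (by linarith)
      _ = Real.exp (2 * lam * ∑ j ∈ Ioc k l, (1 : ℝ) / m j) := by
          rw [← Real.exp_sum, Finset.mul_sum]
      _ ≤ Real.exp (Aq q) := by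
          rw [Real.exp_le_exp]
          have h2 := hL.sum_inv_le k l
          have hA := Aq_gt hL.one_lt
          calc 2 * lam * ∑ j ∈ Ioc k l, (1 : ℝ) / m j ≤ 2 * lam * (Aq q / m (k + 1)) :=
                mul_le_mul_of_nonneg_left h2 (by linarith)
            _ ≤ m (k + 1) * (Aq q / m (k + 1)) :=
                mul_le_mul_of_nonneg_right h1 (div_nonneg (by linarith) (hL.posR _).le)
            _ = Aq q := by
                have := (hL.posR (k + 1)).ne'
                field_simp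
  · rw [Finset.Ioc_eq_empty (by omega), Finset.prod_empty]
    have := Real.add_one_le_exp (Aq q)
    have hA := Aq_gt hL.one_lt
    linarith

end

end Pool.Agent.Helper61.HL
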